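import Pool.Agent.R556.CLU.Defs

/-! MP_2d2444_co (project CLU), job CLU-B: the beta integral by integration by parts. -/

namespace R556.CLU

/-- the beta integral for a function `g` with continuous derivative `v` -/
theorem beta_gen {v g : ℝ → ℝ} (hv : Continuous v) (hg : ∀ x, HasDerivAt g (v x) x) (x b : ℝ) :
    ∀ k M : ℕ, (∫ y in x..b, v y * (g y - g x) ^ k * (g b - g y) ^ M) =
      (g b - g x) ^ (k + M + 1) * (k.factorial * M.factorial / (k + M + 1).factorial) := by
  have hgc : Continuous g := continuous_iff_continuousAt.2 fun y => (hg y).continuousAt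
  have hd1 : ∀ (y : ℝ) (M : ℕ), HasDerivAt (fun y => (g b - g y) ^ (M + 1))
      (((M : ℝ) + 1) * (g b - g y) ^ M * (-v y)) y := by
    intro y M
    have := ((hg y).const_sub (g b)).pow (M + 1)
    refine this.congr_deriv ?_
    push_cast
    simp
  have hd2 : ∀ (y : ℝ) (k : ℕ), HasDerivAt (fun y => (g y - g x) ^ (k + 1))
      (((k : ℝ) + 1) * (g y - g x) ^ k * (v y)) y := by
    intro y k
    have := ((hg y).sub_const (g x)).pow (k + 1)
    refine this.congr_deriv ?_
    push_cast
    simp
  intro k
  induction k with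
  | zero =>
    intro M
    have hM : ((M : ℝ) + 1) ≠ 0 := by positivity
    have h1 : ∀ y ∈ Set.uIcc x b, HasDerivAt (fun y => -(1 / ((M : ℝ) + 1)) * (g b - g y) ^ (M + 1))
        (v y * (g y - g x) ^ 0 * (g b - g y) ^ M) y := by
      intro y _
      refine ((hd1 y M).const_mul (-(1 / ((M : ℝ) + 1)))).congr_deriv ?_
      field_simp
    rw [intervalIntegral.integral_eq_sub_of_hasDerivAt h1
      (Continuous.intervalIntegrable (by fun_prop) _ _)]
    have h2 : ((0 + M + 1).factorial : ℝ) = ((M : ℝ) + 1) * M.factorial := by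
      rw [Nat.zero_add, Nat.factorial_succ]
      push_cast
      ring
    rw [h2, Nat.factorial_zero, sub_self, zero_pow (by omega), Nat.zero_add]
    have h3 : (M.factorial : ℝ) ≠ 0 := by exact_mod_cast Nat.factorial_ne_zero M
    push_cast
    field_simp
    ring
  | succ k ih =>
    intro M
    have hM : ((M : ℝ) + 1) ≠ 0 := by positivity
    have h1 : ∀ y ∈ Set.uIcc x b, HasDerivAt (fun y => (g y - g x) ^ (k + 1) *
        (g b - g y) ^ (M + 1))
        (((k : ℝ) + 1) * (v y * (g y - g x) ^ k * (g b - g y) ^ (M + 1)) -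
          ((M : ℝ) + 1) * (v y * (g y - g x) ^ (k + 1) * (g b - g y) ^ M)) y := by
      intro y _
      refine ((hd2 y k).mul (hd1 y M)).congr_deriv ?_
      ring
    have h2 := intervalIntegral.integral_eq_sub_of_hasDerivAt h1
      (Continuous.intervalIntegrable (by fun_prop) _ _)
    rw [intervalIntegral.integral_sub (Continuous.intervalIntegrable (by fun_prop) _ _)
      (Continuous.intervalIntegrable (by fun_prop) _ _), intervalIntegral.integral_const_mul,
      intervalIntegral.integral_const_mul, ih (M + 1), sub_self, sub_self,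
      zero_pow (by omega), zero_pow (by omega)] at h2
    have h3 : (∫ y in x..b, v y * (g y - g x) ^ (k + 1) * (g b - g y) ^ M) =
        (((k : ℝ) + 1) * ((g b - g x) ^ (k + (M + 1) + 1) *
          (k.factorial * (M + 1).factorial / (k + (M + 1) + 1).factorial))) / ((M : ℝ) + 1) := by
      rw [eq_div_iff hM]
      linarith
    rw [h3]
    have h4 : k + 1 + M + 1 = k + (M + 1) + 1 := by ring
    rw [h4, Nat.factorial_succ k, Nat.factorial_succ M]
    push_cast
    field_simp

theorem stmB (hG : StmG) : StmB := by
  intro p q s k M x b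
  obtain ⟨h1, h2, _⟩ := hG p q s
  exact beta_gen h1 h2 x b k M

end R556.CLU
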