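import Pool.Agent.R556.CLU.Defs

/-! MP_2d2444_co: block structure of the integrals. -/

open MeasureTheory Set Function
open scoped ENNReal unitInterval

namespace R556.CLU

noncomputable section

open Classical R556.CP

variable {p q s : ℕ}

lemma measurable_ker : Measurable (fun z : I × I => ker p q s z.1 z.2) := by
  unfold ker
  refine Measurable.ite (measurableSet_lt measurable_fst measurable_snd) ?_ measurable_const
  refine ENNReal.measurable_ofReal.comp ?_
  fun_prop

lemma measurable_Q {h : I → ℝ≥0∞} (hh : Measurable h) : Measurable (Q p q s h) := by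
  unfold Q
  exact Measurable.lintegral_prod_right' (f := fun z : I × I => ker p q s z.1 z.2 * h z.2)
    (measurable_ker.mul (hh.comp measurable_snd))

lemma measurable_Qn {h : I → ℝ≥0∞} (hh : Measurable h) (k : ℕ) : Measurable (Qn p q s k h) := by
  induction k with
  | zero => exact hh
  | succ k ih =>
    unfold Qn
    rw [iterate_succ_apply']
    exact measurable_Q ih

lemma Qn_succ (k : ℕ) (h : I → ℝ≥0∞) : Qn p q s (k + 1) h = Q p q s (Qn p q s k h) := by
  unfold Qn
  rw [iterate_succ_apply']

lemma Q_const_mul {h : I → ℝ≥0∞} (hh : Measurable h) (c : ℝ≥0∞) (x : I) :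
    Q p q s (fun y => c * h y) x = c * Q p q s h x := by
  unfold Q
  rw [← lintegral_const_mul]
  · congr 1
    funext y
    ring
  · exact (measurable_ker.comp measurable_prodMk_left).mul hh

lemma Qn_const_mul {h : I → ℝ≥0∞} (hh : Measurable h) (c : ℝ≥0∞) (k : ℕ) (x : I) :
    Qn p q s k (fun y => c * h y) x = c * Qn p q s k h x := by
  induction k generalizing x with
  | zero => rfl
  | succ k ih =>
    rw [Qn_succ, Qn_succ]
    have : Qn p q s k (fun y => c * h y) = fun y => c * Qn p q s k h y := by
      funext y; exact ih y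
    rw [this, Q_const_mul (measurable_Qn hh k)]

lemma cpos_le (p q s j : ℕ) (hj : j ≤ p + q + s + 1) : cpos p q s j ≤ p + q + s + 1 := by
  unfold cpos
  split_ifs <;> omega

lemma measurableSet_blk (p q s : ℕ) : MeasurableSet {X : ℕ → I | Blk p q s X} := by
  have : {X : ℕ → I | Blk p q s X} = ⋂ j : ℕ, ⋂ _ : j < p + q + s + 1,
      {X : ℕ → I | X (cpos p q s j) < X (cpos p q s (j + 1))} := by
    ext X; simp [Blk]
  rw [this]
  exact MeasurableSet.iInter fun j => MeasurableSet.iInter fun _ =>
    measurableSet_lt (measurable_pi_apply _) (measurable_pi_apply _)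

lemma dep_blk (p q s : ℕ) : Dep (fun X => ind (Blk p q s X)) (Set.Iio (p + q + s + 2)) := by
  intro X Y h
  refine ind_congr (forall₂_congr fun j hj => ?_)
  rw [h _ (show cpos p q s j < p + q + s + 2 by have := cpos_le p q s j (by omega); omega),
    h _ (show cpos p q s (j + 1) < p + q + s + 2 by
      have := cpos_le p q s (j + 1) (by omega); omega)]

/-- all the first `n` clusters are increasing -/
def Chain (p q s n : ℕ) (X : ℕ → I) : Prop := ∀ i < n, Blk p q s (sh (i * (p + q + s + 1)) X)

lemma chain_split (i k : ℕ) (X : ℕ → I) :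
    Chain p q s (i + k) X ↔ Chain p q s i X ∧ Chain p q s k (sh (i * (p + q + s + 1)) X) := by
  constructor
  · intro h
    refine ⟨fun j hj => h j (by omega), fun j hj => ?_⟩
    have := h (i + j) (by omega)
    rw [sh_sh, ← add_mul, add_comm j i]
    exact this
  · rintro ⟨h1, h2⟩ j hj
    by_cases hc : j < i
    · exact h1 j hc
    · have := h2 (j - i) (by omega)
      rw [sh_sh, ← add_mul, show j - i + i = j by omega] at this
      exact this

lemma measurableSet_chain (n : ℕ) : MeasurableSet {X : ℕ → I | Chain p q s n X} := by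
  have : {X : ℕ → I | Chain p q s n X} = ⋂ i : ℕ, ⋂ _ : i < n,
      (sh (i * (p + q + s + 1))) ⁻¹' {X : ℕ → I | Blk p q s X} := by
    ext X; simp [Chain]
  rw [this]
  exact MeasurableSet.iInter fun i => MeasurableSet.iInter fun _ =>
    measurable_sh _ (measurableSet_blk p q s)

lemma dep_chain (n : ℕ) : Dep (fun X => ind (Chain p q s n X))
    (Set.Iio (n * (p + q + s + 1) + 1)) := by
  intro X Y h
  refine ind_congr (forall₂_congr fun i hi => forall₂_congr fun j hj => ?_)
  have hi' : (i + 1) * (p + q + s + 1) ≤ n * (p + q + s + 1) := Nat.mul_le_mul_right _ hi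
  have e : (i + 1) * (p + q + s + 1) = i * (p + q + s + 1) + (p + q + s + 1) := by ring
  unfold sh
  rw [h (cpos p q s j + i * (p + q + s + 1)) (by
      have := cpos_le p q s j (by omega)
      refine Set.mem_Iio.2 ?_; omega),
    h (cpos p q s (j + 1) + i * (p + q + s + 1)) (by
      have := cpos_le p q s (j + 1) (by omega)
      refine Set.mem_Iio.2 ?_; omega)]

/-- the constant of one block -/
def cst (p q s : ℕ) : ℝ≥0∞ := ENNReal.ofReal (1 / (p.factorial * q.factorial * s.factorial))

lemma one_block (hE : StmE) {h : I → ℝ≥0∞} (hh : Measurable h) (X : ℕ → I) :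
    LM (Finset.Ico 1 (p + q + s + 2)) (fun X => ind (Blk p q s X) * h (X (p + q + s + 1))) X =
      cst p q s * Q p q s h (X 0) := by
  have hu : Finset.Ico 1 (p + q + s + 2) = {p + q + s + 1} ∪ Finset.Ico 1 (p + q + s + 1) := by
    ext x; simp only [Finset.mem_union, Finset.mem_Ico, Finset.mem_singleton]; omega
  have hd : Disjoint ({p + q + s + 1} : Finset ℕ) (Finset.Ico 1 (p + q + s + 1)) := by simp
  have hhm : Measurable (fun X : ℕ → I => h (X (p + q + s + 1))) := hh.comp (measurable_pi_apply _)
  have hbm : Measurable (fun X : ℕ → I => ind (Blk p q s X)) := measurable_ind (measurableSet_blk _ _ _)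
  rw [hu, LM_union (f := fun X => ind (Blk p q s X) * h (X (p + q + s + 1))) (hbm.mul hhm) hd]
  have inner : LM (Finset.Ico 1 (p + q + s + 1))
      (fun X => ind (Blk p q s X) * h (X (p + q + s + 1))) =
      fun X => h (X (p + q + s + 1)) * (cst p q s * ker p q s (X 0) (X (p + q + s + 1))) := by
    funext Y
    have hc : (fun X : ℕ → I => ind (Blk p q s X) * h (X (p + q + s + 1))) =
        fun X => h (X (p + q + s + 1)) * ind (Blk p q s X) := by funext Z; exact mul_comm _ _
    rw [hc, LM_mul_left (f := fun X : ℕ → I => h (X (p + q + s + 1))) ?_ hbm, hE p q s Y]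
    · rfl
    · intro Z Z' hZ
      show h (Z (p + q + s + 1)) = h (Z' (p + q + s + 1))
      rw [hZ (p + q + s + 1) (by simp)]
  rw [inner]
  unfold LM
  rw [lmarginal_singleton]
  unfold Q
  rw [← lintegral_const_mul]
  · refine lintegral_congr fun y => ?_
    rw [update_self, update_of_ne (by omega)]
    ring
  · exact (measurable_ker.comp measurable_prodMk_left).mul hh

lemma image_Ico' (n d : ℕ) :
    (Finset.Ico 1 (n * d + 1)).image (· + d) = Finset.Ico (d + 1) ((n + 1) * d + 1) := by
  rw [image_add_Ico]
  congr 1 <;> ring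

lemma blocks (hE : StmE) {h : I → ℝ≥0∞} (hh : Measurable h) (n : ℕ) (X : ℕ → I) :
    LM (Finset.Ico 1 (n * (p + q + s + 1) + 1))
      (fun X => ind (Chain p q s n X) * h (X (n * (p + q + s + 1)))) X =
      cst p q s ^ n * Qn p q s n h (X 0) := by
  induction n generalizing X with
  | zero =>
    rw [Nat.zero_mul, show Finset.Ico 1 (0 + 1) = ∅ by simp]
    unfold LM
    rw [lmarginal_empty, ind_true (P := Chain p q s 0 X) (fun i hi => absurd hi (Nat.not_lt_zero _))]
    simp [Qn]
  | succ n ih =>
    set d := p + q + s + 1 with hdd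
    have hu : Finset.Ico 1 ((n + 1) * d + 1) =
        Finset.Ico 1 (d + 1) ∪ Finset.Ico (d + 1) ((n + 1) * d + 1) := by
      have : (n + 1) * d = n * d + d := by ring
      ext x; simp only [Finset.mem_union, Finset.mem_Ico, this]
      have : 0 ≤ n * d := Nat.zero_le _
      omega
    have hd : Disjoint (Finset.Ico 1 (d + 1)) (Finset.Ico (d + 1) ((n + 1) * d + 1)) := by
      rw [Finset.disjoint_left]; intro x; simp only [Finset.mem_Ico]; omega
    have hbm : Measurable (fun X : ℕ → I => ind (Blk p q s X)) :=
      measurable_ind (measurableSet_blk _ _ _)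
    have hg : Measurable (fun X : ℕ → I => ind (Chain p q s n X) * h (X (n * d))) :=
      (measurable_ind (measurableSet_chain n)).mul (hh.comp (measurable_pi_apply _))
    have e1 : (fun X : ℕ → I => ind (Chain p q s (n + 1) X) * h (X ((n + 1) * d))) =
        fun X => ind (Blk p q s X) * (ind (Chain p q s n (sh d X)) * h (sh d X (n * d))) := by
      funext Z
      have hb : Chain p q s (n + 1) Z ↔ Blk p q s Z ∧ Chain p q s n (sh d Z) := by
        rw [add_comm n 1, chain_split 1 n Z, one_mul]
        refine and_congr ⟨fun h => ?_, fun h i hi => ?_⟩ Iff.rfl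
        · have := h 0 (by omega)
          rwa [Nat.zero_mul, sh_zero] at this
        · obtain rfl : i = 0 := by omega
          rwa [Nat.zero_mul, sh_zero]
      rw [ind_congr hb, ind_and, mul_assoc]
      have : sh d Z (n * d) = Z ((n + 1) * d) := by
        show Z (n * d + d) = _
        congr 1; ring
      rw [this]
    have hm1 : Measurable (fun X : ℕ → I => ind (Chain p q s n (sh d X)) * h (sh d X (n * d))) :=
      hg.comp (measurable_sh d)
    rw [e1, hu, LM_union (f := fun X => ind (Blk p q s X) *
      (ind (Chain p q s n (sh d X)) * h (sh d X (n * d)))) (hbm.mul hm1) hd]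
    have inner : LM (Finset.Ico (d + 1) ((n + 1) * d + 1)) (fun X => ind (Blk p q s X) *
        (ind (Chain p q s n (sh d X)) * h (sh d X (n * d)))) =
        fun X => ind (Blk p q s X) * (cst p q s ^ n * Qn p q s n h (X d)) := by
      funext Y
      rw [LM_mul_left (f := fun X => ind (Blk p q s X)) ?_ hm1, ← image_Ico',
        LM_shift (f := fun X => ind (Chain p q s n X) * h (X (n * d))) hg, ih (sh d Y)]
      · congr 3
        show Y (0 + d) = Y d
        rw [Nat.zero_add]
      · refine (dep_blk p q s).mono fun i hi => ?_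
        have : i < p + q + s + 2 := hi
        simp only [Set.mem_ofPred_eq, Finset.mem_Ico]
        omega
    rw [inner, show Finset.Ico 1 (d + 1) = Finset.Ico 1 (p + q + s + 2) by rfl,
      one_block hE (h := fun y => cst p q s ^ n * Qn p q s n h y)
        ((measurable_Qn hh n).const_mul _), Q_const_mul (measurable_Qn hh n), Qn_succ]
    ring

/-- an event at the distinguished element `i` -/
lemma blocks_at (hE : StmE) {h : I → ℝ≥0∞} (hh : Measurable h) {i n : ℕ} (hi : i ≤ n)
    (X : ℕ → I) :
    LM (Finset.Ico 1 (n * (p + q + s + 1) + 1))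
      (fun X => ind (Chain p q s n X) * h (X (i * (p + q + s + 1)))) X =
      cst p q s ^ n * Qn p q s i (fun y => h y * Qn p q s (n - i) (fun _ => 1) y) (X 0) := by
  obtain ⟨k, rfl⟩ : ∃ k, n = i + k := ⟨n - i, by omega⟩
  rw [Nat.add_sub_cancel_left]
  set d := p + q + s + 1 with hdd
  have hid : 0 ≤ i * d := Nat.zero_le _
  have hkd : 0 ≤ k * d := Nat.zero_le _
  have hsum : (i + k) * d = i * d + k * d := by ring
  have hu : Finset.Ico 1 ((i + k) * d + 1) =
      Finset.Ico 1 (i * d + 1) ∪ Finset.Ico (i * d + 1) (i * d + k * d + 1) := by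
    ext x; simp only [Finset.mem_union, Finset.mem_Ico, hsum]; omega
  have hd : Disjoint (Finset.Ico 1 (i * d + 1)) (Finset.Ico (i * d + 1) (i * d + k * d + 1)) := by
    rw [Finset.disjoint_left]; intro x; simp only [Finset.mem_Ico]; omega
  have hg : Measurable (fun X : ℕ → I => ind (Chain p q s k X) * (fun _ => (1 : ℝ≥0∞)) (X (k * d))) :=
    (measurable_ind (measurableSet_chain k)).mul measurable_const
  have hci : Measurable (fun X : ℕ → I => ind (Chain p q s i X) * h (X (i * d))) :=
    (measurable_ind (measurableSet_chain i)).mul (hh.comp (measurable_pi_apply _))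
  have hm1 : Measurable (fun X : ℕ → I => ind (Chain p q s k (sh (i * d) X)) *
      (fun _ => (1 : ℝ≥0∞)) (sh (i * d) X (k * d))) := hg.comp (measurable_sh _)
  have e1 : (fun X : ℕ → I => ind (Chain p q s (i + k) X) * h (X (i * d))) =
      fun X => (ind (Chain p q s i X) * h (X (i * d))) * (ind (Chain p q s k (sh (i * d) X)) *
        (fun _ => (1 : ℝ≥0∞)) (sh (i * d) X (k * d))) := by
    funext Z
    rw [ind_congr (chain_split i k Z), ind_and]
    ring
  rw [e1, hu, LM_union (f := fun X => (ind (Chain p q s i X) * h (X (i * d))) *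
    (ind (Chain p q s k (sh (i * d) X)) * (fun _ => (1 : ℝ≥0∞)) (sh (i * d) X (k * d))))
    (hci.mul hm1) hd]
  have inner : LM (Finset.Ico (i * d + 1) (i * d + k * d + 1))
      (fun X => (ind (Chain p q s i X) * h (X (i * d))) *
      (ind (Chain p q s k (sh (i * d) X)) * (fun _ => (1 : ℝ≥0∞)) (sh (i * d) X (k * d)))) =
      fun X => ind (Chain p q s i X) *
        (fun y => h y * (cst p q s ^ k * Qn p q s k (fun _ => 1) y)) (X (i * d)) := by
    funext Y
    have himg : Finset.Ico (i * d + 1) (i * d + k * d + 1) =
        (Finset.Ico 1 (k * d + 1)).image (· + i * d) := by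
      rw [image_add_Ico]; congr 1 <;> ring
    rw [LM_mul_left (f := fun X => ind (Chain p q s i X) * h (X (i * d))) ?_ hm1, himg,
      LM_shift (f := fun X => ind (Chain p q s k X) * (fun _ => (1 : ℝ≥0∞)) (X (k * d))) hg,
      blocks hE measurable_const k (sh (i * d) Y)]
    · have : sh (i * d) Y 0 = Y (i * d) := by
        show Y (0 + i * d) = _
        rw [Nat.zero_add]
      rw [this]
      simp only []
      ring
    · refine Dep.mul ((dep_chain i).mono fun j hj => ?_) ?_
      · have : j < i * d + 1 := hj
        simp only [Set.mem_ofPred_eq, Finset.mem_Ico]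
        omega
      · intro Z Z' hZ
        show h (Z (i * d)) = h (Z' (i * d))
        rw [hZ (i * d) (by simp)]
  have hmq : Measurable (fun y => h y * (cst p q s ^ k * Qn p q s k (fun _ => 1) y)) :=
    hh.mul ((measurable_Qn measurable_const k).const_mul _)
  rw [inner, blocks hE hmq i X]
  have e2 : (fun y => h y * (cst p q s ^ k * Qn p q s k (fun _ => 1) y)) =
      fun y => cst p q s ^ k * (h y * Qn p q s k (fun _ => 1) y) := by funext y; ring
  rw [e2, Qn_const_mul (h := fun y => h y * Qn p q s k (fun _ => 1) y)
    (hh.mul (measurable_Qn measurable_const k)), pow_add]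
  ring

/-- integration over all positions -/
lemma blocks_range (hE : StmE) {h : I → ℝ≥0∞} (hh : Measurable h) {i n : ℕ} (hi : i ≤ n)
    (X : ℕ → I) :
    LM (Finset.range (n * (p + q + s + 1) + 1))
      (fun X => ind (Chain p q s n X) * h (X (i * (p + q + s + 1)))) X =
      cst p q s ^ n *
        ∫⁻ x : I, Qn p q s i (fun y => h y * Qn p q s (n - i) (fun _ => 1) y) x := by
  set d := p + q + s + 1 with hdd
  have hu : Finset.range (n * d + 1) = {0} ∪ Finset.Ico 1 (n * d + 1) := by
    ext x; simp only [Finset.mem_union, Finset.mem_range, Finset.mem_Ico, Finset.mem_singleton]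
    omega
  have hd : Disjoint ({0} : Finset ℕ) (Finset.Ico 1 (n * d + 1)) := by simp
  have hci : Measurable (fun X : ℕ → I => ind (Chain p q s n X) * h (X (i * d))) :=
    (measurable_ind (measurableSet_chain n)).mul (hh.comp (measurable_pi_apply _))
  rw [hu, LM_union (f := fun X => ind (Chain p q s n X) * h (X (i * d))) hci hd]
  have inner : LM (Finset.Ico 1 (n * d + 1)) (fun X => ind (Chain p q s n X) * h (X (i * d))) =
      fun X => cst p q s ^ n * Qn p q s i (fun y => h y * Qn p q s (n - i) (fun _ => 1) y) (X 0) := by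
    funext Y; exact blocks_at hE hh hi Y
  rw [inner]
  unfold LM
  rw [lmarginal_singleton, ← lintegral_const_mul]
  · simp only [update_self]
  · exact measurable_Qn (h := fun y => h y * Qn p q s (n - i) (fun _ => 1) y)
      (hh.mul (measurable_Qn measurable_const _)) i

end

end R556.CLU
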