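import Pool.Agent.R556.CLU.Defs

/-! MP_2d2444_co (project CLU), job CLU-C: Chernoff bound for binomial probabilities. -/

namespace R556.CLU

theorem stmChern : StmChern := by
  intro M j u hM hj hu0 hu1
  have hM' : (0 : ℝ) < M := by exact_mod_cast hM
  have hj' : (j : ℝ) ≤ M := by exact_mod_cast hj
  obtain ⟨t, ht⟩ : ∃ t : ℝ, t = j / M := ⟨_, rfl⟩
  rw [← ht]
  have htM : (j : ℝ) = M * t := by
    rw [ht]
    field_simp
  have ht0 : 0 ≤ t := by rw [ht]; positivity
  have ht1 : t ≤ 1 := by rw [ht, div_le_one hM']; exact hj'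
  obtain ⟨l, hl⟩ : ∃ l : ℝ, l = (t - u) / 2 := ⟨_, rfl⟩
  have hlabs : |l| ≤ 1 := by
    rw [hl, abs_le]
    constructor <;> linarith
  have h1 : Real.exp l ≤ 1 + l + l ^ 2 := by
    have h := (abs_le.1 (Real.abs_exp_sub_one_sub_id_le hlabs)).2
    linarith
  have h2 : (M.choose j : ℝ) * u ^ j * (1 - u) ^ (M - j) * Real.exp (l * j) ≤
      (u * Real.exp l + (1 - u)) ^ M := by
    rw [add_pow]
    have h3 : (M.choose j : ℝ) * u ^ j * (1 - u) ^ (M - j) * Real.exp (l * j) =
        (u * Real.exp l) ^ j * (1 - u) ^ (M - j) * (M.choose j : ℝ) := by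
      rw [mul_pow, ← Real.exp_nat_mul, mul_comm l (j : ℝ)]
      ring
    rw [h3]
    refine Finset.single_le_sum (f := fun m => (u * Real.exp l) ^ m * (1 - u) ^ (M - m) *
      (M.choose m : ℝ)) (fun m _ => ?_) (Finset.mem_range.2 (by omega))
    have h4 : 0 ≤ 1 - u := by linarith
    have h5 := Real.exp_pos l
    positivity
  have h3 : u * Real.exp l + (1 - u) ≤ Real.exp (u * l + l ^ 2) := by
    have h4 := Real.add_one_le_exp (u * l + l ^ 2)
    have h5 : u * Real.exp l ≤ u * (1 + l + l ^ 2) := mul_le_mul_of_nonneg_left h1 hu0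
    nlinarith [sq_nonneg l]
  have h4 : (u * Real.exp l + (1 - u)) ^ M ≤ Real.exp (M * (u * l + l ^ 2)) := by
    rw [Real.exp_nat_mul]
    refine pow_le_pow_left₀ ?_ h3 M
    have h5 := Real.exp_pos l
    have h6 : 0 ≤ 1 - u := by linarith
    positivity
  have h5 : (M.choose j : ℝ) * u ^ j * (1 - u) ^ (M - j) * Real.exp (l * j) ≤
      Real.exp (-(M * (u - t) ^ 2 / 4)) * Real.exp (l * j) := by
    refine (h2.trans h4).trans (le_of_eq ?_)
    rw [← Real.exp_add, htM, hl]
    congr 1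
    ring
  exact le_of_mul_le_mul_right h5 (Real.exp_pos _)

end R556.CLU
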