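import Pool.Agent.R556.CLU.Blocks

/-! MP_2d2444_co: from the transfer operators to order patterns. -/

open MeasureTheory Set Function
open scoped ENNReal unitInterval Topology

namespace R556.CLU

noncomputable section

open Classical R556.CP

variable {p q s : ℕ}

lemma Qn_mono {h h' : I → ℝ≥0∞} (hh : ∀ y, h y ≤ h' y) (k : ℕ) (x : I) :
    Qn p q s k h x ≤ Qn p q s k h' x := by
  induction k generalizing x with
  | zero => exact hh x
  | succ k ih =>
    rw [Qn_succ, Qn_succ]
    exact lintegral_mono fun y => mul_le_mul_right (ih y) _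

lemma LM_range_eq (N : ℕ) {f : (Fin N → I) → ℝ≥0∞} (hf : Measurable f) (X0 : ℕ → I) :
    LM (Finset.range N) (fun X => f (fun i => X i)) X0 = ∫⁻ Y : Fin N → I, f Y := by
  have hr : Finset.range N = (Finset.univ : Finset (Fin N)).image Fin.val := by
    ext x
    simp only [Finset.mem_range, Finset.mem_image, Finset.mem_univ, true_and]
    exact ⟨fun h => ⟨⟨x, h⟩, rfl⟩, fun ⟨y, hy⟩ => hy ▸ y.2⟩
  rw [hr]
  refine (lmarginal_image (μ := fun _ : ℕ => (volume : Measure I)) (e := fun i : Fin N => (i : ℕ))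
    Fin.val_injective Finset.univ hf X0).trans ?_
  rw [lmarginal_univ]
  rfl

/-- the relation respects the first `n` clusters -/
def RelResp (p q s n N : ℕ) (R : Fin N → Fin N → Prop) : Prop :=
  ∀ i < n, ∀ j < p + q + s + 1, ∀ u v : Fin N, (u : ℕ) = cpos p q s j + i * (p + q + s + 1) →
    (v : ℕ) = cpos p q s (j + 1) + i * (p + q + s + 1) → R u v

lemma relResp_iff (n : ℕ) (X : ℕ → I) :
    RelResp p q s n (n * (p + q + s + 1) + 1) (fun u v => X u < X v) ↔ Chain p q s n X := by
  constructor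
  · intro h i hi j hj
    have hi' : (i + 1) * (p + q + s + 1) ≤ n * (p + q + s + 1) := Nat.mul_le_mul_right _ hi
    have e : (i + 1) * (p + q + s + 1) = i * (p + q + s + 1) + (p + q + s + 1) := by ring
    have h1 := cpos_le p q s j (by omega)
    have h2 := cpos_le p q s (j + 1) (by omega)
    exact h i hi j hj ⟨cpos p q s j + i * (p + q + s + 1), by omega⟩
      ⟨cpos p q s (j + 1) + i * (p + q + s + 1), by omega⟩ rfl rfl
  · intro h i hi j hj u v hu hv
    show X u < X v
    rw [hu, hv]
    exact h i hi j hj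

/-- volume of the respecting label vectors with the `i`-th distinguished label in `T` -/
lemma vol_at (hE : StmE) {n i : ℕ} (hi : i ≤ n) {T : Set I} (hT : MeasurableSet T)
    (u : Fin (n * (p + q + s + 1) + 1)) (hu : (u : ℕ) = i * (p + q + s + 1)) :
    (volume : Measure (Fin (n * (p + q + s + 1) + 1) → I))
      ({X | RelResp p q s n _ (fun u v => X u < X v)} ∩ {X | X u ∈ T}) =
      cst p q s ^ n * ∫⁻ x : I, Qn p q s i (fun y => (if y ∈ T then
        Qn p q s (n - i) (fun _ => 1) y else 0)) x := by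
  have hTm : Measurable (fun y : I => ind (y ∈ T)) := by
    have : (fun y : I => ind (y ∈ T)) = T.indicator 1 := by
      funext y
      by_cases h : y ∈ T <;> simp [ind, h]
    rw [this]
    exact measurable_one.indicator hT
  have hmX : MeasurableSet {X : Fin (n * (p + q + s + 1) + 1) → I |
      RelResp p q s n _ (fun u v => X u < X v)} := measurableSet_rel _ _
  have hmT : MeasurableSet {X : Fin (n * (p + q + s + 1) + 1) → I | X u ∈ T} :=
    measurable_pi_apply u hT
  have e0 := blocks_range hE hTm hi (fun _ => 0) (p := p) (q := q) (s := s)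
  have e1 : (fun y : I => ind (y ∈ T) * Qn p q s (n - i) (fun _ => 1) y) =
      fun y => (if y ∈ T then Qn p q s (n - i) (fun _ => 1) y else 0) := by
    funext y
    by_cases h : y ∈ T <;> simp [ind, h]
  rw [e1] at e0
  rw [← e0, ← lintegral_indicator_one (hmX.inter hmT)]
  have hf : Measurable (fun Y : Fin (n * (p + q + s + 1) + 1) → I =>
      ({X | RelResp p q s n _ (fun u v => X u < X v)} ∩ {X | X u ∈ T}).indicator
        (1 : (Fin (n * (p + q + s + 1) + 1) → I) → ℝ≥0∞) Y) :=
    measurable_one.indicator (hmX.inter hmT)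
  rw [← LM_range_eq _ hf (fun _ => 0)]
  congr 1
  funext X
  have h1 : (fun i : Fin (n * (p + q + s + 1) + 1) => X i) ∈
      ({X : Fin (n * (p + q + s + 1) + 1) → I | RelResp p q s n _ (fun u v => X u < X v)} ∩
        {X | X u ∈ T}) ↔ Chain p q s n X ∧ X (i * (p + q + s + 1)) ∈ T := by
    rw [← relResp_iff, ← hu]
    rfl
  rw [← ind_and]
  by_cases h : Chain p q s n X ∧ X (i * (p + q + s + 1)) ∈ T
  · rw [ind_true h, Set.indicator_of_mem (h1.2 h), Pi.one_apply]
  · rw [ind_false h, Set.indicator_of_notMem (fun hh => h (h1.1 hh))]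

lemma vol_resp (hE : StmE) (n : ℕ) :
    (volume : Measure (Fin (n * (p + q + s + 1) + 1) → I))
      {X | RelResp p q s n _ (fun u v => X u < X v)} =
      cst p q s ^ n * ∫⁻ x : I, Qn p q s n (fun _ => 1) x := by
  have h := vol_at hE (p := p) (q := q) (s := s) (le_refl n) MeasurableSet.univ
    ⟨n * (p + q + s + 1), by omega⟩ rfl
  simp only [Set.mem_univ, Set.ofPred_true, Set.inter_univ, if_true, Nat.sub_self] at h
  rw [h]
  rfl

/-- grid points -/
def tt (K k : ℕ) : I := Set.projIcc 0 1 zero_le_one ((k : ℝ) / K)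

/-- the empirical distribution is not close to uniform at the grid points -/
def GCbad (K : ℕ) (ε : ℝ) (N : ℕ) : Set (Fin N → I) :=
  ⋃ k ∈ Finset.range (K + 2), {X : Fin N → I | ε * N <
    |((Finset.univ.filter (fun j => X j < tt K k)).card : ℝ) - N * tt K k|}

lemma gc_bound {N K : ℕ} (hK : 0 < K) {ε : ℝ} {X : Fin N → I} (h : X ∉ GCbad K ε N) (x : I) :
    |((Finset.univ.filter (fun j => X j < x)).card : ℝ) - N * x| ≤ (ε + 1 / K) * N := by
  have hg : ∀ k < K + 2, |((Finset.univ.filter (fun j => X j < tt K k)).card : ℝ) - N * tt K k| ≤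
      ε * N := by
    intro k hk
    by_contra hc
    exact h (by
      unfold GCbad
      simp only [Set.mem_iUnion, Finset.mem_range, exists_prop]
      exact ⟨k, hk, not_le.1 hc⟩)
  have hK' : (0 : ℝ) < K := Nat.cast_pos.2 hK
  have hx0 := x.2.1
  have hx1 := x.2.2
  have hN : (0 : ℝ) ≤ N := Nat.cast_nonneg _
  set k := ⌊(K : ℝ) * x⌋₊ with hk
  have hk1 : (k : ℝ) ≤ K * x := Nat.floor_le (by positivity)
  have hk2 : (K : ℝ) * x < k + 1 := Nat.lt_floor_add_one _
  have hkK : k ≤ K := by
    have : (k : ℝ) ≤ K := hk1.trans (by nlinarith)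
    exact_mod_cast this
  have hc : ∀ k : ℕ, ((tt K k : I) : ℝ) = max 0 (min 1 ((k : ℝ) / K)) := fun k => Set.coe_projIcc _ _ _ _
  have ht1 : (tt K k : I) ≤ x := by
    rw [← Subtype.coe_le_coe, hc]
    refine max_le hx0 ((min_le_right _ _).trans ?_)
    rw [div_le_iff₀ hK']; linarith
  have ht2 : x ≤ tt K (k + 1) := by
    rw [← Subtype.coe_le_coe, hc]
    refine le_max_of_le_right (le_min hx1 ?_)
    rw [le_div_iff₀ hK']; push_cast; linarith
  have ht3 : (x : ℝ) - 1 / K ≤ tt K k := by
    rw [hc]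
    refine le_max_of_le_right (le_min ?_ ?_)
    · have : (0 : ℝ) < 1 / K := by positivity
      linarith
    · rw [le_div_iff₀ hK', sub_mul, div_mul_cancel₀ _ hK'.ne']; linarith
  have ht4 : ((tt K (k + 1) : I) : ℝ) ≤ x + 1 / K := by
    rw [hc]
    refine max_le (by positivity) ((min_le_right _ _).trans ?_)
    rw [div_le_iff₀ hK', add_mul, div_mul_cancel₀ _ hK'.ne']; push_cast; linarith
  have c1 : ((Finset.univ.filter (fun j => X j < tt K k)).card : ℝ) ≤
      (Finset.univ.filter (fun j => X j < x)).card := by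
    exact_mod_cast Finset.card_le_card (Finset.monotone_filter_right _
      (fun j _ hj => lt_of_lt_of_le hj ht1))
  have c2 : ((Finset.univ.filter (fun j => X j < x)).card : ℝ) ≤
      (Finset.univ.filter (fun j => X j < tt K (k + 1))).card := by
    exact_mod_cast Finset.card_le_card (Finset.monotone_filter_right _
      (fun j _ hj => lt_of_lt_of_le hj ht2))
  have g1 := abs_le.1 (hg k (by omega))
  have g2 := abs_le.1 (hg (k + 1) (by omega))
  have m1 : (N : ℝ) * (x - 1 / K) ≤ N * tt K k := mul_le_mul_of_nonneg_left ht3 hN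
  have m2 : (N : ℝ) * tt K (k + 1) ≤ N * (x + 1 / K) := mul_le_mul_of_nonneg_left ht4 hN
  rw [abs_le]
  constructor
  · nlinarith [g1.1]
  · nlinarith [g2.2]

lemma gcbad_measurable (hT : StmT) (K : ℕ) {ε : ℝ} (hε : 0 < ε) (N : ℕ) :
    MeasurableSet (GCbad K ε N) :=
  Finset.measurableSet_biUnion _ fun k _ => (hT (tt K k) ε hε).1 N

lemma gcbad_symm (K : ℕ) (ε : ℝ) (N : ℕ) (e : Equiv.Perm (Fin N)) (X : Fin N → I) :
    (fun i => X (e i)) ∈ GCbad K ε N ↔ X ∈ GCbad K ε N := by
  have hc : ∀ t : I, (Finset.univ.filter (fun j => X (e j) < t)).card =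
      (Finset.univ.filter (fun j => X j < t)).card := by
    intro t
    refine Finset.card_equiv e fun j => ?_
    simp
  unfold GCbad
  simp only [Set.mem_iUnion, Set.mem_ofPred_eq, hc]

lemma gcbad_tendsto (hT : StmT) (K : ℕ) {ε : ℝ} (hε : 0 < ε) :
    Filter.Tendsto (fun N : ℕ => (volume : Measure (Fin N → I)) (GCbad K ε N)) Filter.atTop
      (𝓝 0) := by
  have h1 : Filter.Tendsto (fun N : ℕ => ∑ k ∈ Finset.range (K + 2),
      (volume : Measure (Fin N → I)) {X : Fin N → I | ε * N <
        |((Finset.univ.filter (fun j => X j < tt K k)).card : ℝ) - N * tt K k|}) Filter.atTop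
      (𝓝 0) := by
    have := tendsto_finsetSum (Finset.range (K + 2)) (fun k _ => (hT (tt K k) ε hε).2)
    simpa using this
  refine tendsto_of_tendsto_of_tendsto_of_le_of_le tendsto_const_nhds h1 (fun _ => zero_le)
    (fun N => measure_biUnion_finset_le _ _)

/-- the relation respects the clusters and some distinguished element has a bad height -/
def RelBad (p q s n N : ℕ) (ε : ℝ) (F : ℕ → ℝ) (R : Fin N → Fin N → Prop) : Prop :=
  RelResp p q s n N R ∧ ∃ i ≤ n, ∃ u : Fin N, (u : ℕ) = i * (p + q + s + 1) ∧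
    ε * N < |((Finset.univ.filter (fun j => R j u)).card : ℝ) - N * F i|

lemma tendsto_err (C c : ℝ) (hc : 0 < c) :
    Filter.Tendsto (fun n : ℕ => ((n : ℝ≥0∞) + 1) * ENNReal.ofReal (C * Real.exp (-(c * n))))
      Filter.atTop (𝓝 0) := by
  have hr0 : 0 ≤ Real.exp (-c) := (Real.exp_pos _).le
  have hr1 : Real.exp (-c) < 1 := by rw [Real.exp_lt_one_iff]; linarith
  have e1 : ∀ n : ℕ, Real.exp (-(c * n)) = Real.exp (-c) ^ n := by
    intro n; rw [← Real.exp_nat_mul]; ring_nf
  have h1 := tendsto_self_mul_const_pow_of_lt_one hr0 hr1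
  have h2 := tendsto_pow_atTop_nhds_zero_of_lt_one hr0 hr1
  have h3 : Filter.Tendsto (fun n : ℕ => ((n : ℝ) + 1) * (C * Real.exp (-(c * n)))) Filter.atTop
      (𝓝 0) := by
    have := ((h1.add h2).const_mul C)
    rw [add_zero, mul_zero] at this
    refine this.congr fun n => ?_
    rw [e1]; ring
  have h4 := (ENNReal.continuous_ofReal.tendsto 0).comp h3
  rw [ENNReal.ofReal_zero] at h4
  refine h4.congr fun n => ?_
  rw [Function.comp_apply, ENNReal.ofReal_mul (by positivity),
    ENNReal.ofReal_add (by positivity) (by norm_num), ENNReal.ofReal_natCast, ENNReal.ofReal_one]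

theorem core (hE : StmE) (hS : StmS) (hT : StmT) (hM : StmM) (p q s : ℕ) (ε : ℝ) (hε : 0 < ε)
    (F : ℕ → ℕ → ℝ)
    (hF : ∀ η : ℝ, 0 < η → ∃ δ : ℝ, 0 < δ ∧ ∃ n0 : ℕ, ∀ n ≥ n0, ∀ i ≤ n, ∀ y : I,
      η < |(y : ℝ) - F n i| → δ ≤ |G p q s y / G p q s 1 - (i : ℝ) / n|) :
    ∃ r : ℕ → ℝ≥0∞, Filter.Tendsto r Filter.atTop (𝓝 0) ∧ ∃ n0 : ℕ, ∀ n ≥ n0,
      (volume : Measure (Fin (n * (p + q + s + 1) + 1) → I))
        {X | RelBad p q s n _ ε (F n) (fun u v => X u < X v)} ≤
      (volume : Measure (Fin (n * (p + q + s + 1) + 1) → I))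
        {X | RelResp p q s n _ (fun u v => X u < X v)} * r n := by
  obtain ⟨δ, hδ, n0, hn0⟩ := hF (ε / 2) (by positivity)
  obtain ⟨C, c, hc, hCc⟩ := hM p q s δ hδ
  obtain ⟨K, hK⟩ := exists_nat_gt (4 / ε)
  have hK0 : 0 < K := by
    have : (0 : ℝ) < K := lt_trans (by positivity) hK
    exact_mod_cast this
  have hK1 : 1 / (K : ℝ) ≤ ε / 4 := by
    have hKr : (0 : ℝ) < K := Nat.cast_pos.2 hK0
    rw [div_le_iff₀ hKr]
    rw [div_lt_iff₀ hε] at hK
    linarith
  have hε4 : 0 < ε / 4 := by positivity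
  refine ⟨fun n => (volume : Measure (Fin (n * (p + q + s + 1) + 1) → I))
    (GCbad K (ε / 4) (n * (p + q + s + 1) + 1)) +
      ((n : ℝ≥0∞) + 1) * ENNReal.ofReal (C * Real.exp (-(c * n))), ?_, max n0 1, ?_⟩
  · have h1 : Filter.Tendsto (fun n : ℕ => n * (p + q + s + 1) + 1) Filter.atTop Filter.atTop := by
      refine Filter.tendsto_atTop_mono (fun n => ?_) Filter.tendsto_id
      have : n * 1 ≤ n * (p + q + s + 1) := Nat.mul_le_mul_left _ (by omega)
      show n ≤ _
      omega
    have h2 := (gcbad_tendsto hT K hε4).comp h1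
    have := h2.add (tendsto_err C c hc)
    rw [add_zero] at this
    exact this
  · intro n hn
    have hn1 : 1 ≤ n := le_trans (le_max_right _ _) hn
    have hn2 := hn0 n (le_trans (le_max_left _ _) hn)
    set N := n * (p + q + s + 1) + 1 with hN
    have hid : ∀ i ≤ n, i * (p + q + s + 1) < N := fun i hi => by
      have : i * (p + q + s + 1) ≤ n * (p + q + s + 1) := Nat.mul_le_mul_right _ hi
      omega
    set A : Set (Fin N → I) := {X | RelResp p q s n _ (fun u v => X u < X v)} with hA
    set T : ℕ → Set I := fun i => {y : I | ε / 2 < |(y : ℝ) - F n i|} with hTdef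
    have hTm : ∀ i, MeasurableSet (T i) := fun i =>
      measurableSet_lt measurable_const (by fun_prop)
    have hsub : {X : Fin N → I | RelBad p q s n _ ε (F n) (fun u v => X u < X v)} ⊆
        (A ∩ GCbad K (ε / 4) N) ∪ ⋃ i ∈ Finset.range (n + 1),
          (A ∩ {X | ∀ u : Fin N, (u : ℕ) = i * (p + q + s + 1) → X u ∈ T i}) := by
      rintro X ⟨hX, i, hi, u, hu, hbad⟩
      by_cases hgc : X ∈ GCbad K (ε / 4) N
      · exact Or.inl ⟨hX, hgc⟩
      · right
        simp only [Set.mem_iUnion, Finset.mem_range, exists_prop]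
        refine ⟨i, by omega, hX, fun v hv => ?_⟩
        obtain rfl : v = u := Fin.ext (hv.trans hu.symm)
        show ε / 2 < |((X v : I) : ℝ) - F n i|
        by_contra hcon
        rw [not_lt] at hcon
        have hb := gc_bound hK0 hgc (X v)
        have hNr : (0 : ℝ) ≤ N := Nat.cast_nonneg _
        have h1 : |((Finset.univ.filter (fun j => X j < X v)).card : ℝ) - N * F n i| ≤
            |((Finset.univ.filter (fun j => X j < X v)).card : ℝ) - N * X v| +
              |(N : ℝ) * X v - N * F n i| := abs_sub_le _ _ _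
        have h2 : |(N : ℝ) * X v - N * F n i| ≤ N * (ε / 2) := by
          rw [← mul_sub, abs_mul, abs_of_nonneg hNr]
          exact mul_le_mul_of_nonneg_left hcon hNr
        have h3 : (ε / 4 + 1 / K) * N ≤ (ε / 4 + ε / 4) * N :=
          mul_le_mul_of_nonneg_right (by linarith) hNr
        have : |((Finset.univ.filter (fun j => X j < X v)).card : ℝ) - N * F n i| ≤ ε * N := by
          calc _ ≤ _ := h1
            _ ≤ (ε / 4 + ε / 4) * N + N * (ε / 2) := add_le_add (hb.trans h3) h2
            _ = ε * N := by ring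
        exact absurd hbad (not_lt.2 this)
    refine (measure_mono hsub).trans ((measure_union_le _ _).trans ?_)
    rw [mul_add]
    refine add_le_add (le_of_eq ?_) ?_
    · exact hS N (fun R => RelResp p q s n N R) _ (gcbad_measurable hT K hε4 N)
        (fun e X => gcbad_symm K (ε / 4) N e X)
    · refine (measure_biUnion_finset_le _ _).trans ?_
      have hone : ∀ i ∈ Finset.range (n + 1), (volume : Measure (Fin N → I))
          (A ∩ {X | ∀ u : Fin N, (u : ℕ) = i * (p + q + s + 1) → X u ∈ T i}) ≤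
          (volume : Measure (Fin N → I)) A * ENNReal.ofReal (C * Real.exp (-(c * n))) := by
        intro i hi
        have hi' : i ≤ n := by have := Finset.mem_range.1 hi; omega
        have hle : (A ∩ {X : Fin N → I | ∀ u : Fin N, (u : ℕ) = i * (p + q + s + 1) → X u ∈ T i}) ⊆
            A ∩ {X : Fin N → I | X ⟨i * (p + q + s + 1), hid i hi'⟩ ∈ T i} :=
          fun X hX => ⟨hX.1, hX.2 _ rfl⟩
        refine (measure_mono hle).trans ?_
        rw [vol_at hE hi' (hTm i) _ rfl, hA, vol_resp hE, mul_assoc]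
        refine mul_le_mul_right ?_ _
        rw [mul_comm (∫⁻ x : I, Qn p q s n (fun _ => 1) x)]
        refine le_trans (lintegral_mono fun x => Qn_mono (fun y => ?_) i x) (hCc n i hn1 hi')
        show (if y ∈ T i then _ else _) ≤ _
        by_cases hy : y ∈ T i
        · rw [if_pos hy, if_pos (hn2 i hi' y hy)]
        · rw [if_neg hy]; exact zero_le
      refine (Finset.sum_le_sum hone).trans ?_
      rw [Finset.sum_const, Finset.card_range, nsmul_eq_mul]
      push_cast
      rw [mul_left_comm]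

end

end R556.CLU
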