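import Pool.Agent.R556.CLU.Core

/-! MP_2d2444_co: numbers of permutations. -/

open MeasureTheory Set Function
open scoped ENNReal unitInterval Topology

namespace R556.CLU

noncomputable section

open Classical R556.CP

variable {p q s : ℕ}

lemma Qn_pos (k : ℕ) (x : I) (hx0 : 0 < (x : ℝ)) (hx1 : (x : ℝ) < 1) :
    0 < Qn p q s k (fun _ => 1) x := by
  induction k generalizing x with
  | zero => exact one_pos
  | succ k ih =>
    rw [Qn_succ]
    unfold Q
    have hm : Measurable (fun y : I => ker p q s x y * Qn p q s k (fun _ => 1) y) :=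
      (measurable_ker.comp measurable_prodMk_left).mul (measurable_Qn measurable_const k)
    rw [lintegral_pos_iff_support hm]
    have hsub : Set.Ioo x 1 ⊆ Function.support
        (fun y : I => ker p q s x y * Qn p q s k (fun _ => 1) y) := by
      intro y hy
      have hy1 : (x : ℝ) < y := hy.1
      have hy2 : (y : ℝ) < 1 := hy.2
      refine mul_ne_zero ?_ (ih y (hx0.trans hy1) hy2).ne'
      unfold ker
      rw [if_pos hy.1]
      have h1 : (0 : ℝ) < x ^ p := pow_pos hx0 _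
      have h2 : (0 : ℝ) < (y - x : ℝ) ^ q := pow_pos (by linarith) _
      have h3 : (0 : ℝ) < (1 - y : ℝ) ^ s := pow_pos (by linarith) _
      exact (ENNReal.ofReal_pos.2 (by positivity)).ne'
    refine lt_of_lt_of_le ?_ (measure_mono hsub)
    rw [unitInterval.volume_Ioo]
    refine ENNReal.ofReal_pos.2 ?_
    show (0 : ℝ) < (1 : I) - x
    simp only [Set.Icc.coe_one]
    linarith

lemma int_Qn_pos (k : ℕ) : 0 < ∫⁻ x : I, Qn p q s k (fun _ => 1) x := by
  rw [lintegral_pos_iff_support (measurable_Qn measurable_const k)]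
  have hsub : Set.Ioo (0 : I) 1 ⊆ Function.support (fun x : I => Qn p q s k (fun _ => 1) x) :=
    fun x hx => (Qn_pos k x hx.1 hx.2).ne'
  refine lt_of_lt_of_le ?_ (measure_mono hsub)
  rw [unitInterval.volume_Ioo]
  refine ENNReal.ofReal_pos.2 ?_
  simp

/-- number of respecting permutations -/
def nResp (p q s n : ℕ) : ℕ :=
  (Finset.univ.filter (fun w : Equiv.Perm (Fin (n * (p + q + s + 1) + 1)) =>
    RelResp p q s n _ (fun u v => w u < w v))).card

/-- number of bad permutations -/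
def nBad (p q s n : ℕ) (ε : ℝ) (F : ℕ → ℝ) : ℕ :=
  (Finset.univ.filter (fun w : Equiv.Perm (Fin (n * (p + q + s + 1) + 1)) =>
    RelBad p q s n _ ε F (fun u v => w u < w v))).card

lemma vol_resp_count (n : ℕ) : (volume : Measure (Fin (n * (p + q + s + 1) + 1) → I))
    {X | RelResp p q s n _ (fun u v => X u < X v)} =
    (nResp p q s n : ℝ≥0∞) / ((n * (p + q + s + 1) + 1).factorial : ℝ≥0∞) := by
  rw [stmtC _ (fun R => RelResp p q s n _ R)]
  rfl

lemma vol_bad_count (n : ℕ) (ε : ℝ) (F : ℕ → ℝ) :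
    (volume : Measure (Fin (n * (p + q + s + 1) + 1) → I))
    {X | RelBad p q s n _ ε F (fun u v => X u < X v)} =
    (nBad p q s n ε F : ℝ≥0∞) / ((n * (p + q + s + 1) + 1).factorial : ℝ≥0∞) := by
  rw [stmtC _ (fun R => RelBad p q s n _ ε F R)]
  rfl

lemma nResp_pos (hE : StmE) (n : ℕ) : 0 < nResp p q s n := by
  by_contra hc
  have h0 : nResp p q s n = 0 := by omega
  have h := vol_resp_count (p := p) (q := q) (s := s) n
  rw [vol_resp hE, h0, Nat.cast_zero, ENNReal.zero_div] at h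
  have h1 : cst p q s ^ n ≠ 0 := by
    refine pow_ne_zero _ ?_
    unfold cst
    refine (ENNReal.ofReal_pos.2 ?_).ne'
    have : (0 : ℝ) < p.factorial * q.factorial * s.factorial := by
      have h1 : (0 : ℝ) < p.factorial := by exact_mod_cast p.factorial_pos
      have h2 : (0 : ℝ) < q.factorial := by exact_mod_cast q.factorial_pos
      have h3 : (0 : ℝ) < s.factorial := by exact_mod_cast s.factorial_pos
      positivity
    positivity
  exact (mul_ne_zero h1 (int_Qn_pos n).ne') h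

lemma nBad_le (n : ℕ) (ε : ℝ) (F : ℕ → ℝ) : nBad p q s n ε F ≤ nResp p q s n := by
  unfold nBad nResp
  exact Finset.card_le_card (Finset.monotone_filter_right _ (fun w _ hw => hw.1))

theorem count_tendsto (hE : StmE) (hS : StmS) (hT : StmT) (hM : StmM) (p q s : ℕ) (ε : ℝ)
    (hε : 0 < ε) (F : ℕ → ℕ → ℝ)
    (hF : ∀ η : ℝ, 0 < η → ∃ δ : ℝ, 0 < δ ∧ ∃ n0 : ℕ, ∀ n ≥ n0, ∀ i ≤ n, ∀ y : I,
      η < |(y : ℝ) - F n i| → δ ≤ |G p q s y / G p q s 1 - (i : ℝ) / n|) :
    Filter.Tendsto (fun n : ℕ => (nBad p q s n ε (F n) : ℝ) / nResp p q s n) Filter.atTop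
      (𝓝 0) := by
  obtain ⟨r, hr, n0, hn0⟩ := core hE hS hT hM p q s ε hε F hF
  have h1 : Filter.Tendsto (fun n : ℕ => (nBad p q s n ε (F n) : ℝ≥0∞) / nResp p q s n)
      Filter.atTop (𝓝 0) := by
    refine tendsto_of_tendsto_of_tendsto_of_le_of_le' tendsto_const_nhds hr
      (Filter.Eventually.of_forall fun _ => zero_le) ?_
    filter_upwards [Filter.eventually_ge_atTop n0] with n hn
    have h := hn0 n hn
    rw [vol_bad_count, vol_resp_count] at h
    have hf : ((n * (p + q + s + 1) + 1).factorial : ℝ≥0∞) ≠ 0 := by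
      exact_mod_cast (Nat.factorial_pos _).ne'
    have hf' : ((n * (p + q + s + 1) + 1).factorial : ℝ≥0∞) ≠ ⊤ := ENNReal.natCast_ne_top _
    have hp : (nResp p q s n : ℝ≥0∞) ≠ 0 := by exact_mod_cast (nResp_pos hE n).ne'
    rw [ENNReal.div_le_iff_le_mul (Or.inl hp) (Or.inl (ENNReal.natCast_ne_top _))]
    rw [ENNReal.div_le_iff_le_mul (Or.inl hf) (Or.inl hf')] at h
    refine h.trans (le_of_eq ?_)
    rw [mul_right_comm, ENNReal.div_mul_cancel hf hf', mul_comm]
  have h2 := (ENNReal.tendsto_toReal (a := 0) (by simp)).comp h1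
  rw [ENNReal.toReal_zero] at h2
  refine h2.congr fun n => ?_
  rw [Function.comp_apply, ENNReal.toReal_div, ENNReal.toReal_natCast, ENNReal.toReal_natCast]

/-- the hypothesis on the target values, from the strict monotonicity of `G` -/
lemma hF_of (hG : StmG) (p q s : ℕ) (f : ℝ → ℝ)
    (hf : ∀ v ∈ Set.Icc (0 : ℝ) 1, f v ∈ Set.Icc (0 : ℝ) 1 ∧ G p q s (f v) / G p q s 1 = v)
    (η : ℝ) (hη : 0 < η) : ∃ δ : ℝ, 0 < δ ∧ ∃ n0 : ℕ, ∀ n ≥ n0, ∀ i ≤ n, ∀ y : I,
      η < |(y : ℝ) - f (((i : ℝ) + 1) / (n + 2))| →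
        δ ≤ |G p q s y / G p q s 1 - (i : ℝ) / n| := by
  obtain ⟨-, hder, -, hmono, -, hB, -⟩ := hG p q s
  have hcont : Continuous (G p q s) := continuous_iff_continuousAt.2 fun x => (hder x).continuousAt
  have key : ∃ δ : ℝ, 0 < δ ∧ ∀ x ∈ Set.Icc (0 : ℝ) 1, ∀ y ∈ Set.Icc (0 : ℝ) 1, η ≤ |x - y| →
      δ ≤ |G p q s x / G p q s 1 - G p q s y / G p q s 1| := by
    set K : Set (ℝ × ℝ) := (Set.Icc (0 : ℝ) 1 ×ˢ Set.Icc (0 : ℝ) 1) ∩ {z | η ≤ |z.1 - z.2|} with hK
    have hKc : IsCompact K := (isCompact_Icc.prod isCompact_Icc).inter_right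
      (isClosed_le continuous_const (by fun_prop))
    have hφ : Continuous (fun z : ℝ × ℝ => |G p q s z.1 / G p q s 1 - G p q s z.2 / G p q s 1|) := by
      have h1 : Continuous (fun z : ℝ × ℝ => G p q s z.1) := hcont.comp continuous_fst
      have h2 : Continuous (fun z : ℝ × ℝ => G p q s z.2) := hcont.comp continuous_snd
      exact ((h1.div_const _).sub (h2.div_const _)).abs
    rcases K.eq_empty_or_nonempty with he | hne
    · refine ⟨1, one_pos, fun x hx y hy hxy => ?_⟩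
      exfalso
      have : (x, y) ∈ K := ⟨⟨hx, hy⟩, hxy⟩
      rw [he] at this
      exact this
    · obtain ⟨z, hz, hmin⟩ := hKc.exists_isMinOn hne hφ.continuousOn
      refine ⟨|G p q s z.1 / G p q s 1 - G p q s z.2 / G p q s 1|, ?_, fun x hx y hy hxy =>
        hmin (show (x, y) ∈ K from ⟨⟨hx, hy⟩, hxy⟩)⟩
      rw [abs_pos]
      intro h0
      have h1 : G p q s z.1 = G p q s z.2 := by
        have := sub_eq_zero.1 h0
        rwa [div_left_inj' hB.ne'] at this
      have h2 := hmono.injOn hz.1.1 hz.1.2 h1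
      have h3 : η ≤ |z.1 - z.2| := hz.2
      rw [h2, sub_self, abs_zero] at h3
      linarith
  obtain ⟨δ, hδ, hkey⟩ := key
  obtain ⟨n0, hn0⟩ := exists_nat_gt (2 / δ)
  refine ⟨δ / 2, by positivity, max n0 1, fun n hn i hi y hy => ?_⟩
  have hn1 : 1 ≤ n := le_trans (le_max_right _ _) hn
  have hn2 : (n0 : ℝ) ≤ n := by exact_mod_cast le_trans (le_max_left _ _) hn
  have hnr : (1 : ℝ) ≤ n := by exact_mod_cast hn1
  have hir : (i : ℝ) ≤ n := by exact_mod_cast hi
  have hi0 : (0 : ℝ) ≤ i := Nat.cast_nonneg _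
  have hv : ((i : ℝ) + 1) / (n + 2) ∈ Set.Icc (0 : ℝ) 1 := by
    constructor
    · positivity
    · rw [div_le_one (by positivity)]; linarith
  obtain ⟨h1, h2⟩ := hf _ hv
  have h3 := hkey y y.2 _ h1 hy.le
  rw [h2] at h3
  have h4 : |((i : ℝ) + 1) / (n + 2) - i / n| ≤ δ / 2 := by
    have e : ((i : ℝ) + 1) / (n + 2) - i / n = (n - 2 * i) / (n * (n + 2)) := by
      field_simp
      ring
    rw [e, abs_div, abs_of_pos (show (0 : ℝ) < n * (n + 2) by positivity),
      div_le_iff₀ (by positivity)]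
    have h5 : |(n : ℝ) - 2 * i| ≤ n := by rw [abs_le]; constructor <;> linarith
    have h6 : 2 / δ < n := lt_of_lt_of_le hn0 hn2
    rw [div_lt_iff₀ hδ] at h6
    have h7 : (n : ℝ) * 1 ≤ n * (δ / 2 * n) := mul_le_mul_of_nonneg_left (by linarith) (by linarith)
    nlinarith
  have h5 := abs_sub_le (G p q s y / G p q s 1) ((i : ℝ) / n) (((i : ℝ) + 1) / (n + 2))
  rw [abs_sub_comm ((i : ℝ) / n)] at h5
  linarith

end

end R556.CLU
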