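import Pool.Agent.R556.CP.E

/-! MP_2d2444_co (project CLU): definitions and exact statements of the independent parts.
Complete proofs: Pool/Agent/R556/CLU/NOTES.md.  Here `p = a - 1`, `q = b - a - 1`, `s = m - b`. -/

open MeasureTheory Set Function
open scoped ENNReal unitInterval

namespace R556.CLU

noncomputable section

open Classical R556.CP

/-- the weight `u^(p/(q+1)) (1-u)^(s/(q+1))` -/
def w (p q s : ℕ) (u : ℝ) : ℝ := u ^ ((p : ℝ) / (q + 1)) * (1 - u) ^ ((s : ℝ) / (q + 1))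

/-- the incomplete beta integral -/
def G (p q s : ℕ) (x : ℝ) : ℝ := ∫ u in (0 : ℝ)..x, w p q s u

/-- the kernel of one cluster -/
def ker (p q s : ℕ) (x y : I) : ℝ≥0∞ :=
  if x < y then ENNReal.ofReal ((x : ℝ) ^ p * ((y : ℝ) - x) ^ q * (1 - (y : ℝ)) ^ s) else 0

/-- the transfer operator of one cluster -/
def Q (p q s : ℕ) (h : I → ℝ≥0∞) : I → ℝ≥0∞ := fun x => ∫⁻ y : I, ker p q s x y * h y

/-- iterates -/
def Qn (p q s k : ℕ) (h : I → ℝ≥0∞) : I → ℝ≥0∞ := (Q p q s)^[k] h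

/-- CLU-K: kernel inequalities -/
def StmK : Prop :=
  (∀ (p q s : ℕ) (x y : ℝ), 0 ≤ x → x ≤ y → y ≤ 1 →
    x ^ p * (y - x) ^ q * (1 - y) ^ s ≤ w p q s y * (G p q s y - G p q s x) ^ q) ∧
  ∀ (p q s : ℕ) (κ x y : ℝ), 0 < κ → κ ≤ x → x ≤ y → y ≤ 1 - κ →
    Real.exp (-(((p : ℝ) + s) / κ) * (y - x)) * (w p q s y * (G p q s y - G p q s x) ^ q) ≤
      x ^ p * (y - x) ^ q * (1 - y) ^ s

/-- CLU-G: properties of `w` and `G` -/
def StmG : Prop :=
  ∀ p q s : ℕ, Continuous (w p q s) ∧ (∀ x, HasDerivAt (G p q s) (w p q s x) x) ∧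
    (∀ x, 0 ≤ x → x ≤ 1 → 0 ≤ w p q s x ∧ w p q s x ≤ 1) ∧
    StrictMonoOn (G p q s) (Set.Icc 0 1) ∧ G p q s 0 = 0 ∧ 0 < G p q s 1 ∧
    ∀ ε : ℝ, 0 < ε → ∃ κ : ℝ, 0 < κ ∧ κ < 1 / 4 ∧
      (1 - ε) * G p q s 1 ≤ G p q s (1 - κ) - G p q s (2 * κ)

/-- CLU-B: beta integral -/
def StmB : Prop :=
  ∀ (p q s k M : ℕ) (x b : ℝ),
    (∫ y in x..b, w p q s y * (G p q s y - G p q s x) ^ k * (G p q s b - G p q s y) ^ M) =
      (G p q s b - G p q s x) ^ (k + M + 1) * (k.factorial * M.factorial / (k + M + 1).factorial)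

/-- CLU-C: Chernoff bound for binomial probabilities -/
def StmChern : Prop :=
  ∀ (M j : ℕ) (u : ℝ), 0 < M → j ≤ M → 0 ≤ u → u ≤ 1 →
    (M.choose j : ℝ) * u ^ j * (1 - u) ^ (M - j) ≤ Real.exp (-(M * (u - j / M) ^ 2 / 4))

/-- CLU-U: upper bound of the iterates -/
def StmU : Prop :=
  ∀ (p q s k : ℕ) (x : I), Qn p q s k (fun _ => 1) x ≤
    ENNReal.ofReal ((q.factorial : ℝ) ^ k * ((G p q s 1 - G p q s x) ^ ((q + 1) * k) /
      ((q + 1) * k).factorial))

/-- CLU-L: lower bound of the iterates -/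
def StmL : Prop :=
  ∀ (p q s k : ℕ) (κ : ℝ) (x : I), 0 < κ → κ < 1 / 2 → κ ≤ x → (x : ℝ) ≤ 1 - κ →
    ENNReal.ofReal ((q.factorial : ℝ) ^ k * Real.exp (-(((p : ℝ) + s) / κ) * (1 - κ - x)) *
      ((G p q s (1 - κ) - G p q s x) ^ ((q + 1) * k) / ((q + 1) * k).factorial)) ≤
    Qn p q s k (fun _ => 1) x

/-- CLU-V: iterates applied to a general function -/
def StmV : Prop :=
  ∀ (p q s i : ℕ) (h : I → ℝ≥0∞), Measurable h → ∀ x : I, Qn p q s (i + 1) h x ≤
    ∫⁻ y : I, (if x < y then ENNReal.ofReal ((q.factorial : ℝ) ^ (i + 1) * (w p q s y *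
      ((G p q s y - G p q s x) ^ ((q + 1) * (i + 1) - 1) / ((q + 1) * (i + 1) - 1).factorial)))
      else 0) * h y

/-- CLU-M: exponential concentration for the transfer operators -/
def StmM : Prop :=
  ∀ (p q s : ℕ) (δ : ℝ), 0 < δ → ∃ C c : ℝ, 0 < c ∧ ∀ n i : ℕ, 1 ≤ n → i ≤ n →
    (∫⁻ x : I, Qn p q s i (fun y => if δ ≤ |G p q s y / G p q s 1 - (i : ℝ) / n| then
      Qn p q s (n - i) (fun _ => 1) y else 0) x) ≤
    ENNReal.ofReal (C * Real.exp (-(c * n))) * ∫⁻ x : I, Qn p q s n (fun _ => 1) x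

/-- position of the `j`-th element (`j = 0, ..., p+q+s+1`) of a cluster in its block of positions
`0, ..., p+q+s+1`; the distinguished elements `j = p` and `j = p+q+1` have the positions `0` and
`p+q+s+1` -/
def cpos (p q s j : ℕ) : ℕ :=
  if j < p then j + 1 else if j = p then 0 else if j ≤ p + q then j
  else if j = p + q + 1 then p + q + s + 1 else j - 1

/-- the labels `X 0, ..., X (p+q+s+1)` increase along the cluster -/
def Blk (p q s : ℕ) (X : ℕ → I) : Prop :=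
  ∀ j < p + q + s + 1, X (cpos p q s j) < X (cpos p q s (j + 1))

/-- CLU-E: integral over the inner elements of a cluster -/
def StmE : Prop :=
  ∀ (p q s : ℕ) (X : ℕ → I),
    LM (Finset.Ico 1 (p + q + s + 1)) (fun X => ind (Blk p q s X)) X =
      ENNReal.ofReal (1 / (p.factorial * q.factorial * s.factorial)) *
        ker p q s (X 0) (X (p + q + s + 1))

/-- CLU-S: order patterns are independent of symmetric events -/
def StmS : Prop :=
  ∀ (n : ℕ) (P : (Fin n → Fin n → Prop) → Prop) (S : Set (Fin n → I)), MeasurableSet S →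
    (∀ (e : Equiv.Perm (Fin n)) (X : Fin n → I), (fun i => X (e i)) ∈ S ↔ X ∈ S) →
    (volume : Measure (Fin n → I)) ({X | P (fun i j => X i < X j)} ∩ S) =
      (volume : Measure (Fin n → I)) {X | P (fun i j => X i < X j)} *
        (volume : Measure (Fin n → I)) S

/-- CLU-T: weak law of large numbers for the empirical distribution (Chebyshev) -/
def StmT : Prop :=
  ∀ (t : I) (ε : ℝ), 0 < ε →
    (∀ N : ℕ, MeasurableSet {X : Fin N → I | ε * N <
      |((Finset.univ.filter (fun j => X j < t)).card : ℝ) - N * t|}) ∧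
    Filter.Tendsto (fun N : ℕ => (volume : Measure (Fin N → I)) {X : Fin N → I | ε * N <
      |((Finset.univ.filter (fun j => X j < t)).card : ℝ) - N * t|}) Filter.atTop (nhds 0)

end

end R556.CLU
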