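import Pool.Agent.R556.CLU.Defs

/-! CLU-E: integral over the inner elements of a cluster -/

open MeasureTheory Set Function
open scoped ENNReal unitInterval

namespace R556.CLU

noncomputable section

open Classical R556.CP

lemma e_lint (x y : I) (hxy : x ≤ y) (S : Set ℝ) (hSm : MeasurableSet S)
    (hS1 : Ioo (x : ℝ) y ⊆ S) (hS2 : S ⊆ Icc (x : ℝ) y) (g : ℝ → ℝ) (hg : Continuous g)
    (hg0 : ∀ z, (x : ℝ) ≤ z → z ≤ y → 0 ≤ g z) :
    ∫⁻ z : I, (if (z : ℝ) ∈ S then ENNReal.ofReal (g z) else 0) =
      ENNReal.ofReal (∫ z in (x : ℝ)..y, g z) := by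
  have h1 : ∫⁻ z : I, (if (z : ℝ) ∈ S then ENNReal.ofReal (g z) else 0) =
      ∫⁻ z in Icc (0 : ℝ) 1, S.indicator (fun z => ENNReal.ofReal (g z)) z := by
    rw [← lintegral_subtype_comap measurableSet_Icc]
    apply lintegral_congr
    intro z
    simp only [Set.indicator_apply]
  have hle : (x : ℝ) ≤ y := hxy
  rw [h1, setLIntegral_indicator hSm]
  have h2 : S ∩ Icc 0 1 = S := by
    apply Set.inter_eq_left.mpr
    intro z hz
    exact ⟨le_trans x.2.1 (hS2 hz).1, le_trans (hS2 hz).2 y.2.2⟩
  have h3 : S =ᵐ[volume] Ioo (x : ℝ) y := by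
    apply Filter.EventuallyLE.antisymm
    · exact (HasSubset.Subset.eventuallyLE hS2).trans Ioo_ae_eq_Icc.symm.le
    · exact HasSubset.Subset.eventuallyLE hS1
  rw [h2, setLIntegral_congr h3, intervalIntegral.integral_of_le hle,
    integral_Ioc_eq_integral_Ioo, ofReal_integral_eq_lintegral_ofReal]
  · exact (hg.integrableOn_Icc).mono_set Ioo_subset_Icc_self
  · rw [Filter.EventuallyLE, ae_restrict_iff' measurableSet_Ioo]
    filter_upwards with z hz
    exact hg0 z hz.1.le hz.2.le

/-- chain `X m < ... < X (m+k-1) < X hi` -/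
def Ca (m k hi : ℕ) (X : ℕ → I) : Prop :=
  ∀ j < k, X (m + j) < X (if j + 1 = k then hi else m + j + 1)

/-- chain `X lo < X m < ... < X (m+k-1) < X hi` -/
def Cb (m k lo hi : ℕ) (X : ℕ → I) : Prop :=
  ∀ j < k + 1, X (if j = 0 then lo else m + j - 1) < X (if j = k then hi else m + j)

/-- chain `X lo < X m < ... < X (m+k-1)` -/
def Cc (m k lo : ℕ) (X : ℕ → I) : Prop :=
  ∀ j < k, X (if j = 0 then lo else m + j - 1) < X (m + j)

lemma e_split (p q s : ℕ) (X : ℕ → I) : Blk p q s X ↔
    Ca 1 p 0 X ∧ Cb (p + 1) q 0 (p + q + s + 1) X ∧ Cc (p + q + 1) s (p + q + s + 1) X := by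
  constructor
  · intro h
    refine ⟨fun j hj => ?_, fun j hj => ?_, fun j hj => ?_⟩
    · have h1 := h j (by omega)
      have e1 : cpos p q s j = 1 + j := by unfold cpos; split_ifs <;> omega
      have e2 : cpos p q s (j + 1) = if j + 1 = p then 0 else 1 + j + 1 := by
        unfold cpos; split_ifs <;> omega
      rwa [e1, e2] at h1
    · have h1 := h (p + j) (by omega)
      have e1 : cpos p q s (p + j) = if j = 0 then 0 else p + 1 + j - 1 := by
        unfold cpos; split_ifs <;> omega
      have e2 : cpos p q s (p + j + 1) = if j = q then p + q + s + 1 else p + 1 + j := by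
        unfold cpos; split_ifs <;> omega
      rwa [e1, e2] at h1
    · have h1 := h (p + q + 1 + j) (by omega)
      have e1 : cpos p q s (p + q + 1 + j) =
          if j = 0 then p + q + s + 1 else p + q + 1 + j - 1 := by
        unfold cpos; split_ifs <;> omega
      have e2 : cpos p q s (p + q + 1 + j + 1) = p + q + 1 + j := by
        unfold cpos; split_ifs <;> omega
      rwa [e1, e2] at h1
  · rintro ⟨ha, hb, hc⟩ j hj
    by_cases h1 : j < p
    · have h2 := ha j h1
      have e1 : cpos p q s j = 1 + j := by unfold cpos; split_ifs <;> omega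
      have e2 : cpos p q s (j + 1) = if j + 1 = p then 0 else 1 + j + 1 := by
        unfold cpos; split_ifs <;> omega
      rw [e1, e2]; exact h2
    · by_cases h3 : j < p + q + 1
      · obtain ⟨i, rfl⟩ : ∃ i, j = p + i := ⟨j - p, by omega⟩
        have h2 := hb i (by omega)
        have e1 : cpos p q s (p + i) = if i = 0 then 0 else p + 1 + i - 1 := by
          unfold cpos; split_ifs <;> omega
        have e2 : cpos p q s (p + i + 1) = if i = q then p + q + s + 1 else p + 1 + i := by
          unfold cpos; split_ifs <;> omega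
        rw [e1, e2]; exact h2
      · obtain ⟨i, rfl⟩ : ∃ i, j = p + q + 1 + i := ⟨j - (p + q + 1), by omega⟩
        have h2 := hc i (by omega)
        have e1 : cpos p q s (p + q + 1 + i) =
            if i = 0 then p + q + s + 1 else p + q + 1 + i - 1 := by
          unfold cpos; split_ifs <;> omega
        have e2 : cpos p q s (p + q + 1 + i + 1) = p + q + 1 + i := by
          unfold cpos; split_ifs <;> omega
        rw [e1, e2]; exact h2

lemma e_meas_lt (a b : ℕ → ℕ) (k : ℕ) :
    MeasurableSet {X : ℕ → I | ∀ j < k, X (a j) < X (b j)} := by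
  have : {X : ℕ → I | ∀ j < k, X (a j) < X (b j)} =
      ⋂ j : ℕ, ⋂ _ : j < k, {X : ℕ → I | X (a j) < X (b j)} := by
    ext X; simp
  rw [this]
  exact MeasurableSet.iInter fun j => MeasurableSet.iInter fun _ =>
    measurableSet_lt (measurable_pi_apply _) (measurable_pi_apply _)

lemma e_mCa (m k hi : ℕ) : Measurable (fun X => ind (Ca m k hi X)) :=
  measurable_ind (e_meas_lt _ _ _)
lemma e_mCb (m k lo hi : ℕ) : Measurable (fun X => ind (Cb m k lo hi X)) :=
  measurable_ind (e_meas_lt _ _ _)
lemma e_mCc (m k lo : ℕ) : Measurable (fun X => ind (Cc m k lo X)) :=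
  measurable_ind (e_meas_lt _ _ _)

lemma e_dep_lt (a b : ℕ → ℕ) (k : ℕ) (S : Set ℕ) (ha : ∀ j < k, a j ∈ S) (hb : ∀ j < k, b j ∈ S) :
    Dep (fun X => ind (∀ j < k, X (a j) < X (b j))) S := by
  intro X Y h
  apply ind_congr
  refine forall_congr' fun j => forall_congr' fun hj => ?_
  rw [h _ (ha j hj), h _ (hb j hj)]

lemma e_single (m : ℕ) (f : (ℕ → I) → ℝ≥0∞) (hf : Measurable f) (X : ℕ → I) :
    LM {m} f X = ∫⁻ z : I, f (Function.update X m z) := by
  unfold LM
  rw [lmarginal_singleton]

lemma e_Ca (k : ℕ) : ∀ (m hi : ℕ) (X : ℕ → I), hi ∉ Finset.Ico m (m + k) →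
    LM (Finset.Ico m (m + k)) (fun X => ind (Ca m k hi X)) X =
      ENNReal.ofReal ((X hi : ℝ) ^ k / k.factorial) := by
  induction k with
  | zero =>
    intro m hi X _
    have h1 : ∀ X : ℕ → I, ind (Ca m 0 hi X) = 1 := fun X => ind_true (fun j hj => absurd hj (by omega))
    simp only [h1, Nat.add_zero, Finset.Ico_self]
    unfold LM
    rw [lmarginal_empty]
    simp
  | succ k ih =>
    intro m hi X hhi
    rw [Finset.mem_Ico] at hhi
    have hu : Finset.Ico m (m + (k + 1)) = {m + k} ∪ Finset.Ico m (m + k) := by
      ext x; simp only [Finset.mem_union, Finset.mem_Ico, Finset.mem_singleton]; omega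
    have hdj : Disjoint ({m + k} : Finset ℕ) (Finset.Ico m (m + k)) := by
      rw [Finset.disjoint_singleton_left, Finset.mem_Ico]; omega
    have hrec : (fun X => ind (Ca m (k + 1) hi X)) =
        fun X => ind (X (m + k) < X hi) * ind (Ca m k (m + k) X) := by
      funext X
      rw [← ind_and]
      apply ind_congr
      unfold Ca
      rw [Nat.forall_lt_succ_right]
      constructor
      · rintro ⟨h1, h2⟩
        refine ⟨by simpa using h2, fun j hj => ?_⟩
        have h3 := h1 j hj
        rw [if_neg (by omega)] at h3
        by_cases h4 : j + 1 = k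
        · rw [if_pos h4]
          have : m + k = m + j + 1 := by omega
          rw [this]; exact h3
        · rw [if_neg h4]; exact h3
      · rintro ⟨h1, h2⟩
        refine ⟨fun j hj => ?_, by simpa using h1⟩
        rw [if_neg (by omega)]
        have h3 := h2 j hj
        by_cases h4 : j + 1 = k
        · rw [if_pos h4] at h3
          have : m + k = m + j + 1 := by omega
          rw [this] at h3; exact h3
        · rw [if_neg h4] at h3; exact h3
    rw [hrec, hu, LM_union _ hdj]
    swap
    · exact (measurable_ind (measurableSet_lt (measurable_pi_apply _) (measurable_pi_apply _))).mul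
        (e_mCa _ _ _)
    have hin : LM (Finset.Ico m (m + k))
        (fun X => ind (X (m + k) < X hi) * ind (Ca m k (m + k) X)) =
        fun Y => ind (Y (m + k) < Y hi) * ENNReal.ofReal ((Y (m + k) : ℝ) ^ k / k.factorial) := by
      funext Y
      rw [LM_mul_left (f := fun X => ind (X (m + k) < X hi)) _ (e_mCa _ _ _),
        ih m (m + k) Y (by simp)]
      intro X Y h
      have h1 : X (m + k) = Y (m + k) := h _ (by simp)
      have h2 : X hi = Y hi := h _ (by simp only [Finset.mem_Ico]; show ¬ _; omega)
      simp only [h1, h2]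
    rw [hin, e_single]
    swap
    · refine (measurable_ind (measurableSet_lt (measurable_pi_apply _) (measurable_pi_apply _))).mul ?_
      apply Measurable.ennreal_ofReal
      fun_prop
    have hne : hi ≠ m + k := by omega
    have hg : Continuous (fun z : ℝ => z ^ k / (k.factorial : ℝ)) := by fun_prop
    have hI := e_lint 0 (X hi) (X hi).2.1 (Ico 0 (X hi : ℝ)) measurableSet_Ico
      (fun z hz => ⟨hz.1.le, hz.2⟩) (fun z hz => ⟨hz.1, hz.2.le⟩) _ hg
      (fun z hz _ => by
        have hz' : (0 : ℝ) ≤ z := hz
        positivity)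
    have hint : ∫ z in ((0 : I) : ℝ)..(X hi : ℝ), z ^ k / (k.factorial : ℝ) =
        (X hi : ℝ) ^ (k + 1) / (k + 1).factorial := by
      rw [intervalIntegral.integral_div, integral_pow, Nat.factorial_succ]
      have : (k.factorial : ℝ) ≠ 0 := by positivity
      push_cast
      field_simp
      simp
    rw [hint] at hI
    rw [← hI]
    apply lintegral_congr
    intro z
    rw [Function.update_self, Function.update_of_ne hne]
    by_cases h : z < X hi
    · have h' : (z : ℝ) < X hi := h
      rw [ind_true h, if_pos ⟨z.2.1, h'⟩, one_mul]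
    · have h' : ¬ (z : ℝ) < X hi := h
      rw [ind_false h, if_neg (fun hh => h' hh.2), zero_mul]

lemma e_Cb (k : ℕ) : ∀ (m lo hi : ℕ) (X : ℕ → I), hi ∉ Finset.Ico m (m + k) → lo < m → 
    LM (Finset.Ico m (m + k)) (fun X => ind (Cb m k lo hi X)) X =
      ind (X lo < X hi) * ENNReal.ofReal (((X hi : ℝ) - X lo) ^ k / k.factorial) := by
  induction k with
  | zero =>
    intro m lo hi X _ _
    have h1 : ∀ X : ℕ → I, ind (Cb m 0 lo hi X) = ind (X lo < X hi) := fun X => by
      apply ind_congr
      unfold Cb
      constructor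
      · intro h; simpa using h 0 (by omega)
      · intro h j hj
        have : j = 0 := by omega
        subst this
        simpa using h
    simp only [h1, Nat.add_zero, Finset.Ico_self]
    unfold LM
    rw [lmarginal_empty]
    simp
  | succ k ih =>
    intro m lo hi X hhi hlo
    rw [Finset.mem_Ico] at hhi
    have hu : Finset.Ico m (m + (k + 1)) = {m + k} ∪ Finset.Ico m (m + k) := by
      ext x; simp only [Finset.mem_union, Finset.mem_Ico, Finset.mem_singleton]; omega
    have hdj : Disjoint ({m + k} : Finset ℕ) (Finset.Ico m (m + k)) := by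
      rw [Finset.disjoint_singleton_left, Finset.mem_Ico]; omega
    have hrec : (fun X => ind (Cb m (k + 1) lo hi X)) =
        fun X => ind (X (m + k) < X hi) * ind (Cb m k lo (m + k) X) := by
      funext X
      rw [← ind_and]
      apply ind_congr
      unfold Cb
      rw [Nat.forall_lt_succ_right]
      constructor
      · rintro ⟨h1, h2⟩
        refine ⟨by simpa using h2, fun j hj => ?_⟩
        have h3 := h1 j hj
        rw [if_neg (by omega : ¬ j = k + 1)] at h3
        by_cases h4 : j = k
        · rw [if_pos h4]; rw [h4] at h3 ⊢; exact h3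
        · rw [if_neg h4]; exact h3
      · rintro ⟨h1, h2⟩
        refine ⟨fun j hj => ?_, by simpa using h1⟩
        rw [if_neg (by omega : ¬ j = k + 1)]
        have h3 := h2 j hj
        by_cases h4 : j = k
        · rw [if_pos h4] at h3; rw [h4] at h3 ⊢; exact h3
        · rw [if_neg h4] at h3; exact h3
    rw [hrec, hu, LM_union _ hdj]
    swap
    · exact (measurable_ind (measurableSet_lt (measurable_pi_apply _) (measurable_pi_apply _))).mul
        (e_mCb _ _ _ _)
    have hin : LM (Finset.Ico m (m + k))
        (fun X => ind (X (m + k) < X hi) * ind (Cb m k lo (m + k) X)) =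
        fun Y => ind (Y (m + k) < Y hi) * (ind (Y lo < Y (m + k)) *
          ENNReal.ofReal (((Y (m + k) : ℝ) - Y lo) ^ k / k.factorial)) := by
      funext Y
      rw [LM_mul_left (f := fun X => ind (X (m + k) < X hi)) _ (e_mCb _ _ _ _),
        ih m lo (m + k) Y (by simp) hlo]
      intro X Y h
      have h1 : X (m + k) = Y (m + k) := h _ (by simp)
      have h2 : X hi = Y hi := h _ (by simp only [Finset.mem_Ico]; show ¬ _; omega)
      simp only [h1, h2]
    rw [hin, e_single]
    swap
    · refine (measurable_ind (measurableSet_lt (measurable_pi_apply _) (measurable_pi_apply _))).mul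
        ((measurable_ind (measurableSet_lt (measurable_pi_apply _) (measurable_pi_apply _))).mul ?_)
      apply Measurable.ennreal_ofReal
      fun_prop
    have hne : hi ≠ m + k := by omega
    have hne2 : lo ≠ m + k := by omega
    by_cases hlh : X lo < X hi
    swap
    · rw [ind_false hlh, zero_mul]
      have : ∀ z : I, (ind (Function.update X (m + k) z (m + k) < Function.update X (m + k) z hi) *
          (ind (Function.update X (m + k) z lo < Function.update X (m + k) z (m + k)) *
          ENNReal.ofReal (((Function.update X (m + k) z (m + k) : ℝ) -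
            Function.update X (m + k) z lo) ^ k / k.factorial))) = 0 := by
        intro z
        rw [Function.update_self, Function.update_of_ne hne, Function.update_of_ne hne2]
        by_cases h1 : z < X hi
        · by_cases h2 : X lo < z
          · exact absurd (h2.trans h1) hlh
          · rw [ind_false h2]; simp
        · rw [ind_false h1]; simp
      rw [lintegral_congr this]
      simp
    have hg : Continuous (fun z : ℝ => (z - X lo) ^ k / (k.factorial : ℝ)) := by fun_prop
    have hI := e_lint (X lo) (X hi) hlh.le (Ioo (X lo : ℝ) (X hi : ℝ)) measurableSet_Ioo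
      (fun z hz => hz) (fun z hz => ⟨hz.1.le, hz.2.le⟩) _ hg
      (fun z hz _ => by
        have hz' : (0 : ℝ) ≤ z - X lo := by linarith
        positivity)
    have hint : ∫ z in (X lo : ℝ)..(X hi : ℝ), (z - X lo) ^ k / (k.factorial : ℝ) =
        ((X hi : ℝ) - X lo) ^ (k + 1) / (k + 1).factorial := by
      rw [intervalIntegral.integral_div,
        intervalIntegral.integral_comp_sub_right (fun z => z ^ k) (X lo : ℝ), integral_pow,
        Nat.factorial_succ]
      have : (k.factorial : ℝ) ≠ 0 := by positivity
      push_cast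
      field_simp
      simp
    rw [hint] at hI
    rw [← hI, ind_true hlh, one_mul]
    apply lintegral_congr
    intro z
    rw [Function.update_self, Function.update_of_ne hne, Function.update_of_ne hne2]
    by_cases h : z < X hi
    · have h' : (z : ℝ) < X hi := h
      by_cases h2 : X lo < z
      · have h2' : (X lo : ℝ) < z := h2
        rw [ind_true h, ind_true h2, if_pos ⟨h2', h'⟩, one_mul, one_mul]
      · have h2' : ¬ (X lo : ℝ) < z := h2
        rw [ind_false h2, if_neg (fun hh => h2' hh.1)]
        simp
    · have h' : ¬ (z : ℝ) < X hi := h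
      rw [ind_false h, if_neg (fun hh => h' hh.2), zero_mul]

lemma e_Cc (k : ℕ) : ∀ (m lo : ℕ) (X : ℕ → I), lo ∉ Finset.Ico m (m + k) →
    LM (Finset.Ico m (m + k)) (fun X => ind (Cc m k lo X)) X =
      ENNReal.ofReal ((1 - (X lo : ℝ)) ^ k / k.factorial) := by
  induction k with
  | zero =>
    intro m lo X _
    have h1 : ∀ X : ℕ → I, ind (Cc m 0 lo X) = 1 := fun X => ind_true (fun j hj => absurd hj (by omega))
    simp only [h1, Nat.add_zero, Finset.Ico_self]
    unfold LM
    rw [lmarginal_empty]
    simp
  | succ k ih =>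
    intro m lo X hlo
    rw [Finset.mem_Ico] at hlo
    have hu : Finset.Ico m (m + (k + 1)) = {m} ∪ Finset.Ico (m + 1) (m + 1 + k) := by
      ext x; simp only [Finset.mem_union, Finset.mem_Ico, Finset.mem_singleton]; omega
    have hdj : Disjoint ({m} : Finset ℕ) (Finset.Ico (m + 1) (m + 1 + k)) := by
      rw [Finset.disjoint_singleton_left, Finset.mem_Ico]; omega
    have hrec : (fun X => ind (Cc m (k + 1) lo X)) =
        fun X => ind (X lo < X m) * ind (Cc (m + 1) k m X) := by
      funext X
      rw [← ind_and]
      apply ind_congr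
      unfold Cc
      constructor
      · intro h
        refine ⟨by simpa using h 0 (by omega), fun j hj => ?_⟩
        have h3 := h (j + 1) (by omega)
        rw [if_neg (by omega)] at h3
        have e1 : (if j = 0 then m else m + 1 + j - 1) = m + (j + 1) - 1 := by
          split_ifs <;> omega
        have e2 : m + 1 + j = m + (j + 1) := by omega
        rw [e1, e2]; exact h3
      · rintro ⟨h1, h2⟩ j hj
        rcases Nat.eq_zero_or_pos j with rfl | hj0
        · simpa using h1
        · have h3 := h2 (j - 1) (by omega)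
          rw [if_neg (by omega)]
          have e1 : (if j - 1 = 0 then m else m + 1 + (j - 1) - 1) = m + j - 1 := by
            split_ifs <;> omega
          have e2 : m + 1 + (j - 1) = m + j := by omega
          rw [e1, e2] at h3; exact h3
    rw [hrec, hu, LM_union _ hdj]
    swap
    · exact (measurable_ind (measurableSet_lt (measurable_pi_apply _) (measurable_pi_apply _))).mul
        (e_mCc _ _ _)
    have hin : LM (Finset.Ico (m + 1) (m + 1 + k))
        (fun X => ind (X lo < X m) * ind (Cc (m + 1) k m X)) =
        fun Y => ind (Y lo < Y m) * ENNReal.ofReal ((1 - (Y m : ℝ)) ^ k / k.factorial) := by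
      funext Y
      rw [LM_mul_left (f := fun X => ind (X lo < X m)) _ (e_mCc _ _ _),
        ih (m + 1) m Y (by simp)]
      intro X Y h
      have h1 : X m = Y m := h _ (by simp)
      have h2 : X lo = Y lo := h _ (by simp only [Finset.mem_Ico]; show ¬ _; omega)
      simp only [h1, h2]
    rw [hin, e_single]
    swap
    · refine (measurable_ind (measurableSet_lt (measurable_pi_apply _) (measurable_pi_apply _))).mul ?_
      apply Measurable.ennreal_ofReal
      fun_prop
    have hne : lo ≠ m := by omega
    have hg : Continuous (fun z : ℝ => (1 - z) ^ k / (k.factorial : ℝ)) := by fun_prop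
    have hI := e_lint (X lo) 1 (X lo).2.2 (Ioc (X lo : ℝ) 1) measurableSet_Ioc
      (fun z hz => ⟨hz.1, hz.2.le⟩) (fun z hz => ⟨hz.1.le, hz.2⟩) _ hg
      (fun z _ hz => by
        have hz' : (0 : ℝ) ≤ 1 - z := by
          have : z ≤ 1 := hz
          linarith
        positivity)
    have hint : ∫ z in (X lo : ℝ)..((1 : I) : ℝ), (1 - z) ^ k / (k.factorial : ℝ) =
        (1 - (X lo : ℝ)) ^ (k + 1) / (k + 1).factorial := by
      rw [intervalIntegral.integral_div,
        intervalIntegral.integral_comp_sub_left (fun z => z ^ k) (1 : ℝ), integral_pow,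
        Nat.factorial_succ]
      have : (k.factorial : ℝ) ≠ 0 := by positivity
      push_cast
      field_simp
      simp
    rw [hint] at hI
    rw [← hI]
    apply lintegral_congr
    intro z
    rw [Function.update_self, Function.update_of_ne hne]
    by_cases h : X lo < z
    · have h' : (X lo : ℝ) < z := h
      rw [ind_true h, if_pos ⟨h', z.2.2⟩, one_mul]
    · have h' : ¬ (X lo : ℝ) < z := h
      rw [ind_false h, if_neg (fun hh => h' hh.1), zero_mul]

theorem stmE : StmE := by
  intro p q s X
  have hf : (fun X => ind (Blk p q s X)) = fun X => ind (Ca 1 p 0 X) *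
      (ind (Cb (p + 1) q 0 (p + q + s + 1) X) * ind (Cc (p + q + 1) s (p + q + s + 1) X)) := by
    funext X
    rw [← ind_and, ← ind_and]
    exact ind_congr (e_split p q s X)
  have hu1 : Finset.Ico 1 (p + q + s + 1) =
      Finset.Ico 1 (1 + p) ∪ Finset.Ico (1 + p) (p + q + s + 1) := by
    ext x; simp only [Finset.mem_union, Finset.mem_Ico]; omega
  have hd1 : Disjoint (Finset.Ico 1 (1 + p)) (Finset.Ico (1 + p) (p + q + s + 1)) := by
    rw [Finset.disjoint_left]; intro x; simp only [Finset.mem_Ico]; omega
  have hu2 : Finset.Ico (1 + p) (p + q + s + 1) =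
      Finset.Ico (p + 1) (p + 1 + q) ∪ Finset.Ico (p + q + 1) (p + q + 1 + s) := by
    ext x; simp only [Finset.mem_union, Finset.mem_Ico]; omega
  have hd2 : Disjoint (Finset.Ico (p + 1) (p + 1 + q)) (Finset.Ico (p + q + 1) (p + q + 1 + s)) := by
    rw [Finset.disjoint_left]; intro x; simp only [Finset.mem_Ico]; omega
  rw [hf, hu1, LM_prod (f := fun X => ind (Ca 1 p 0 X))
    (g := fun X => ind (Cb (p + 1) q 0 (p + q + s + 1) X) *
      ind (Cc (p + q + 1) s (p + q + s + 1) X)) hd1 (e_mCa _ _ _)
      ((e_mCb _ _ _ _).mul (e_mCc _ _ _))]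
  rotate_left
  · apply e_dep_lt
    · intro j hj
      show _ ∉ _
      simp only [Finset.mem_Ico]; omega
    · intro j hj
      show _ ∉ _
      simp only [Finset.mem_Ico]
      split_ifs <;> omega
  · apply Dep.mul
    · apply e_dep_lt
      · intro j hj
        show _ ∉ _
        simp only [Finset.mem_Ico]
        split_ifs <;> omega
      · intro j hj
        show _ ∉ _
        simp only [Finset.mem_Ico]
        split_ifs <;> omega
    · apply e_dep_lt
      · intro j hj
        show _ ∉ _
        simp only [Finset.mem_Ico]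
        split_ifs <;> omega
      · intro j hj
        show _ ∉ _
        simp only [Finset.mem_Ico]
        omega
  rw [hu2, LM_prod (f := fun X => ind (Cb (p + 1) q 0 (p + q + s + 1) X))
    (g := fun X => ind (Cc (p + q + 1) s (p + q + s + 1) X)) hd2 (e_mCb _ _ _ _) (e_mCc _ _ _)]
  rotate_left
  · apply e_dep_lt
    · intro j hj
      show _ ∉ _
      simp only [Finset.mem_Ico]
      split_ifs <;> omega
    · intro j hj
      show _ ∉ _
      simp only [Finset.mem_Ico]
      split_ifs <;> omega
  · apply e_dep_lt
    · intro j hj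
      show _ ∉ _
      simp only [Finset.mem_Ico]
      split_ifs <;> omega
    · intro j hj
      show _ ∉ _
      simp only [Finset.mem_Ico]
      omega
  rw [e_Ca p 1 0 X (by simp), e_Cb q (p + 1) 0 (p + q + s + 1) X (by simp only [Finset.mem_Ico]; omega)
    (by omega), e_Cc s (p + q + 1) (p + q + s + 1) X (by simp only [Finset.mem_Ico]; omega)]
  unfold ker
  by_cases h : X 0 < X (p + q + s + 1)
  · rw [ind_true h, if_pos h, one_mul]
    have h0 : (0 : ℝ) ≤ X 0 := (X 0).2.1
    have h1 : (0 : ℝ) ≤ (X (p + q + s + 1) : ℝ) - X 0 := by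
      have : (X 0 : ℝ) < X (p + q + s + 1) := h
      linarith
    have h2 : (0 : ℝ) ≤ 1 - X (p + q + s + 1) := by linarith [(X (p + q + s + 1)).2.2]
    rw [← ENNReal.ofReal_mul (by positivity), ← ENNReal.ofReal_mul (by positivity),
      ← ENNReal.ofReal_mul (by positivity)]
    congr 1
    field_simp
  · rw [ind_false h, if_neg h]
    simp

end

end R556.CLU
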