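import Pool.Agent.R556.CLU.Poset

/-! MP_2d2444_co: the main theorem. -/

open MeasureTheory Set Function
open scoped ENNReal unitInterval Topology

namespace R556.CLU

noncomputable section

open Classical R556.CP

/-- `x` is the distinguished element `X_i`: `X_i = A_{i+1,a}` for `0 ≤ i < n` and `X_i = A_{i,b}` for
`1 ≤ i ≤ n` (recall that `A a b k j` is `A_{k+1,j+1}`) -/
def IsX (m n a b : ℕ) (i : ℕ) (x : Elt m n a b) : Prop :=
  (∃ k : Fin n, ∃ j : Fin m, (k : ℕ) = i ∧ (j : ℕ) + 1 = a ∧ x = A a b k j) ∨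
    ∃ k : Fin n, ∃ j : Fin m, (k : ℕ) + 1 = i ∧ (j : ℕ) + 1 = b ∧ x = A a b k j

/-- `α = (a-1)/(b-a) + 1` -/
def alpha (a b : ℕ) : ℝ := ((a : ℝ) - 1) / ((b : ℝ) - a) + 1

/-- `β = (m-b)/(b-a) + 1` -/
def beta (m a b : ℕ) : ℝ := ((m : ℝ) - b) / ((b : ℝ) - a) + 1

/-- `g(t) = (∫_0^t u^(α-1) (1-u)^(β-1) du) / B(α, β)`, `B(α, β) = ∫_0^1 u^(α-1) (1-u)^(β-1) du` -/
def g (m a b : ℕ) (t : ℝ) : ℝ :=
  (∫ u in (0 : ℝ)..t, u ^ (alpha a b - 1) * (1 - u) ^ (beta m a b - 1)) /
    ∫ u in (0 : ℝ)..1, u ^ (alpha a b - 1) * (1 - u) ^ (beta m a b - 1)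

/-- `f = g⁻¹` on `[0, 1]` -/
def f (m a b : ℕ) : ℝ → ℝ := Function.invFunOn (g m a b) (Set.Icc 0 1)

/-- all distinguished elements have the predicted heights up to `ε |P_n|` -/
def Close (m n a b : ℕ) (ε : ℝ) (r : Elt m n a b → Elt m n a b → Prop) : Prop :=
  ∀ i ≤ n, ∀ x : Elt m n a b, IsX m n a b i x →
    |(ht r x : ℝ) - Nat.card (Elt m n a b) * f m a b (((i : ℝ) + 1) / (n + 2))| ≤
      ε * Nat.card (Elt m n a b)

/-- number of linear extensions -/
def numLin (m n a b : ℕ) : ℕ :=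
  Nat.card {r : Elt m n a b → Elt m n a b → Prop // IsLinExt m n a b r}

/-- number of linear extensions in which all distinguished elements have the predicted heights -/
def numClose (m n a b : ℕ) (ε : ℝ) : ℕ :=
  Nat.card {r : Elt m n a b → Elt m n a b → Prop // IsLinExt m n a b r ∧ Close m n a b ε r}

section

variable {p q s n : ℕ}

lemma linExt_iff (hn : 1 ≤ n) (w : Equiv.Perm (Fin (n * (p + q + s + 1) + 1))) :
    IsLinExt (p + q + s + 2) n (p + 1) (p + q + 2)
      (fun x y => w (eqv p q s n hn x) < w (eqv p q s n hn y)) ↔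
      RelResp p q s n _ (fun u v => w u < w v) := by
  constructor
  · rintro ⟨-, h⟩ i hi j hj u v hu hv
    have hb : Below (p + q + s + 2) n (p + 1) (p + q + 2)
        (A _ _ (⟨i, hi⟩ : Fin n) (⟨j, by omega⟩ : Fin (p + q + s + 2)))
        (A _ _ (⟨i, hi⟩ : Fin n) (⟨j + 1, by omega⟩ : Fin (p + q + s + 2))) :=
      Relation.TransGen.single ⟨⟨i, hi⟩, ⟨j, by omega⟩, ⟨j + 1, by omega⟩,
        Fin.lt_def.2 (Nat.lt_succ_self j), rfl, rfl⟩
    have h1 := h _ _ hb
    beta_reduce at h1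
    rw [eqv_A, eqv_A] at h1
    have e1 : pos p q s n (⟨i, hi⟩, ⟨j, by omega⟩) = u := Fin.ext hu.symm
    have e2 : pos p q s n (⟨i, hi⟩, ⟨j + 1, by omega⟩) = v := Fin.ext hv.symm
    rw [e1, e2] at h1
    exact h1
  · intro h
    refine ⟨isStrictTotalOrder_perm _ w, fun x y hxy => ?_⟩
    have hstep : ∀ (i : Fin n) (k : ℕ) (j j' : Fin (p + q + s + 2)), (j' : ℕ) = j + k + 1 →
        w (pos p q s n (i, j)) < w (pos p q s n (i, j')) := by
      intro i k
      induction k with
      | zero =>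
        intro j j' hjj
        exact h i i.2 j (by have := j'.2; omega) _ _ rfl (by
          show cpos p q s j' + _ = _
          rw [hjj])
      | succ k ih =>
        intro j j' hjj
        have hlt : (j : ℕ) + k + 1 < p + q + s + 2 := by have := j'.2; omega
        refine lt_trans (ih j ⟨j + k + 1, hlt⟩ rfl) ?_
        exact h i i.2 (j + k + 1) (by have := j'.2; omega) _ _ rfl (by
          show cpos p q s j' + _ = _
          rw [hjj]
          rfl)
    induction hxy with
    | single hb =>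
      obtain ⟨i, j, j', hjj, rfl, rfl⟩ := hb
      beta_reduce
      rw [eqv_A, eqv_A]
      refine hstep i (j' - j - 1) j j' ?_
      have := Fin.lt_def.1 hjj
      omega
    | tail _ hb ih =>
      obtain ⟨i, j, j', hjj, rfl, rfl⟩ := hb
      refine lt_trans ih ?_
      rw [eqv_A, eqv_A]
      refine hstep i (j' - j - 1) j j' ?_
      have := Fin.lt_def.1 hjj
      omega

lemma ht_perm (hn : 1 ≤ n) (w : Equiv.Perm (Fin (n * (p + q + s + 1) + 1)))
    (x : Elt (p + q + s + 2) n (p + 1) (p + q + 2)) :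
    ht (fun x y => w (eqv p q s n hn x) < w (eqv p q s n hn y)) x = w (eqv p q s n hn x) := by
  unfold ht
  rw [← card_perm_lt w (eqv p q s n hn x)]
  rw [Nat.card_congr ((eqv p q s n hn).subtypeEquiv (q := fun j => w j < w (eqv p q s n hn x))
    (fun _ => Iff.rfl)), Nat.card_eq_fintype_card, Fintype.card_subtype]

lemma card_elt (hn : 1 ≤ n) : Nat.card (Elt (p + q + s + 2) n (p + 1) (p + q + 2)) =
    n * (p + q + s + 1) + 1 := by
  rw [Nat.card_congr (eqv p q s n hn), Nat.card_fin]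

lemma isX_pos (hn : 1 ≤ n) {i : ℕ} {x : Elt (p + q + s + 2) n (p + 1) (p + q + 2)}
    (hx : IsX (p + q + s + 2) n (p + 1) (p + q + 2) i x) :
    ((eqv p q s n hn x : Fin _) : ℕ) = i * (p + q + s + 1) := by
  have c1 : cpos p q s (p + q + 1) = p + q + s + 1 := by
    unfold cpos; split_ifs <;> omega
  have c2 : cpos p q s p = 0 := by
    unfold cpos; split_ifs <;> omega
  rcases hx with ⟨k, j, hk, hj, rfl⟩ | ⟨k, j, hk, hj, rfl⟩
  · rw [eqv_A]
    show cpos p q s j + k * (p + q + s + 1) = _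
    have : (j : ℕ) = p := by omega
    rw [this, c2, hk, Nat.zero_add]
  · rw [eqv_A]
    show cpos p q s j + k * (p + q + s + 1) = _
    have : (j : ℕ) = p + q + 1 := by omega
    rw [this, c1, ← hk]
    ring

/-- the relation of a permutation -/
def Psi (p q s n : ℕ) (hn : 1 ≤ n) (w : Equiv.Perm (Fin (n * (p + q + s + 1) + 1))) :
    Elt (p + q + s + 2) n (p + 1) (p + q + 2) → Elt (p + q + s + 2) n (p + 1) (p + q + 2) → Prop :=
  fun x y => w (eqv p q s n hn x) < w (eqv p q s n hn y)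

lemma Psi_inj (hn : 1 ≤ n) : Injective (Psi p q s n hn) := by
  intro w w' h
  refine perm_unique fun i j => ?_
  have := congrFun (congrFun h ((eqv p q s n hn).symm i)) ((eqv p q s n hn).symm j)
  unfold Psi at this
  simp only [Equiv.apply_symm_apply] at this
  exact iff_of_eq this

lemma exists_Psi (hn : 1 ≤ n) {r : Elt (p + q + s + 2) n (p + 1) (p + q + 2) →
    Elt (p + q + s + 2) n (p + 1) (p + q + 2) → Prop}
    (hr : IsLinExt (p + q + s + 2) n (p + 1) (p + q + 2) r) : ∃ w, Psi p q s n hn w = r := by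
  obtain ⟨w, hw⟩ := exists_perm (eqv p q s n hn) r hr.1
  refine ⟨w, ?_⟩
  funext x y
  exact propext (hw x y).symm

lemma numLin_eq (hn : 1 ≤ n) :
    numLin (p + q + s + 2) n (p + 1) (p + q + 2) = nResp p q s n := by
  unfold numLin
  have h1 : {r | IsLinExt (p + q + s + 2) n (p + 1) (p + q + 2) r} = Psi p q s n hn ''
      (Finset.univ.filter (fun w : Equiv.Perm (Fin (n * (p + q + s + 1) + 1)) =>
        RelResp p q s n _ (fun u v => w u < w v)) : Finset _) := by
    ext r
    simp only [Set.mem_ofPred_eq, Finset.coe_filter, Finset.mem_univ, true_and, Set.mem_image]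
    constructor
    · intro hr
      obtain ⟨w, rfl⟩ := exists_Psi hn hr
      exact ⟨w, (linExt_iff hn w).1 hr, rfl⟩
    · rintro ⟨w, hw, rfl⟩
      exact (linExt_iff hn w).2 hw
  have h2 : Nat.card {r // IsLinExt (p + q + s + 2) n (p + 1) (p + q + 2) r} =
      Set.ncard {r | IsLinExt (p + q + s + 2) n (p + 1) (p + q + 2) r} := rfl
  rw [h2, h1, Set.ncard_image_of_injective _ (Psi_inj hn), Set.ncard_coe_finset]
  rfl

instance {m n a b : ℕ} : Finite (Elt m n a b) := by unfold Elt; infer_instance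

lemma card_perm_lt_gen {N : ℕ} (w : Equiv.Perm (Fin N)) (u : Fin N)
    (inst : DecidablePred (fun j => w j < w u)) :
    (@Finset.filter _ (fun j => w j < w u) inst Finset.univ).card = w u := by
  convert card_perm_lt w u

lemma num_le (hn : 1 ≤ n) (ε : ℝ) :
    numLin (p + q + s + 2) n (p + 1) (p + q + 2) ≤
      numClose (p + q + s + 2) n (p + 1) (p + q + 2) ε +
        nBad p q s n ε (fun i => f (p + q + s + 2) (p + 1) (p + q + 2) (((i : ℝ) + 1) / (n + 2))) := by
  unfold numLin numClose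
  set F : ℕ → ℝ := fun i => f (p + q + s + 2) (p + 1) (p + q + 2) (((i : ℝ) + 1) / (n + 2)) with hF
  have h1 : {r | IsLinExt (p + q + s + 2) n (p + 1) (p + q + 2) r} ⊆
      {r | IsLinExt (p + q + s + 2) n (p + 1) (p + q + 2) r ∧
        Close (p + q + s + 2) n (p + 1) (p + q + 2) ε r} ∪ Psi p q s n hn ''
      (Finset.univ.filter (fun w : Equiv.Perm (Fin (n * (p + q + s + 1) + 1)) =>
        RelBad p q s n _ ε F (fun u v => w u < w v)) : Finset _) := by
    intro r hr
    by_cases hc : Close (p + q + s + 2) n (p + 1) (p + q + 2) ε r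
    · exact Or.inl ⟨hr, hc⟩
    · right
      obtain ⟨w, rfl⟩ := exists_Psi hn hr
      simp only [Finset.coe_filter, Finset.mem_univ, true_and, Set.mem_image, Set.mem_ofPred_eq]
      refine ⟨w, ⟨(linExt_iff hn w).1 hr, ?_⟩, rfl⟩
      unfold Close at hc
      push Not at hc
      obtain ⟨i, hi, x, hx, hbad⟩ := hc
      refine ⟨i, hi, eqv p q s n hn x, isX_pos hn hx, ?_⟩
      beta_reduce
      rw [card_perm_lt_gen]
      rw [card_elt hn, show ht (Psi p q s n hn w) x = w (eqv p q s n hn x) from ht_perm hn w x]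
        at hbad
      exact hbad
  have h2 : Nat.card {r // IsLinExt (p + q + s + 2) n (p + 1) (p + q + 2) r} =
      Set.ncard {r | IsLinExt (p + q + s + 2) n (p + 1) (p + q + 2) r} := rfl
  have h3 : Nat.card {r // IsLinExt (p + q + s + 2) n (p + 1) (p + q + 2) r ∧
      Close (p + q + s + 2) n (p + 1) (p + q + 2) ε r} =
      Set.ncard {r | IsLinExt (p + q + s + 2) n (p + 1) (p + q + 2) r ∧
        Close (p + q + s + 2) n (p + 1) (p + q + 2) ε r} := rfl
  rw [h2, h3]
  refine (Set.ncard_le_ncard h1 (Set.toFinite _)).trans ((Set.ncard_union_le _ _).trans ?_)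
  rw [Set.ncard_image_of_injective _ (Psi_inj hn), Set.ncard_coe_finset]
  exact le_rfl

lemma close_le (ε : ℝ) (m n a b : ℕ) : numClose m n a b ε ≤ numLin m n a b := by
  unfold numLin numClose
  exact Set.ncard_le_ncard (s := {r | IsLinExt m n a b r ∧ Close m n a b ε r})
    (t := {r | IsLinExt m n a b r}) (fun r hr => hr.1) (Set.toFinite _)

lemma g_eq (p q s : ℕ) (t : ℝ) :
    g (p + q + s + 2) (p + 1) (p + q + 2) t = G p q s t / G p q s 1 := by
  have h1 : alpha (p + 1) (p + q + 2) - 1 = (p : ℝ) / (q + 1) := by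
    unfold alpha
    push_cast
    rw [add_sub_cancel_right]
    congr 1 <;> ring
  have h2 : beta (p + q + s + 2) (p + 1) (p + q + 2) - 1 = (s : ℝ) / (q + 1) := by
    unfold beta
    push_cast
    rw [add_sub_cancel_right]
    congr 1 <;> ring
  unfold g G w
  rw [h1, h2]

lemma f_spec (hG : StmG) (p q s : ℕ) : ∀ v ∈ Set.Icc (0 : ℝ) 1,
    f (p + q + s + 2) (p + 1) (p + q + 2) v ∈ Set.Icc (0 : ℝ) 1 ∧
      G p q s (f (p + q + s + 2) (p + 1) (p + q + 2) v) / G p q s 1 = v := by
  intro v hv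
  obtain ⟨-, hder, -, hmono, h0, hB, -⟩ := hG p q s
  have hcont : Continuous (G p q s) := continuous_iff_continuousAt.2 fun x => (hder x).continuousAt
  have hg : Continuous (g (p + q + s + 2) (p + 1) (p + q + 2)) := by
    have : g (p + q + s + 2) (p + 1) (p + q + 2) = fun t => G p q s t / G p q s 1 := by
      funext t; exact g_eq p q s t
    rw [this]
    exact hcont.div_const _
  have him : v ∈ g (p + q + s + 2) (p + 1) (p + q + 2) '' Set.Icc 0 1 := by
    refine intermediate_value_Icc zero_le_one hg.continuousOn ?_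
    rw [g_eq, g_eq, h0, zero_div, div_self hB.ne']
    exact hv
  have h1 := Function.invFunOn_mem him
  have h2 := Function.invFunOn_eq him
  refine ⟨h1, ?_⟩
  rw [← g_eq]
  exact h2

theorem main (hE : StmE) (hS : StmS) (hT : StmT) (hM : StmM) (hG : StmG) (m a b : ℕ)
    (ha : 1 ≤ a) (hab : a < b) (hb : b ≤ m) (ε : ℝ) (hε : 0 < ε) :
    Filter.Tendsto (fun n : ℕ => (numClose m n a b ε : ℝ) / numLin m n a b) Filter.atTop (𝓝 1) := by
  obtain ⟨p, rfl⟩ : ∃ p, a = p + 1 := ⟨a - 1, by omega⟩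
  obtain ⟨q, rfl⟩ : ∃ q, b = p + q + 2 := ⟨b - (p + 2), by omega⟩
  obtain ⟨s, rfl⟩ : ∃ s, m = p + q + s + 2 := ⟨m - (p + q + 2), by omega⟩
  have hct := count_tendsto hE hS hT hM p q s ε hε
    (fun n i => f (p + q + s + 2) (p + 1) (p + q + 2) (((i : ℝ) + 1) / (n + 2)))
    (hF_of hG p q s _ (f_spec hG p q s))
  have hlow := (tendsto_const_nhds (x := (1 : ℝ)) (f := Filter.atTop)).sub hct
  rw [sub_zero] at hlow
  refine tendsto_of_tendsto_of_tendsto_of_le_of_le' hlow tendsto_const_nhds ?_ ?_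
  · filter_upwards [Filter.eventually_ge_atTop 1] with n hn
    have h1 := num_le (p := p) (q := q) (s := s) hn ε
    have h2 := nResp_pos hE n (p := p) (q := q) (s := s)
    rw [numLin_eq hn] at h1 ⊢
    have h3 : (0 : ℝ) < nResp p q s n := by exact_mod_cast h2
    rw [sub_le_iff_le_add, ← add_div, le_div_iff₀ h3, one_mul]
    exact_mod_cast h1
  · refine Filter.Eventually.of_forall fun n => ?_
    have h1 : (numClose (p + q + s + 2) n (p + 1) (p + q + 2) ε : ℝ) ≤
        numLin (p + q + s + 2) n (p + 1) (p + q + 2) := by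
      exact_mod_cast close_le ε _ _ _ _
    exact div_le_one_of_le₀ h1 (Nat.cast_nonneg _)

end

end

end R556.CLU
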