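import Pool.Agent.R556.CLU.Defs

open MeasureTheory Set Function
open scoped ENNReal unitInterval

namespace R556.CLU

theorem gg_cont (p q s : ℕ) : Continuous (w p q s) := by
  unfold w
  refine Continuous.mul ?_ ?_
  · exact continuous_id.rpow_const (fun x => Or.inr (by positivity))
  · exact (continuous_const.sub continuous_id).rpow_const (fun x => Or.inr (by positivity))

theorem gg_deriv (p q s : ℕ) (x : ℝ) : HasDerivAt (G p q s) (w p q s x) x :=
  intervalIntegral.integral_hasDerivAt_right
    ((gg_cont p q s).intervalIntegrable _ _)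
    ((gg_cont p q s).stronglyMeasurableAtFilter _ _) (gg_cont p q s).continuousAt

theorem gg_bd (p q s : ℕ) (x : ℝ) (h0 : 0 ≤ x) (h1 : x ≤ 1) : 0 ≤ w p q s x ∧ w p q s x ≤ 1 := by
  have hx' : 0 ≤ 1 - x := by linarith
  refine ⟨mul_nonneg (Real.rpow_nonneg h0 _) (Real.rpow_nonneg hx' _), ?_⟩
  have a1 : x ^ ((p : ℝ) / (q + 1)) ≤ 1 := Real.rpow_le_one h0 h1 (by positivity)
  have a2 : (1 - x) ^ ((s : ℝ) / (q + 1)) ≤ 1 := Real.rpow_le_one hx' (by linarith) (by positivity)
  exact mul_le_one₀ a1 (Real.rpow_nonneg hx' _) a2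

theorem gg_mono (p q s : ℕ) : StrictMonoOn (G p q s) (Set.Icc 0 1) := by
  refine strictMonoOn_of_deriv_pos (convex_Icc 0 1) ?_ ?_
  · exact fun x _ => (gg_deriv p q s x).continuousAt.continuousWithinAt
  · intro x hx
    rw [interior_Icc] at hx
    rw [(gg_deriv p q s x).deriv]
    exact mul_pos (Real.rpow_pos_of_pos hx.1 _) (Real.rpow_pos_of_pos (by linarith [hx.2]) _)

theorem gg_zero (p q s : ℕ) : G p q s 0 = 0 := by
  unfold G
  exact intervalIntegral.integral_same

theorem gg_one (p q s : ℕ) : 0 < G p q s 1 := by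
  rw [← gg_zero p q s]
  exact gg_mono p q s (by simp) (by simp) one_pos

theorem stmG : StmG := by
  intro p q s
  refine ⟨gg_cont p q s, gg_deriv p q s, gg_bd p q s, gg_mono p q s, gg_zero p q s, gg_one p q s, ?_⟩
  intro ε hε
  have hc : Continuous (fun κ : ℝ => G p q s (1 - κ) - G p q s (2 * κ)) := by
    have hG : Continuous (G p q s) := continuous_iff_continuousAt.2 fun x => (gg_deriv p q s x).continuousAt
    exact (hG.comp (continuous_const.sub continuous_id)).sub (hG.comp (continuous_const.mul continuous_id))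
  have h0 : (1 - ε) * G p q s 1 < (fun κ : ℝ => G p q s (1 - κ) - G p q s (2 * κ)) 0 := by
    simp only [sub_zero, mul_zero, gg_zero]
    have := gg_one p q s
    nlinarith
  have hev : ∀ᶠ κ : ℝ in nhds 0, (1 - ε) * G p q s 1 < G p q s (1 - κ) - G p q s (2 * κ) :=
    hc.continuousAt.eventually (lt_mem_nhds h0)
  obtain ⟨δ, hδ, hball⟩ := Metric.eventually_nhds_iff.1 hev
  refine ⟨min (δ / 2) (1 / 8), by positivity, lt_of_le_of_lt (min_le_right _ _) (by norm_num), ?_⟩
  refine (hball ?_).le
  rw [Real.dist_eq, sub_zero, abs_of_pos (by positivity)]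
  exact lt_of_le_of_lt (min_le_left _ _) (by linarith)

end R556.CLU
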