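import Pool.Agent.R556.CLU.Defs

/-! CLU-K: kernel inequalities -/

open MeasureTheory Set Function
open scoped ENNReal unitInterval

namespace R556.CLU

noncomputable section

lemma k_cont (p q s : ℕ) : Continuous (w p q s) := by
  unfold w
  have h1 : 0 ≤ (p : ℝ) / (q + 1) := by positivity
  have h2 : 0 ≤ (s : ℝ) / (q + 1) := by positivity
  exact (Real.continuous_rpow_const h1).mul
    ((Real.continuous_rpow_const h2).comp (continuous_const.sub continuous_id))

lemma k_Gsub (p q s : ℕ) (x y : ℝ) : G p q s y - G p q s x = ∫ u in x..y, w p q s u := by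
  unfold G
  exact intervalIntegral.integral_interval_sub_left
    ((k_cont p q s).intervalIntegrable _ _) ((k_cont p q s).intervalIntegrable _ _)

lemma k_pow (p q : ℕ) {x : ℝ} (hx : 0 ≤ x) : (x ^ ((p : ℝ) / (q + 1))) ^ (q + 1) = x ^ p := by
  rw [← Real.rpow_natCast (x ^ ((p : ℝ) / (q + 1))), ← Real.rpow_mul hx]
  have : (p : ℝ) / (q + 1) * ((q + 1 : ℕ) : ℝ) = p := by push_cast; field_simp
  rw [this, Real.rpow_natCast]

theorem stmK : StmK := by
  constructor
  · intro p q s x y hx hxy hy
    obtain ⟨c, hc⟩ : ∃ c : ℝ, c = x ^ ((p : ℝ) / (q + 1)) * (1 - y) ^ ((s : ℝ) / (q + 1)) :=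
      ⟨_, rfl⟩
    have hc0 : 0 ≤ c := by
      rw [hc]
      exact mul_nonneg (Real.rpow_nonneg hx _) (Real.rpow_nonneg (by linarith) _)
    have hcw : ∀ u ∈ Icc x y, c ≤ w p q s u := by
      intro u hu
      rw [hc]
      unfold w
      apply mul_le_mul
      · exact Real.rpow_le_rpow hx hu.1 (by positivity)
      · exact Real.rpow_le_rpow (by linarith) (by linarith [hu.2]) (by positivity)
      · exact Real.rpow_nonneg (by linarith) _
      · exact Real.rpow_nonneg (by linarith [hu.1]) _
    have hG : c * (y - x) ≤ G p q s y - G p q s x := by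
      rw [k_Gsub]
      have h1 : ∫ _u in x..y, c = c * (y - x) := by
        rw [intervalIntegral.integral_const, smul_eq_mul, mul_comm]
      rw [← h1]
      exact intervalIntegral.integral_mono_on hxy (by simp)
        ((k_cont p q s).intervalIntegrable _ _) hcw
    have hcq : c ^ (q + 1) = x ^ p * (1 - y) ^ s := by
      rw [hc, mul_pow, k_pow p q hx, k_pow s q (by linarith)]
    calc x ^ p * (y - x) ^ q * (1 - y) ^ s = c ^ (q + 1) * (y - x) ^ q := by rw [hcq]; ring
      _ = c * (c * (y - x)) ^ q := by rw [mul_pow]; ring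
      _ ≤ w p q s y * (G p q s y - G p q s x) ^ q := by
        apply mul_le_mul (hcw y ⟨hxy, le_rfl⟩)
        · exact pow_le_pow_left₀ (mul_nonneg hc0 (by linarith)) hG q
        · exact pow_nonneg (mul_nonneg hc0 (by linarith)) q
        · exact le_trans hc0 (hcw y ⟨hxy, le_rfl⟩)
  · intro p q s κ x y hκ hx hxy hy
    have hx0 : 0 < x := by linarith
    have hy0 : 0 < 1 - y := by linarith
    obtain ⟨c, hc⟩ : ∃ c : ℝ, c = x ^ ((p : ℝ) / (q + 1)) * (1 - y) ^ ((s : ℝ) / (q + 1)) :=
      ⟨_, rfl⟩
    have hc0 : 0 ≤ c := by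
      rw [hc]
      exact mul_nonneg (Real.rpow_nonneg hx0.le _) (Real.rpow_nonneg (by linarith) _)
    obtain ⟨e, he⟩ : ∃ e : ℝ, e = Real.exp ((y - x) / κ * ((p : ℝ) / (q + 1))) *
      Real.exp ((y - x) / κ * ((s : ℝ) / (q + 1))) := ⟨_, rfl⟩
    have he0 : 0 < e := by rw [he]; positivity
    have hwc : ∀ u ∈ Icc x y, w p q s u ≤ c * e := by
      intro u hu
      rw [hc, he]
      unfold w
      have hd : 0 ≤ y - x := by linarith
      have h1 : u ≤ x * Real.exp ((y - x) / κ) := by
        have h2 : 1 + (y - x) / κ ≤ Real.exp ((y - x) / κ) := by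
          have := Real.add_one_le_exp ((y - x) / κ)
          linarith
        have h3 : (y - x) ≤ x * ((y - x) / κ) := by
          rw [mul_div_assoc', le_div_iff₀ hκ]
          nlinarith
        have h4 := mul_le_mul_of_nonneg_left h2 hx0.le
        have h5 := hu.2
        nlinarith
      have h1' : 1 - u ≤ (1 - y) * Real.exp ((y - x) / κ) := by
        have h2 : 1 + (y - x) / κ ≤ Real.exp ((y - x) / κ) := by
          have := Real.add_one_le_exp ((y - x) / κ)
          linarith
        have h3 : (y - x) ≤ (1 - y) * ((y - x) / κ) := by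
          rw [mul_div_assoc', le_div_iff₀ hκ]
          nlinarith
        have h4 := mul_le_mul_of_nonneg_left h2 hy0.le
        have h5 := hu.1
        nlinarith
      have h6 : u ^ ((p : ℝ) / (q + 1)) ≤
          x ^ ((p : ℝ) / (q + 1)) * Real.exp ((y - x) / κ * ((p : ℝ) / (q + 1))) := by
        rw [Real.exp_mul, ← Real.mul_rpow hx0.le (Real.exp_pos _).le]
        exact Real.rpow_le_rpow (by linarith [hu.1]) h1 (by positivity)
      have h7 : (1 - u) ^ ((s : ℝ) / (q + 1)) ≤
          (1 - y) ^ ((s : ℝ) / (q + 1)) * Real.exp ((y - x) / κ * ((s : ℝ) / (q + 1))) := by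
        rw [Real.exp_mul, ← Real.mul_rpow hy0.le (Real.exp_pos _).le]
        exact Real.rpow_le_rpow (by linarith [hu.2]) h1' (by positivity)
      calc u ^ ((p : ℝ) / (q + 1)) * (1 - u) ^ ((s : ℝ) / (q + 1))
          ≤ (x ^ ((p : ℝ) / (q + 1)) * Real.exp ((y - x) / κ * ((p : ℝ) / (q + 1)))) *
            ((1 - y) ^ ((s : ℝ) / (q + 1)) * Real.exp ((y - x) / κ * ((s : ℝ) / (q + 1)))) :=
            mul_le_mul h6 h7 (Real.rpow_nonneg (by linarith [hu.2]) _)
              (mul_nonneg (Real.rpow_nonneg hx0.le _) (Real.exp_pos _).le)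
        _ = _ := by ring
    have hG : G p q s y - G p q s x ≤ c * e * (y - x) := by
      rw [k_Gsub]
      have h1 : ∫ _u in x..y, c * e = c * e * (y - x) := by
        rw [intervalIntegral.integral_const, smul_eq_mul, mul_comm]
      rw [← h1]
      exact intervalIntegral.integral_mono_on hxy
        ((k_cont p q s).intervalIntegrable _ _) (by simp) hwc
    have hG0 : 0 ≤ G p q s y - G p q s x := by
      rw [k_Gsub]
      apply intervalIntegral.integral_nonneg hxy
      intro u hu
      unfold w
      exact mul_nonneg (Real.rpow_nonneg (by linarith [hu.1]) _)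
        (Real.rpow_nonneg (by linarith [hu.2]) _)
    have hcq : c ^ (q + 1) = x ^ p * (1 - y) ^ s := by
      rw [hc, mul_pow, k_pow p q hx0.le, k_pow s q (by linarith)]
    have heq : e ^ (q + 1) = Real.exp (((p : ℝ) + s) / κ * (y - x)) := by
      rw [he, ← Real.exp_add, ← Real.exp_nat_mul]
      congr 1
      push_cast
      field_simp
    have hmain : w p q s y * (G p q s y - G p q s x) ^ q ≤
        (x ^ p * (y - x) ^ q * (1 - y) ^ s) * Real.exp (((p : ℝ) + s) / κ * (y - x)) := by
      calc w p q s y * (G p q s y - G p q s x) ^ q ≤ (c * e) * (c * e * (y - x)) ^ q := by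
            apply mul_le_mul (hwc y ⟨hxy, le_rfl⟩)
            · exact pow_le_pow_left₀ hG0 hG q
            · exact pow_nonneg hG0 q
            · exact mul_nonneg hc0 he0.le
        _ = c ^ (q + 1) * (y - x) ^ q * e ^ (q + 1) := by rw [mul_pow, mul_pow]; ring
        _ = _ := by rw [hcq, heq]; ring
    have hneg : Real.exp (-(((p : ℝ) + s) / κ) * (y - x)) =
        (Real.exp (((p : ℝ) + s) / κ * (y - x)))⁻¹ := by
      rw [← Real.exp_neg]
      congr 1
      ring
    rw [hneg, inv_mul_le_iff₀ (Real.exp_pos _)]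
    linarith

end

end R556.CLU
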