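import Pool.Agent.R556.CLU.U

/-! CLU-L: lower bound of the iterates (helper560). -/

open MeasureTheory Set Function
open scoped ENNReal unitInterval

namespace R556.CLU

noncomputable section

open Classical R556.CP

open UL in
theorem stmL (hK : StmK) (hG : StmG) (hB : StmB) : StmL := by
  intro p q s k κ
  induction k with
  | zero =>
    intro x hκ hκ2 hx1 hx2
    simp only [Qn, Function.iterate_zero, id_eq, pow_zero, mul_zero, Nat.factorial_zero,
      Nat.cast_one, div_one, mul_one, one_mul]
    rw [ENNReal.ofReal_le_one, Real.exp_le_one_iff]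
    have h1 : 0 ≤ ((p : ℝ) + s) / κ := by positivity
    have h2 : 0 ≤ 1 - κ - (x : ℝ) := by linarith
    have := mul_nonneg h1 h2
    linarith
  | succ k ih =>
    intro x hκ hκ2 hx1 hx2
    rw [Qn_succ]
    have hw := (hG p q s).2.2.1
    have hx0 := x.2.1
    set A : ℝ := ((p : ℝ) + s) / κ with hA
    set c : ℝ := Real.exp (-A * (1 - κ - x)) * ((q.factorial : ℝ) ^ k / ((q + 1) * k).factorial)
      with hc
    have hc0 : 0 ≤ c := by positivity
    set F : ℝ → ℝ := fun y => c * (w p q s y * (G p q s y - G p q s x) ^ q *
      (G p q s (1 - κ) - G p q s y) ^ ((q + 1) * k)) with hF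
    have hFc : Continuous F := by
      have h1 := (hG p q s).1
      have h2 := G_cont hG p q s
      rw [hF]
      exact continuous_const.mul ((h1.mul ((h2.sub continuous_const).pow _)).mul
        ((continuous_const.sub h2).pow _))
    have hF0 : ∀ y, (x : ℝ) ≤ y → y ≤ 1 - κ → 0 ≤ F y := by
      intro y h1 h2
      have a1 := G_mono hG p q s hx0 h1 (by linarith)
      have a2 := G_mono hG p q s (hx0.trans h1) h2 (by linarith)
      have a3 := (hw y (hx0.trans h1) (by linarith)).1
      rw [hF]
      positivity
    calc _ ≤ ENNReal.ofReal (∫ y in (x : ℝ)..(1 - κ), F y) := by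
          apply ENNReal.ofReal_le_ofReal
          apply le_of_eq
          rw [hF, step_int hB, hc]
          have := Nat.factorial_ne_zero ((q + 1) * k)
          field_simp
          ring_nf
      _ = ∫⁻ y : I, (if x < y ∧ (y : ℝ) ≤ 1 - κ then ENNReal.ofReal (F y) else 0) :=
          (lint_seg x (1 - κ) hx2 (by linarith) F hFc hF0).symm
      _ ≤ _ := by
          refine lintegral_mono fun y => ?_
          dsimp only
          unfold ker
          by_cases hxy : x < y ∧ (y : ℝ) ≤ 1 - κ
          · have hxy' : (x : ℝ) < y := hxy.1
            rw [if_pos hxy, if_pos hxy.1]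
            have h1 := hK.2 p q s κ x y hκ hx1 hxy'.le hxy.2
            have a1 := G_mono hG p q s hx0 hxy'.le y.2.2
            have a3 := (hw y y.2.1 y.2.2).1
            have a2 := G_mono hG p q s y.2.1 hxy.2 (by linarith)
            refine le_trans ?_ (mul_le_mul' (ENNReal.ofReal_le_ofReal h1)
              (ih y hκ hκ2 (by linarith) hxy.2))
            rw [← ENNReal.ofReal_mul (by positivity)]
            apply ENNReal.ofReal_le_ofReal
            apply le_of_eq
            have e1 : Real.exp (-A * (1 - κ - x)) =
                Real.exp (-A * (y - x)) * Real.exp (-A * (1 - κ - y)) := by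
              rw [← Real.exp_add]; congr 1; ring
            rw [hF, hc, e1]
            ring
          · rw [if_neg hxy]
            exact zero_le

end

end R556.CLU
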