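import Pool.Agent.R556.CLU.Defs

/-!
# CLU-M (helper165): exponential concentration for the transfer operators
-/

open MeasureTheory Set Function
open scoped ENNReal unitInterval

namespace R556.CLU

noncomputable section

open Classical R556.CP

namespace MM

lemma ker_meas (p q s : ℕ) : Measurable (fun z : I × I => ker p q s z.1 z.2) := by
  unfold ker
  apply Measurable.ite (measurableSet_lt measurable_fst measurable_snd)
  · apply Measurable.ennreal_ofReal
    fun_prop
  · exact measurable_const

lemma Q_meas (p q s : ℕ) {h : I → ℝ≥0∞} (hh : Measurable h) : Measurable (Q p q s h) := by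
  unfold Q
  exact ((ker_meas p q s).mul (hh.comp measurable_snd)).lintegral_prod_right'

lemma Qn_meas (p q s k : ℕ) {h : I → ℝ≥0∞} (hh : Measurable h) : Measurable (Qn p q s k h) := by
  unfold Qn
  induction k with
  | zero => simpa using hh
  | succ k ih =>
    rw [Function.iterate_succ_apply']
    exact Q_meas p q s ih

lemma Q_mono (p q s : ℕ) {h h' : I → ℝ≥0∞} (hh : ∀ y, h y ≤ h' y) (x : I) :
    Q p q s h x ≤ Q p q s h' x := by
  unfold Q
  apply lintegral_mono
  intro y
  exact mul_le_mul_right (hh y) _

lemma Qn_mono (p q s k : ℕ) {h h' : I → ℝ≥0∞} (hh : ∀ y, h y ≤ h' y) (x : I) :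
    Qn p q s k h x ≤ Qn p q s k h' x := by
  unfold Qn
  induction k generalizing x with
  | zero => simpa using hh x
  | succ k ih =>
    rw [Function.iterate_succ_apply', Function.iterate_succ_apply']
    exact Q_mono p q s ih x

lemma Qn_add (p q s a b : ℕ) (h : I → ℝ≥0∞) (x : I) :
    Qn p q s (a + b) h x = Qn p q s a (Qn p q s b h) x := by
  unfold Qn
  rw [Function.iterate_add_apply]

lemma lint_le {f : I → ℝ≥0∞} {U : ℝ≥0∞} (h : ∀ x, f x ≤ U) : ∫⁻ x : I, f x ≤ U := by
  calc ∫⁻ x : I, f x ≤ ∫⁻ _ : I, U := lintegral_mono h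
    _ = U := by simp

/-- lower bound of the denominator -/
lemma lower (hG : StmG) (hL : StmL) (p q s : ℕ) (e κ : ℝ) (hκ : 0 < κ) (hκ4 : κ < 1 / 4)
    (he : 0 < e) (hc : e * G p q s 1 ≤ G p q s (1 - κ) - G p q s (2 * κ)) (n : ℕ) :
    ENNReal.ofReal (κ * ((q.factorial : ℝ) ^ n * Real.exp (-(((p : ℝ) + s) / κ)) *
      ((e * G p q s 1) ^ ((q + 1) * n) / ((q + 1) * n).factorial))) ≤
    ∫⁻ x : I, Qn p q s n (fun _ => 1) x := by
  obtain ⟨hw, hd, hw01, hmono, hG0, hG1, _⟩ := hG p q s
  let a : I := ⟨κ, hκ.le, by linarith⟩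
  let b : I := ⟨2 * κ, by linarith, by linarith⟩
  have hvol : volume (Icc a b) = ENNReal.ofReal κ := by
    rw [unitInterval.volume_Icc]
    congr 1
    show 2 * κ - κ = κ
    ring
  have hpt : ∀ x ∈ Icc a b, ENNReal.ofReal ((q.factorial : ℝ) ^ n *
      Real.exp (-(((p : ℝ) + s) / κ)) *
      ((e * G p q s 1) ^ ((q + 1) * n) / ((q + 1) * n).factorial)) ≤ Qn p q s n (fun _ => 1) x := by
    intro x hx
    have hx1 : κ ≤ (x : ℝ) := hx.1
    have hx2 : (x : ℝ) ≤ 2 * κ := hx.2
    refine le_trans ?_ (hL p q s n κ x hκ (by linarith) hx1 (by linarith))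
    apply ENNReal.ofReal_le_ofReal
    have h1 : Real.exp (-(((p : ℝ) + s) / κ)) ≤
        Real.exp (-(((p : ℝ) + s) / κ) * (1 - κ - x)) := by
      apply Real.exp_le_exp.2
      have h2 : 0 ≤ ((p : ℝ) + s) / κ := by positivity
      have h3 : (1 - κ - (x : ℝ)) ≤ 1 := by linarith
      nlinarith
    have h4 : e * G p q s 1 ≤ G p q s (1 - κ) - G p q s x := by
      have h5 : G p q s x ≤ G p q s (2 * κ) :=
        hmono.monotoneOn ⟨by linarith, by linarith⟩ ⟨by linarith, by linarith⟩ hx2
      linarith
    have h6 : 0 ≤ e * G p q s 1 := by positivity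
    have h7 : (e * G p q s 1) ^ ((q + 1) * n) ≤ (G p q s (1 - κ) - G p q s x) ^ ((q + 1) * n) :=
      pow_le_pow_left₀ h6 h4 _
    have h8 : (e * G p q s 1) ^ ((q + 1) * n) / ((q + 1) * n).factorial ≤
        (G p q s (1 - κ) - G p q s x) ^ ((q + 1) * n) / ((q + 1) * n).factorial :=
      div_le_div_of_nonneg_right h7 (by positivity)
    apply mul_le_mul _ h8 (by positivity) (by positivity)
    exact mul_le_mul_of_nonneg_left h1 (by positivity)
  calc ENNReal.ofReal (κ * ((q.factorial : ℝ) ^ n * Real.exp (-(((p : ℝ) + s) / κ)) *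
        ((e * G p q s 1) ^ ((q + 1) * n) / ((q + 1) * n).factorial)))
      = ENNReal.ofReal ((q.factorial : ℝ) ^ n * Real.exp (-(((p : ℝ) + s) / κ)) *
        ((e * G p q s 1) ^ ((q + 1) * n) / ((q + 1) * n).factorial)) * volume (Icc a b) := by
        rw [hvol, ENNReal.ofReal_mul hκ.le, mul_comm]
    _ = ∫⁻ _ in Icc a b, ENNReal.ofReal ((q.factorial : ℝ) ^ n *
        Real.exp (-(((p : ℝ) + s) / κ)) *
        ((e * G p q s 1) ^ ((q + 1) * n) / ((q + 1) * n).factorial)) := by
        rw [setLIntegral_const]
    _ ≤ ∫⁻ x in Icc a b, Qn p q s n (fun _ => 1) x := setLIntegral_mono' measurableSet_Icc hpt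
    _ ≤ ∫⁻ x : I, Qn p q s n (fun _ => 1) x := setLIntegral_le_lintegral _ _

/-- the probability estimate -/
lemma binom (hC : StmChern) (L a b : ℕ) (hab : a + b = L) (hL : 0 < L) (B g δ t : ℝ) (hB : 0 < B)
    (hg : 0 ≤ g) (hgB : g ≤ B) (hδ : 0 < δ) (hLδ : 2 / δ ≤ L) (ht : δ ≤ |g / B - t|)
    (hta : |(a : ℝ) / L - t| ≤ 1 / L) :
    g ^ a / a.factorial * ((B - g) ^ b / b.factorial) ≤
      B ^ L / L.factorial * Real.exp (-(L * δ ^ 2 / 16)) := by
  have hLr : (0 : ℝ) < L := by exact_mod_cast hL
  have hv0 : 0 ≤ g / B := by positivity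
  have hv1 : g / B ≤ 1 := (div_le_one hB).2 hgB
  have haL : a ≤ L := by omega
  have h1 := hC L a (g / B) hL haL hv0 hv1
  have hb : L - a = b := by omega
  rw [hb] at h1
  have hfac : (L.choose a : ℝ) * a.factorial * b.factorial = L.factorial := by
    have := Nat.choose_mul_factorial_mul_factorial haL
    rw [hb] at this
    exact_mod_cast this
  have ha0 : (0 : ℝ) < a.factorial := by exact_mod_cast a.factorial_pos
  have hb0 : (0 : ℝ) < b.factorial := by exact_mod_cast b.factorial_pos
  have hL0 : (0 : ℝ) < L.factorial := by exact_mod_cast L.factorial_pos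
  have e1 : g ^ a / a.factorial * ((B - g) ^ b / b.factorial)
      = B ^ L / L.factorial * ((L.choose a : ℝ) * (g / B) ^ a * (1 - g / B) ^ b) := by
    have e2 : g ^ a = B ^ a * (g / B) ^ a := by
      rw [← mul_pow, mul_div_cancel₀ _ hB.ne']
    have e3 : (B - g) ^ b = B ^ b * (1 - g / B) ^ b := by
      rw [← mul_pow]
      congr 1
      field_simp
    have e4 : B ^ L = B ^ a * B ^ b := by rw [← pow_add, hab]
    rw [e2, e3, e4, ← hfac]
    have hch : (L.choose a : ℝ) ≠ 0 := by
      intro h
      rw [h, zero_mul, zero_mul] at hfac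
      exact hL0.ne hfac
    field_simp
  rw [e1]
  apply mul_le_mul_of_nonneg_left _ (by positivity)
  refine h1.trans ?_
  apply Real.exp_le_exp.2
  have h2 : δ / 2 ≤ |g / B - (a : ℝ) / L| := by
    have h3 : |g / B - t| ≤ |g / B - (a : ℝ) / L| + |(a : ℝ) / L - t| := abs_sub_le _ _ _
    have h4 : 1 / (L : ℝ) ≤ δ / 2 := by
      rw [div_le_iff₀ hLr]
      rw [div_le_iff₀ hδ] at hLδ
      linarith
    linarith
  have h5 : (δ / 2) ^ 2 ≤ (g / B - (a : ℝ) / L) ^ 2 := by
    rw [← sq_abs (g / B - (a : ℝ) / L)]
    exact pow_le_pow_left₀ (by positivity) h2 2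
  nlinarith

end MM

open MM in
theorem stmM (hG : StmG) (hC : StmChern) (hU : StmU) (hL : StmL) (hV : StmV) : StmM := by
  intro p q s δ hδ
  obtain ⟨hw, hd, hw01, hmono, hG0, hB0, hκex⟩ := hG p q s
  set B : ℝ := G p q s 1 with hB
  have hGc : Continuous (G p q s) := continuous_iff_continuousAt.2 fun x => (hd x).continuousAt
  have hB1 : B ≤ 1 := by
    rw [hB]
    unfold G
    calc ∫ u in (0 : ℝ)..1, w p q s u ≤ ∫ u in (0 : ℝ)..1, (1 : ℝ) := by
          apply intervalIntegral.integral_mono_on zero_le_one (hw.intervalIntegrable _ _)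
            (by simp)
          intro u hu
          exact (hw01 u hu.1 hu.2).2
      _ = 1 := by simp
  have hGnn : ∀ x : I, 0 ≤ G p q s x := by
    intro x
    rw [← hG0]
    exact hmono.monotoneOn ⟨le_refl _, zero_le_one⟩ ⟨x.2.1, x.2.2⟩ x.2.1
  have hGB : ∀ x : I, G p q s x ≤ B := by
    intro x
    exact hmono.monotoneOn ⟨x.2.1, x.2.2⟩ ⟨zero_le_one, le_refl _⟩ x.2.2
  -- the constants
  set e : ℝ := Real.exp (-(δ ^ 2 / 64)) with he
  have he0 : 0 < e := Real.exp_pos _
  have he1 : e < 1 := by
    rw [he, Real.exp_lt_one_iff]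
    have : 0 < δ ^ 2 / 64 := by positivity
    linarith
  obtain ⟨κ, hκ0, hκ4, hκ⟩ := hκex (1 - e) (by linarith)
  have hκ' : e * B ≤ G p q s (1 - κ) - G p q s (2 * κ) := by
    have : (1 - (1 - e)) * B = e * B := by ring
    rw [← this]
    exact hκ
  set P : ℝ := ((p : ℝ) + s) / κ with hP
  set c : ℝ := δ ^ 2 / 64 with hc
  have hc0 : 0 < c := by positivity
  set C1 : ℝ := 128 / δ ^ 2 * (Real.exp P / (κ * B)) * Real.exp (δ ^ 2 / 16) with hC1
  refine ⟨max C1 (Real.exp (c * (1 + 2 / δ))), c, hc0, ?_⟩
  intro n i hn hi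
  set C : ℝ := max C1 (Real.exp (c * (1 + 2 / δ))) with hCd
  obtain ⟨L, hLM⟩ : ∃ L, (q + 1) * n = L + 1 := by
    refine ⟨(q + 1) * n - 1, ?_⟩
    have : 1 ≤ (q + 1) * n := Nat.one_le_iff_ne_zero.2 (by positivity)
    omega
  have hnL : n ≤ L + 1 := by
    rw [← hLM]
    exact Nat.le_mul_of_pos_left n (Nat.succ_pos q)
  by_cases hsmall : (L : ℝ) < 2 / δ
  · -- few `n`
    have hnr : (n : ℝ) ≤ 1 + 2 / δ := by
      have : (n : ℝ) ≤ (L : ℝ) + 1 := by exact_mod_cast hnL
      linarith
    have h1 : (1 : ℝ) ≤ C * Real.exp (-(c * n)) := by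
      have h2 : Real.exp (c * (1 + 2 / δ)) ≤ C := le_max_right _ _
      have h3 : Real.exp (c * n) ≤ C := le_trans (Real.exp_le_exp.2
        (mul_le_mul_of_nonneg_left hnr hc0.le)) h2
      calc (1 : ℝ) = Real.exp (c * n) * Real.exp (-(c * n)) := by
            rw [← Real.exp_add]
            simp
        _ ≤ C * Real.exp (-(c * n)) := mul_le_mul_of_nonneg_right h3 (Real.exp_nonneg _)
    have h4 : (1 : ℝ≥0∞) ≤ ENNReal.ofReal (C * Real.exp (-(c * n))) := by
      rw [← ENNReal.ofReal_one]
      exact ENNReal.ofReal_le_ofReal h1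
    refine le_trans ?_ (le_mul_of_one_le_left zero_le h4)
    apply lintegral_mono
    intro x
    have e1 : n = i + (n - i) := by omega
    show Qn p q s i _ x ≤ Qn p q s n (fun _ => 1) x
    conv_rhs => rw [e1, Qn_add]
    apply Qn_mono
    intro y
    split_ifs
    · exact le_refl _
    · exact zero_le
  · -- many `n`
    push Not at hsmall
    have hL1 : 0 < L := by
      rcases Nat.eq_zero_or_pos L with h | h
      · rw [h] at hsmall
        have : (0 : ℝ) < 2 / δ := by positivity
        simp at hsmall
        linarith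
      · exact h
    have hLr : (0 : ℝ) < L := by exact_mod_cast hL1
    set U : ℝ := (q.factorial : ℝ) ^ n * (B ^ L / L.factorial * Real.exp (-(L * δ ^ 2 / 16)))
      with hUd
    set D : ℝ := κ * ((q.factorial : ℝ) ^ n * Real.exp (-P) *
      ((e * B) ^ ((q + 1) * n) / ((q + 1) * n).factorial)) with hDd
    have hden : ENNReal.ofReal D ≤ ∫⁻ x : I, Qn p q s n (fun _ => 1) x :=
      lower hG hL p q s e κ hκ0 hκ4 he0 hκ' n
    have hnum : (∫⁻ x : I, Qn p q s i (fun y => if δ ≤ |G p q s y / B - (i : ℝ) / n| then
        Qn p q s (n - i) (fun _ => 1) y else 0) x) ≤ ENNReal.ofReal U := by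
      apply lint_le
      intro x
      rcases Nat.eq_zero_or_pos i with hi0 | hi0
      · -- i = 0
        subst hi0
        show (if δ ≤ |G p q s x / B - ((0 : ℕ) : ℝ) / n| then
          Qn p q s (n - 0) (fun _ => 1) x else 0) ≤ ENNReal.ofReal U
        split_ifs with hx
        · rw [Nat.sub_zero]
          refine (hU p q s n x).trans (ENNReal.ofReal_le_ofReal ?_)
          rw [hUd]
          apply mul_le_mul_of_nonneg_left _ (by positivity)
          rw [hLM]
          have hv0 : 0 ≤ G p q s x / B := div_nonneg (hGnn x) hB0.le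
          have hv1 : G p q s x / B ≤ 1 := (div_le_one hB0).2 (hGB x)
          have h1 := hC (L + 1) 0 (G p q s x / B) (Nat.succ_pos L) (Nat.zero_le _) hv0 hv1
          have hx' : δ ≤ G p q s x / B := by
            have : G p q s x / B - ((0 : ℕ) : ℝ) / n = G p q s x / B := by simp
            rw [this, abs_of_nonneg hv0] at hx
            exact hx
          simp only [Nat.choose_zero_right, Nat.cast_one, pow_zero, one_mul, Nat.sub_zero,
            Nat.cast_zero, zero_div, sub_zero] at h1
          have e3 : (B - G p q s x) ^ (L + 1) = B ^ (L + 1) * (1 - G p q s x / B) ^ (L + 1) := by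
            rw [← mul_pow]
            congr 1
            field_simp
          show (B - G p q s x) ^ (L + 1) / ((L + 1).factorial : ℝ) ≤ _
          rw [e3, mul_div_right_comm]
          apply mul_le_mul
          · have h2 : B ^ (L + 1) ≤ B ^ L := by
              rw [pow_succ]
              exact mul_le_of_le_one_right (by positivity) hB1
            have h3 : (L.factorial : ℝ) ≤ ((L + 1).factorial : ℝ) := by
              exact_mod_cast Nat.factorial_le (Nat.le_succ L)
            exact div_le_div₀ (by positivity) h2 (by exact_mod_cast L.factorial_pos) h3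
          · refine h1.trans (Real.exp_le_exp.2 ?_)
            have h4 : δ ^ 2 ≤ (G p q s x / B) ^ 2 := pow_le_pow_left₀ hδ.le hx' 2
            have h5 : 0 ≤ δ ^ 2 := by positivity
            push_cast
            nlinarith
          · apply pow_nonneg
            linarith
          · positivity
        · exact zero_le
      · -- i ≥ 1
        obtain ⟨i', rfl⟩ : ∃ i', i = i' + 1 := ⟨i - 1, by omega⟩
        have hmeas : Measurable (fun y : I => if δ ≤ |G p q s y / B - ((i' + 1 : ℕ) : ℝ) / n| then
            Qn p q s (n - (i' + 1)) (fun _ => 1) y else 0) := by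
          apply Measurable.ite
          · apply measurableSet_le measurable_const
            have hgm : Measurable (fun y : I => G p q s y) :=
              (hGc.comp continuous_subtype_val).measurable
            exact ((hgm.div_const B).sub_const _).abs
          · exact Qn_meas p q s _ measurable_const
          · exact measurable_const
        refine (hV p q s i' _ hmeas x).trans (lint_le ?_)
        intro y
        by_cases hxy : x < y
        · rw [if_pos hxy]
          split_ifs with hy
          · refine (mul_le_mul_right (hU p q s (n - (i' + 1)) y) _).trans ?_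
            rw [← ENNReal.ofReal_mul']
            · apply ENNReal.ofReal_le_ofReal
              have hab : ((q + 1) * (i' + 1) - 1) + (q + 1) * (n - (i' + 1)) = L := by
                have h1 : 1 ≤ (q + 1) * (i' + 1) := Nat.one_le_iff_ne_zero.2 (by positivity)
                have h2 : (q + 1) * (i' + 1) + (q + 1) * (n - (i' + 1)) = (q + 1) * n := by
                  rw [← mul_add]
                  congr 1
                  omega
                omega
              have hgx := hGnn x
              have hgy := hGnn y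
              have hgxy : G p q s x ≤ G p q s y :=
                hmono.monotoneOn ⟨x.2.1, x.2.2⟩ ⟨y.2.1, y.2.2⟩ (le_of_lt hxy)
              have hta : |(((q + 1) * (i' + 1) - 1 : ℕ) : ℝ) / L - ((i' + 1 : ℕ) : ℝ) / n| ≤
                  1 / L := by
                have hn0 : (0 : ℝ) < n := by exact_mod_cast hn
                obtain ⟨a, ha⟩ : ∃ a, (q + 1) * (i' + 1) = a + 1 := by
                  refine ⟨(q + 1) * (i' + 1) - 1, ?_⟩
                  have : 1 ≤ (q + 1) * (i' + 1) := Nat.one_le_iff_ne_zero.2 (by positivity)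
                  omega
                have ha' : (q + 1) * (i' + 1) - 1 = a := by omega
                rw [ha'] at hab ⊢
                have haL : (a : ℝ) ≤ L := by
                  have : a ≤ L := by omega
                  exact_mod_cast this
                have e4 : ((i' + 1 : ℕ) : ℝ) / n = ((a : ℝ) + 1) / (L + 1) := by
                  have e5 : ((q : ℝ) + 1) * ((i' + 1 : ℕ) : ℝ) = (a : ℝ) + 1 := by
                    exact_mod_cast ha
                  have e6 : ((q : ℝ) + 1) * (n : ℝ) = (L : ℝ) + 1 := by
                    exact_mod_cast hLM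
                  rw [← e5, ← e6]
                  have : (0 : ℝ) < (q : ℝ) + 1 := by positivity
                  field_simp
                rw [e4]
                have e7 : (a : ℝ) / L - ((a : ℝ) + 1) / (L + 1) = -((L - a) / (L * (L + 1))) := by
                  field_simp
                  ring
                rw [e7, abs_neg, abs_of_nonneg (div_nonneg (by linarith) (by positivity))]
                have h0a : (0 : ℝ) ≤ a := Nat.cast_nonneg a
                rw [div_le_div_iff₀ (by positivity) hLr]
                nlinarith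
              have hbin := binom hC L ((q + 1) * (i' + 1) - 1) ((q + 1) * (n - (i' + 1))) hab hL1
                B (G p q s y) δ (((i' + 1 : ℕ) : ℝ) / n) hB0 hgy (hGB y) hδ hsmall hy hta
              have hwy := hw01 y y.2.1 y.2.2
              have h3 : w p q s y * ((G p q s y - G p q s x) ^ ((q + 1) * (i' + 1) - 1) /
                  (((q + 1) * (i' + 1) - 1).factorial : ℝ)) ≤
                  G p q s y ^ ((q + 1) * (i' + 1) - 1) /
                  (((q + 1) * (i' + 1) - 1).factorial : ℝ) := by
                have h4 : (G p q s y - G p q s x) ^ ((q + 1) * (i' + 1) - 1) ≤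
                    G p q s y ^ ((q + 1) * (i' + 1) - 1) :=
                  pow_le_pow_left₀ (by linarith) (by linarith) _
                have h5 : (G p q s y - G p q s x) ^ ((q + 1) * (i' + 1) - 1) /
                    (((q + 1) * (i' + 1) - 1).factorial : ℝ) ≤
                    G p q s y ^ ((q + 1) * (i' + 1) - 1) /
                    (((q + 1) * (i' + 1) - 1).factorial : ℝ) :=
                  div_le_div_of_nonneg_right h4 (by positivity)
                have h6 : 0 ≤ (G p q s y - G p q s x) ^ ((q + 1) * (i' + 1) - 1) /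
                    (((q + 1) * (i' + 1) - 1).factorial : ℝ) :=
                  div_nonneg (pow_nonneg (by linarith) _) (by positivity)
                calc w p q s y * ((G p q s y - G p q s x) ^ ((q + 1) * (i' + 1) - 1) /
                      (((q + 1) * (i' + 1) - 1).factorial : ℝ))
                    ≤ 1 * ((G p q s y - G p q s x) ^ ((q + 1) * (i' + 1) - 1) /
                      (((q + 1) * (i' + 1) - 1).factorial : ℝ)) :=
                      mul_le_mul_of_nonneg_right hwy.2 h6
                  _ ≤ _ := by rw [one_mul]; exact h5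
              have hpow : (q.factorial : ℝ) ^ n =
                  (q.factorial : ℝ) ^ (i' + 1) * (q.factorial : ℝ) ^ (n - (i' + 1)) := by
                rw [← pow_add]
                congr 1
                omega
              have h7 : 0 ≤ (B - G p q s y) ^ ((q + 1) * (n - (i' + 1))) /
                  (((q + 1) * (n - (i' + 1))).factorial : ℝ) :=
                div_nonneg (pow_nonneg (by linarith [hGB y]) _) (by positivity)
              rw [hUd, hpow]
              calc (q.factorial : ℝ) ^ (i' + 1) * (w p q s y *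
                    ((G p q s y - G p q s x) ^ ((q + 1) * (i' + 1) - 1) /
                    (((q + 1) * (i' + 1) - 1).factorial : ℝ))) *
                    ((q.factorial : ℝ) ^ (n - (i' + 1)) * ((B - G p q s y) ^
                    ((q + 1) * (n - (i' + 1))) / (((q + 1) * (n - (i' + 1))).factorial : ℝ)))
                  = (q.factorial : ℝ) ^ (i' + 1) * (q.factorial : ℝ) ^ (n - (i' + 1)) *
                    ((w p q s y * ((G p q s y - G p q s x) ^ ((q + 1) * (i' + 1) - 1) /
                    (((q + 1) * (i' + 1) - 1).factorial : ℝ))) *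
                    ((B - G p q s y) ^ ((q + 1) * (n - (i' + 1))) /
                    (((q + 1) * (n - (i' + 1))).factorial : ℝ))) := by ring
                _ ≤ (q.factorial : ℝ) ^ (i' + 1) * (q.factorial : ℝ) ^ (n - (i' + 1)) *
                    (G p q s y ^ ((q + 1) * (i' + 1) - 1) /
                    (((q + 1) * (i' + 1) - 1).factorial : ℝ) *
                    ((B - G p q s y) ^ ((q + 1) * (n - (i' + 1))) /
                    (((q + 1) * (n - (i' + 1))).factorial : ℝ))) :=
                    mul_le_mul_of_nonneg_left (mul_le_mul_of_nonneg_right h3 h7) (by positivity)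
                _ ≤ _ := mul_le_mul_of_nonneg_left hbin (by positivity)
            · have h7 : 0 ≤ (B - G p q s y) ^ ((q + 1) * (n - (i' + 1))) /
                  (((q + 1) * (n - (i' + 1))).factorial : ℝ) :=
                div_nonneg (pow_nonneg (by linarith [hGB y]) _) (by positivity)
              exact mul_nonneg (by positivity) h7
          · rw [mul_zero]
            exact zero_le
        · rw [if_neg hxy, zero_mul]
          exact zero_le
    -- comparison
    have hUD : U ≤ C * Real.exp (-(c * n)) * D := by
      have hD0 : 0 ≤ D := by positivity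
      have hC1le : C1 ≤ C := le_max_left _ _
      have h1 : C1 * Real.exp (-(c * n)) * D ≤ C * Real.exp (-(c * n)) * D :=
        mul_le_mul_of_nonneg_right (mul_le_mul_of_nonneg_right hC1le (Real.exp_nonneg _)) hD0
      refine le_trans ?_ h1
      have hL0 : (0 : ℝ) < L.factorial := by exact_mod_cast L.factorial_pos
      have efac : (((q + 1) * n).factorial : ℝ) = ((L : ℝ) + 1) * L.factorial := by
        rw [hLM, Nat.factorial_succ]
        push_cast
        ring
      have epow : (e * B) ^ ((q + 1) * n) = Real.exp (-(c * (L + 1))) * (B * B ^ L) := by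
        rw [hLM, mul_pow, he, ← Real.exp_nat_mul, pow_succ' B L]
        congr 2
        push_cast
        ring
      have hM0 : (0 : ℝ) < (L : ℝ) + 1 := by positivity
      -- the scalar inequality
      have hsc : ((L : ℝ) + 1) * Real.exp (-(L * δ ^ 2 / 16)) ≤
          128 / δ ^ 2 * Real.exp (δ ^ 2 / 16) * Real.exp (-(c * n)) *
            Real.exp (-(c * (L + 1))) := by
        have h2 : ((L : ℝ) + 1) * δ ^ 2 / 128 ≤ Real.exp (((L : ℝ) + 1) * δ ^ 2 / 128) := by
          have := Real.add_one_le_exp (((L : ℝ) + 1) * δ ^ 2 / 128)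
          linarith
        have h3 : (L : ℝ) + 1 ≤ 128 / δ ^ 2 * Real.exp (((L : ℝ) + 1) * δ ^ 2 / 128) := by
          have h4 : (L : ℝ) + 1 = 128 / δ ^ 2 * (((L : ℝ) + 1) * δ ^ 2 / 128) := by
            field_simp
          calc (L : ℝ) + 1 = 128 / δ ^ 2 * (((L : ℝ) + 1) * δ ^ 2 / 128) := h4
            _ ≤ _ := mul_le_mul_of_nonneg_left h2 (by positivity)
        have hnr : (n : ℝ) ≤ (L : ℝ) + 1 := by exact_mod_cast hnL
        calc ((L : ℝ) + 1) * Real.exp (-(L * δ ^ 2 / 16))
            ≤ 128 / δ ^ 2 * Real.exp (((L : ℝ) + 1) * δ ^ 2 / 128) *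
              Real.exp (-(L * δ ^ 2 / 16)) :=
              mul_le_mul_of_nonneg_right h3 (Real.exp_nonneg _)
          _ = 128 / δ ^ 2 * Real.exp (((L : ℝ) + 1) * δ ^ 2 / 128 + -(L * δ ^ 2 / 16)) := by
              rw [mul_assoc, ← Real.exp_add]
          _ ≤ 128 / δ ^ 2 * Real.exp (δ ^ 2 / 16 + -(c * n) + -(c * (L + 1))) := by
              apply mul_le_mul_of_nonneg_left _ (by positivity)
              apply Real.exp_le_exp.2
              have h5 : c * n ≤ c * (L + 1) := mul_le_mul_of_nonneg_left hnr hc0.le
              have h6 : 0 ≤ ((L : ℝ) + 1) * δ ^ 2 := by positivity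
              rw [hc] at h5 ⊢
              nlinarith
          _ = _ := by
              rw [Real.exp_add, Real.exp_add]
              ring
      rw [hUd, hDd, epow, efac, hC1]
      have hPe : Real.exp P * Real.exp (-P) = 1 := by
        rw [← Real.exp_add]
        simp
      have e8 : 128 / δ ^ 2 * (Real.exp P / (κ * B)) * Real.exp (δ ^ 2 / 16) *
          Real.exp (-(c * n)) * (κ * ((q.factorial : ℝ) ^ n * Real.exp (-P) *
          (Real.exp (-(c * (L + 1))) * (B * B ^ L) / (((L : ℝ) + 1) * L.factorial))))
          = (Real.exp P * Real.exp (-P)) * ((q.factorial : ℝ) ^ n * (B ^ L / L.factorial *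
            ((128 / δ ^ 2 * Real.exp (δ ^ 2 / 16) * Real.exp (-(c * n)) *
            Real.exp (-(c * (L + 1)))) / ((L : ℝ) + 1)))) := by
        field_simp
      rw [e8, hPe, one_mul]
      apply mul_le_mul_of_nonneg_left _ (by positivity)
      apply mul_le_mul_of_nonneg_left _ (by positivity)
      rw [le_div_iff₀ hM0, mul_comm]
      exact hsc
    calc _ ≤ ENNReal.ofReal U := hnum
      _ ≤ ENNReal.ofReal (C * Real.exp (-(c * n)) * D) := ENNReal.ofReal_le_ofReal hUD
      _ = ENNReal.ofReal (C * Real.exp (-(c * n))) * ENNReal.ofReal D := by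
          rw [ENNReal.ofReal_mul]
          have : 0 ≤ C := le_trans (Real.exp_nonneg _) (le_max_right C1 _)
          positivity
      _ ≤ _ := mul_le_mul_right hden _

end

end R556.CLU
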