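import Pool.Agent.R556.CLU.Count

/-! MP_2d2444_co: cluster posets and linear extensions. -/

open MeasureTheory Set Function
open scoped ENNReal unitInterval Topology

namespace R556.CLU

noncomputable section

open Classical R556.CP

/-- the identification of `A_{i,b}` with `A_{i+1,a}` (pairs are 0-based: `(i, j)` stands for
`A_{i+1,j+1}`) -/
def Glue (m n a b : ℕ) (x y : Fin n × Fin m) : Prop :=
  (y.1 : ℕ) = x.1 + 1 ∧ (x.2 : ℕ) + 1 = b ∧ (y.2 : ℕ) + 1 = a

/-- the elements of the cluster poset -/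
def Elt (m n a b : ℕ) : Type := Quot (Glue m n a b)

/-- the element `A_{i+1,j+1}` -/
def A {m n : ℕ} (a b : ℕ) (i : Fin n) (j : Fin m) : Elt m n a b := Quot.mk _ (i, j)

/-- the strict partial order generated by the chains `A_{i,1} < ... < A_{i,m}` -/
def Below (m n a b : ℕ) : Elt m n a b → Elt m n a b → Prop :=
  Relation.TransGen (fun x y => ∃ i : Fin n, ∃ j j' : Fin m, j < j' ∧ x = A a b i j ∧ y = A a b i j')

/-- `r` (read `r x y` as `x ≺ y`) is a linear extension of the cluster poset -/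
def IsLinExt (m n a b : ℕ) (r : Elt m n a b → Elt m n a b → Prop) : Prop :=
  IsStrictTotalOrder (Elt m n a b) r ∧ ∀ x y, Below m n a b x y → r x y

/-- the height of `x`: the number of elements `y ≺ x` -/
def ht {m n a b : ℕ} (r : Elt m n a b → Elt m n a b → Prop) (x : Elt m n a b) : ℕ :=
  Nat.card {y : Elt m n a b // r y x}

section bij

variable {p q s n : ℕ}

/-- the position of an element -/
def pos (p q s n : ℕ) (x : Fin n × Fin (p + q + s + 2)) : Fin (n * (p + q + s + 1) + 1) :=
  ⟨cpos p q s x.2 + x.1 * (p + q + s + 1), by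
    have h1 := cpos_le p q s x.2 (by have := x.2.2; omega)
    have h2 : ((x.1 : ℕ) + 1) * (p + q + s + 1) ≤ n * (p + q + s + 1) :=
      Nat.mul_le_mul_right _ x.1.2
    have e : ((x.1 : ℕ) + 1) * (p + q + s + 1) = x.1 * (p + q + s + 1) + (p + q + s + 1) := by ring
    omega⟩

lemma pos_glue {x y : Fin n × Fin (p + q + s + 2)} (h : Glue (p + q + s + 2) n (p + 1) (p + q + 2) x y) :
    pos p q s n x = pos p q s n y := by
  obtain ⟨h1, h2, h3⟩ := h
  apply Fin.ext
  show cpos p q s x.2 + x.1 * (p + q + s + 1) = cpos p q s y.2 + y.1 * (p + q + s + 1)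
  have hx : (x.2 : ℕ) = p + q + 1 := by omega
  have hy : (y.2 : ℕ) = p := by omega
  have c1 : cpos p q s (p + q + 1) = p + q + s + 1 := by
    unfold cpos; split_ifs <;> omega
  have c2 : cpos p q s p = 0 := by
    unfold cpos; split_ifs <;> omega
  rw [h1, hx, hy, c1, c2]
  ring

lemma cpos_inj {j j' : ℕ} (hj : j ≤ p + q + s + 1) (hj' : j' ≤ p + q + s + 1)
    (h : cpos p q s j = cpos p q s j') : j = j' := by
  unfold cpos at h
  split_ifs at h <;> omega

lemma cpos_eq_top {j : ℕ} (hj : j ≤ p + q + s + 1) (h : cpos p q s j = p + q + s + 1) :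
    j = p + q + 1 := by
  unfold cpos at h
  split_ifs at h <;> omega

lemma cpos_eq_zero {j : ℕ} (hj : j ≤ p + q + s + 1) (h : cpos p q s j = 0) : j = p := by
  unfold cpos at h
  split_ifs at h <;> omega

lemma pos_inj {x y : Fin n × Fin (p + q + s + 2)} (h : pos p q s n x = pos p q s n y) :
    x = y ∨ Glue (p + q + s + 2) n (p + 1) (p + q + 2) x y ∨
      Glue (p + q + s + 2) n (p + 1) (p + q + 2) y x := by
  have hv : cpos p q s x.2 + x.1 * (p + q + s + 1) = cpos p q s y.2 + y.1 * (p + q + s + 1) :=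
    congrArg Fin.val h
  have hx2 : (x.2 : ℕ) ≤ p + q + s + 1 := by have := x.2.2; omega
  have hy2 : (y.2 : ℕ) ≤ p + q + s + 1 := by have := y.2.2; omega
  have hx := cpos_le p q s x.2 hx2
  have hy := cpos_le p q s y.2 hy2
  rcases lt_trichotomy (x.1 : ℕ) y.1 with hlt | heq | hgt
  · right; left
    obtain ⟨k, hk⟩ : ∃ k, (y.1 : ℕ) = x.1 + 1 + k := ⟨y.1 - (x.1 + 1), by omega⟩
    have e : (y.1 : ℕ) * (p + q + s + 1) = x.1 * (p + q + s + 1) + (p + q + s + 1) +
        k * (p + q + s + 1) := by rw [hk]; ring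
    have hk0 : k * (p + q + s + 1) = 0 ∧ cpos p q s x.2 = p + q + s + 1 ∧ cpos p q s y.2 = 0 := by
      refine ⟨?_, ?_, ?_⟩ <;> omega
    have hk1 : k = 0 := by
      rcases Nat.mul_eq_zero.1 hk0.1 with h | h
      · exact h
      · omega
    have := cpos_eq_top hx2 hk0.2.1
    have := cpos_eq_zero hy2 hk0.2.2
    refine ⟨by omega, by omega, by omega⟩
  · left
    rw [heq] at hv
    have := cpos_inj hx2 hy2 (Nat.add_right_cancel hv)
    exact Prod.ext (Fin.ext heq) (Fin.ext this)
  · right; right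
    obtain ⟨k, hk⟩ : ∃ k, (x.1 : ℕ) = y.1 + 1 + k := ⟨x.1 - (y.1 + 1), by omega⟩
    have e : (x.1 : ℕ) * (p + q + s + 1) = y.1 * (p + q + s + 1) + (p + q + s + 1) +
        k * (p + q + s + 1) := by rw [hk]; ring
    have hk0 : k * (p + q + s + 1) = 0 ∧ cpos p q s y.2 = p + q + s + 1 ∧ cpos p q s x.2 = 0 := by
      refine ⟨?_, ?_, ?_⟩ <;> omega
    have hk1 : k = 0 := by
      rcases Nat.mul_eq_zero.1 hk0.1 with h | h
      · exact h
      · omega
    have := cpos_eq_top hy2 hk0.2.1
    have := cpos_eq_zero hx2 hk0.2.2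
    refine ⟨by omega, by omega, by omega⟩

lemma cpos_surj {r : ℕ} (hr : r ≤ p + q + s + 1) : ∃ j ≤ p + q + s + 1, cpos p q s j = r := by
  by_cases h0 : r = 0
  · exact ⟨p, by omega, by unfold cpos; split_ifs <;> omega⟩
  by_cases h1 : r ≤ p
  · exact ⟨r - 1, by omega, by unfold cpos; split_ifs <;> omega⟩
  by_cases h2 : r ≤ p + q
  · exact ⟨r, by omega, by unfold cpos; split_ifs <;> omega⟩
  by_cases h3 : r = p + q + s + 1
  · exact ⟨p + q + 1, by omega, by unfold cpos; split_ifs <;> omega⟩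
  · exact ⟨r + 1, by omega, by unfold cpos; split_ifs <;> omega⟩

lemma pos_surj (hn : 1 ≤ n) (u : Fin (n * (p + q + s + 1) + 1)) :
    ∃ x, pos p q s n x = u := by
  have hd : 0 < p + q + s + 1 := by omega
  by_cases hu : (u : ℕ) = n * (p + q + s + 1)
  · obtain ⟨j, hj, hj'⟩ := cpos_surj (p := p) (q := q) (s := s) (le_refl (p + q + s + 1))
    refine ⟨(⟨n - 1, by omega⟩, ⟨j, by omega⟩), Fin.ext ?_⟩
    show cpos p q s j + (n - 1) * (p + q + s + 1) = u
    rw [hj', hu]
    obtain ⟨k, rfl⟩ : ∃ k, n = k + 1 := ⟨n - 1, by omega⟩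
    rw [Nat.add_sub_cancel]; ring
  · have hlt : (u : ℕ) < n * (p + q + s + 1) := by have := u.2; omega
    have h1 := Nat.mod_lt (u : ℕ) hd
    obtain ⟨j, hj, hj'⟩ := cpos_surj (p := p) (q := q) (s := s) h1.le
    refine ⟨(⟨u / (p + q + s + 1), (Nat.div_lt_iff_lt_mul hd).2 hlt⟩, ⟨j, by omega⟩), Fin.ext ?_⟩
    show cpos p q s j + (u / (p + q + s + 1)) * (p + q + s + 1) = u
    rw [hj', Nat.mod_add_div']

/-- the elements of the poset are the positions -/
def eqv (p q s n : ℕ) (hn : 1 ≤ n) :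
    Elt (p + q + s + 2) n (p + 1) (p + q + 2) ≃ Fin (n * (p + q + s + 1) + 1) :=
  Equiv.ofBijective (Quot.lift (pos p q s n) fun _ _ => pos_glue) ⟨by
    rintro ⟨x⟩ ⟨y⟩ h
    rcases pos_inj (p := p) (q := q) (s := s) h with h | h | h
    · rw [h]
    · exact Quot.sound h
    · exact (Quot.sound h).symm, fun u => by
    obtain ⟨x, hx⟩ := pos_surj hn u
    exact ⟨Quot.mk _ x, hx⟩⟩

lemma eqv_A (hn : 1 ≤ n) (i : Fin n) (j : Fin (p + q + s + 2)) :
    eqv p q s n hn (A _ _ i j) = pos p q s n (i, j) := rfl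

end bij

/-- strict total orders on a set with `N` elements are given by bijections with `Fin N` -/
lemma exists_perm {α : Type} {N : ℕ} (e : α ≃ Fin N) (r : α → α → Prop)
    (hr : IsStrictTotalOrder α r) : ∃ w : Equiv.Perm (Fin N), ∀ x y, r x y ↔ w (e x) < w (e y) := by
  have : Fintype α := Fintype.ofEquiv _ e.symm
  have hcard : Fintype.card α = N := by rw [Fintype.card_congr e, Fintype.card_fin]
  have hlt : ∀ x y, r x y → (Finset.univ.filter (fun z => r z x)).card <
      (Finset.univ.filter (fun z => r z y)).card := by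
    intro x y hxy
    refine Finset.card_lt_card ⟨fun z hz => ?_, fun h => ?_⟩
    · rw [Finset.mem_filter] at hz ⊢
      exact ⟨Finset.mem_univ _, hr.toIsStrictOrder.toIsTrans.trans _ _ _ hz.2 hxy⟩
    · have := h (Finset.mem_filter.2 ⟨Finset.mem_univ x, hxy⟩)
      exact hr.toIsStrictOrder.toIrrefl.irrefl x (Finset.mem_filter.1 this).2
  have hN : ∀ x, (Finset.univ.filter (fun z => r z x)).card < N := by
    intro x
    rw [← hcard, ← Finset.card_univ]
    refine Finset.card_lt_card ⟨Finset.filter_subset _ _, fun h => ?_⟩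
    exact hr.toIsStrictOrder.toIrrefl.irrefl x (Finset.mem_filter.1 (h (Finset.mem_univ x))).2
  have hiff : ∀ x y, r x y ↔ (Finset.univ.filter (fun z => r z x)).card <
      (Finset.univ.filter (fun z => r z y)).card := by
    intro x y
    refine ⟨hlt x y, fun h => ?_⟩
    by_contra hc
    by_cases hyx : r y x
    · have := hlt y x hyx; omega
    · have : x = y := hr.toTrichotomous.trichotomous x y hc hyx
      rw [this] at h
      omega
  set w : Fin N → Fin N := fun k => ⟨(Finset.univ.filter (fun z => r z (e.symm k))).card, hN _⟩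
    with hw
  have hinj : Injective w := by
    intro k k' hkk
    have h1 : (Finset.univ.filter (fun z => r z (e.symm k))).card =
        (Finset.univ.filter (fun z => r z (e.symm k'))).card := congrArg Fin.val hkk
    have h2 : e.symm k = e.symm k' := hr.toTrichotomous.trichotomous _ _
      (fun h => by have := hlt _ _ h; omega) (fun h => by have := hlt _ _ h; omega)
    exact e.symm.injective h2
  refine ⟨Equiv.ofBijective w (Finite.injective_iff_bijective.1 hinj), fun x y => ?_⟩
  rw [hiff x y]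
  show _ ↔ w (e x) < w (e y)
  rw [hw, Fin.lt_def]
  simp only [Equiv.symm_apply_apply]

lemma isStrictTotalOrder_perm {α : Type} {N : ℕ} (e : α ≃ Fin N) (w : Equiv.Perm (Fin N)) :
    IsStrictTotalOrder α (fun x y => w (e x) < w (e y)) := by
  refine { trichotomous := fun x y h1 h2 => ?_, irrefl := fun x => lt_irrefl _,
           trans := fun x y z => lt_trans }
  have : w (e x) = w (e y) := le_antisymm (not_lt.1 h2) (not_lt.1 h1)
  exact e.injective (w.injective this)

lemma card_perm_lt {N : ℕ} (w : Equiv.Perm (Fin N)) (u : Fin N) :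
    (Finset.univ.filter (fun j => w j < w u)).card = w u := by
  rw [← Fin.card_Iio (w u)]
  refine Finset.card_equiv w fun j => ?_
  simp

lemma perm_unique {N : ℕ} {w w' : Equiv.Perm (Fin N)} (h : ∀ i j, w i < w j ↔ w' i < w' j) :
    w = w' := by
  ext u
  rw [← card_perm_lt w u, ← card_perm_lt w' u]
  congr 1
  ext j
  simp only [Finset.mem_filter, Finset.mem_univ, true_and, h]

end

end R556.CLU
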