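import Pool.Agent.R556.CLU.Defs
import Pool.Agent.R556.CP.C

/-! CLU-S of project CLU (MP_2d2444_co): order patterns are independent of symmetric events. -/

open MeasureTheory Set
open scoped ENNReal unitInterval

namespace R556.CLU

open R556.CP

lemma volume_cham_inter (n : ℕ) (S : Set (Fin n → I)) (hS : MeasurableSet S)
    (hsym : ∀ (e : Equiv.Perm (Fin n)) (X : Fin n → I), (fun i => X (e i)) ∈ S ↔ X ∈ S)
    (w : Equiv.Perm (Fin n)) :
    (volume : Measure (Fin n → I)) (Cham n w ∩ S) = volume (Cham n 1 ∩ S) := by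
  have hmp := volume_measurePreserving_piCongrLeft (fun _ : Fin n => I) w
  have hpre : (MeasurableEquiv.piCongrLeft (fun _ : Fin n => I) w) ⁻¹' (Cham n 1 ∩ S) =
      Cham n w ∩ S := by
    ext X
    have hX : (MeasurableEquiv.piCongrLeft (fun _ : Fin n => I) w) X =
        fun i => X (w.symm i) := by
      funext i
      simp [MeasurableEquiv.coe_piCongrLeft, Equiv.piCongrLeft_apply]
    simp only [Cham, mem_preimage, Set.mem_inter_iff, Set.mem_ofPred_eq, hX, hsym w.symm X]
    refine and_congr_left fun _ => ?_
    constructor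
    · intro h i j
      have := h (w i) (w j)
      simpa using this
    · intro h i j
      have := h (w.symm i) (w.symm j)
      simpa using this
  rw [← hpre]
  exact hmp.measure_preimage ((measurableSet_cham n 1).inter hS).nullMeasurableSet

open Classical in
lemma volume_union_inter (n : ℕ) (S : Set (Fin n → I)) (hS : MeasurableSet S)
    (hsym : ∀ (e : Equiv.Perm (Fin n)) (X : Fin n → I), (fun i => X (e i)) ∈ S ↔ X ∈ S)
    (s : Finset (Equiv.Perm (Fin n))) :
    (volume : Measure (Fin n → I)) ((⋃ w ∈ s, Cham n w) ∩ S) =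
      s.card * volume (Cham n 1 ∩ S) := by
  have h0 : (⋃ w ∈ s, Cham n w) ∩ S = ⋃ w ∈ s, (Cham n w ∩ S) := by
    rw [Set.iUnion₂_inter]
  rw [h0, measure_biUnion_finset]
  · rw [Finset.sum_congr rfl (fun w _ => volume_cham_inter n S hS hsym w)]
    simp
  · intro w _ w' _ hne
    refine Set.disjoint_left.2 fun X h h' => hne (cham_disjoint n h.1 h'.1)
  · intro w _
    exact (measurableSet_cham n w).inter hS

open Classical in
lemma ae_pattern (n : ℕ) (P : (Fin n → Fin n → Prop) → Prop) :
    ({X | P (fun i j => X i < X j)} : Set (Fin n → I)) =ᵐ[volume]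
      (⋃ w ∈ (Finset.univ.filter (fun w : Equiv.Perm (Fin n) => P (fun i j => w i < w j))),
        Cham n w : Set (Fin n → I)) := by
  filter_upwards [ae_cham n] with X hX
  obtain ⟨w, hw⟩ := hX
  have key : ∀ w', X ∈ Cham n w' → (fun i j => X i < X j) = (fun i j => w' i < w' j) := by
    intro w' hw'
    funext i j
    exact propext (hw' i j)
  apply propext
  constructor
  · intro hP
    have hP' : P (fun i j => X i < X j) := hP
    rw [key w hw] at hP'
    exact Set.mem_biUnion (Finset.mem_coe.2 (Finset.mem_filter.2 ⟨Finset.mem_univ w, hP'⟩)) hw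
  · intro hU
    obtain ⟨w', hw', hX'⟩ := Set.mem_iUnion₂.1 hU
    have hP' := (Finset.mem_filter.1 hw').2
    rw [← key w' hX'] at hP'
    exact hP'

theorem stmS : StmS := by
  classical
  intro n P S hS hsym
  have hP := ae_pattern n P
  have e1 : (volume : Measure (Fin n → I)) ({X | P (fun i j => X i < X j)} ∩ S) =
      ((Finset.univ.filter (fun w : Equiv.Perm (Fin n) =>
        P (fun i j => w i < w j))).card : ℝ≥0∞) * volume (Cham n 1 ∩ S) := by
    rw [← volume_union_inter n S hS hsym]
    exact measure_congr (hP.inter (Filter.EventuallyEq.refl _ S))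
  have e2 : (volume : Measure (Fin n → I)) S =
      (n.factorial : ℝ≥0∞) * volume (Cham n 1 ∩ S) := by
    have h1 : (volume : Measure (Fin n → I)) (univ ∩ S) =
        ((Finset.univ : Finset (Equiv.Perm (Fin n))).card : ℝ≥0∞) *
          volume (Cham n 1 ∩ S) := by
      rw [← volume_union_inter n S hS hsym]
      refine measure_congr (Filter.EventuallyEq.inter ?_ (Filter.EventuallyEq.refl _ S))
      filter_upwards [ae_cham n] with X hX
      obtain ⟨w, hw⟩ := hX
      apply propext
      constructor
      · intro _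
        exact Set.mem_biUnion (Finset.mem_coe.2 (Finset.mem_univ w)) hw
      · intro _
        trivial
    rw [Set.univ_inter] at h1
    rw [h1, Finset.card_univ, Fintype.card_perm, Fintype.card_fin]
  have e3 := stmtC n P
  rw [e1, e2, e3]
  have hn : (n.factorial : ℝ≥0∞) ≠ 0 := by exact_mod_cast n.factorial_ne_zero
  have hn' : (n.factorial : ℝ≥0∞) ≠ ⊤ := ENNReal.natCast_ne_top _
  rw [← mul_assoc, ENNReal.div_mul_cancel hn hn']

end R556.CLU
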