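import Pool.Agent.R556.CLU.Defs

/-! Project CLU: piece CLU-T (weak law of large numbers for the empirical distribution). -/

open MeasureTheory Set Function ProbabilityTheory
open scoped ENNReal unitInterval

namespace R556.CLU

noncomputable section

open Classical

namespace H874T

/-- the indicator of a success -/
def suc (t : I) (x : I) : ℝ := if x < t then 1 else 0

lemma suc_meas (t : I) : Measurable (suc t) :=
  Measurable.ite measurableSet_Iio measurable_const measurable_const

lemma suc_mem (t x : I) : suc t x ∈ Set.Icc (0 : ℝ) 1 := by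
  unfold suc
  split_ifs <;> simp

lemma vol_Iio (t : I) : (volume : Measure I) (Set.Iio t) = ENNReal.ofReal t := by
  rw [Measure.Subtype.volume_def, Measure.comap_apply _ Subtype.coe_injective _ _ measurableSet_Iio]
  · have : (Subtype.val '' (Set.Iio t) : Set ℝ) = Set.Ico 0 (t : ℝ) := by
      ext x
      constructor
      · rintro ⟨y, hy, rfl⟩
        exact ⟨y.2.1, hy⟩
      · rintro ⟨h0, h1⟩
        exact ⟨⟨x, h0, h1.le.trans t.2.2⟩, h1, rfl⟩
    rw [this, Real.volume_Ico, sub_zero]
  · intro s hs
    exact MeasurableSet.subtype_image measurableSet_Icc hs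

lemma int_suc (t : I) : ∫ x : I, suc t x = t := by
  have h1 : suc t = Set.indicator (Set.Iio t) (fun _ => (1 : ℝ)) := by
    funext x
    unfold suc
    by_cases hx : x < t
    · rw [if_pos hx, Set.indicator_of_mem (show x ∈ Set.Iio t from hx)]
    · rw [if_neg hx, Set.indicator_of_notMem (show x ∉ Set.Iio t from hx)]
  rw [h1, integral_indicator measurableSet_Iio, setIntegral_const, smul_eq_mul, mul_one,
    Measure.real, vol_Iio, ENNReal.toReal_ofReal t.2.1]

variable (N : ℕ) (t : I)

lemma card_eq (X : Fin N → I) :
    ((Finset.univ.filter (fun j => X j < t)).card : ℝ) = ∑ j, suc t (X j) := by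
  unfold suc
  rw [Finset.sum_ite, Finset.sum_const_zero, add_zero, Finset.sum_const, nsmul_eq_mul, mul_one]

lemma memLp (j : Fin N) : MemLp (fun X : Fin N → I => suc t (X j)) 2
    (volume : Measure (Fin N → I)) := by
  refine MemLp.of_bound ((suc_meas t).comp (measurable_pi_apply j)).aestronglyMeasurable 1 ?_
  filter_upwards with X
  have := suc_mem t (X j)
  rw [Real.norm_eq_abs, abs_of_nonneg this.1]
  exact this.2

lemma expect (j : Fin N) : ∫ X : Fin N → I, suc t (X j) = t := by
  have h := measurePreserving_eval (fun _ : Fin N => (volume : Measure I)) j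
  have h2 := integral_map (μ := Measure.pi fun _ : Fin N => (volume : Measure I))
    h.measurable.aemeasurable (f := suc t) (suc_meas t).aestronglyMeasurable
  rw [h.map_eq, int_suc] at h2
  exact h2.symm

end H874T

open H874T

theorem stmT : StmT := by
  intro t ε hε
  have hmeas : ∀ N : ℕ, MeasurableSet {X : Fin N → I | ε * N <
      |((Finset.univ.filter (fun j => X j < t)).card : ℝ) - N * t|} := by
    intro N
    simp only [card_eq]
    apply measurableSet_lt measurable_const
    refine Measurable.abs (Measurable.sub ?_ measurable_const)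
    exact Finset.measurable_sum _ fun j _ => (suc_meas t).comp (measurable_pi_apply j)
  refine ⟨hmeas, ?_⟩
  have hbound : ∀ N : ℕ, 0 < N → (volume : Measure (Fin N → I)) {X : Fin N → I | ε * N <
      |((Finset.univ.filter (fun j => X j < t)).card : ℝ) - N * t|} ≤
        ENNReal.ofReal ((1 / ε ^ 2) * (1 / (N : ℝ))) := by
    intro N hN
    have hN' : (0 : ℝ) < N := by exact_mod_cast hN
    set f : Fin N → (Fin N → I) → ℝ := fun j X => suc t (X j) with hf
    have hind : iIndepFun f (volume : Measure (Fin N → I)) :=
      iIndepFun_pi (μ := fun _ : Fin N => (volume : Measure I)) (X := fun _ => suc t)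
        (fun _ => (suc_meas t).aemeasurable)
    have hL : MemLp (∑ j, f j) 2 (volume : Measure (Fin N → I)) :=
      memLp_finsetSum' _ fun j _ => memLp N t j
    have hE : ∫ X : Fin N → I, (∑ j, f j) X = N * t := by
      simp only [Finset.sum_apply]
      rw [integral_finsetSum _ (fun j _ => (memLp N t j).integrable (by norm_num))]
      simp only [expect, Finset.sum_const, Finset.card_univ, Fintype.card_fin, nsmul_eq_mul]
    have hV : variance (∑ j, f j) (volume : Measure (Fin N → I)) ≤ N := by
      rw [IndepFun.variance_sum (fun j _ => memLp N t j)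
        (fun i _ j _ hij => hind.indepFun hij)]
      calc ∑ j, variance (f j) (volume : Measure (Fin N → I)) ≤ ∑ _j : Fin N, (1 : ℝ) := by
            apply Finset.sum_le_sum
            intro j _
            refine (variance_le_sq_of_bounded (a := 0) (b := 1) ?_
              ((suc_meas t).comp (measurable_pi_apply j)).aemeasurable).trans (by norm_num)
            filter_upwards with X
            exact suc_mem t (X j)
        _ = N := by simp
    have hC := meas_ge_le_variance_div_sq hL (c := ε * N) (by positivity)
    rw [hE] at hC
    refine (measure_mono ?_).trans (hC.trans ?_)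
    · intro X hX
      have h1 : ε * N < |((Finset.univ.filter (fun j => X j < t)).card : ℝ) - N * t| := hX
      rw [card_eq] at h1
      show ε * N ≤ |(∑ j, f j) X - N * t|
      rw [Finset.sum_apply]
      exact h1.le
    · apply ENNReal.ofReal_le_ofReal
      calc variance (∑ j, f j) (volume : Measure (Fin N → I)) / (ε * N) ^ 2 ≤ N / (ε * N) ^ 2 := by
            gcongr
        _ = _ := by field_simp
  have hlim : Filter.Tendsto (fun N : ℕ => ENNReal.ofReal ((1 / ε ^ 2) * (1 / (N : ℝ))))
      Filter.atTop (nhds 0) := by
    have h1 := (tendsto_one_div_atTop_nhds_zero_nat (𝕜 := ℝ)).const_mul (1 / ε ^ 2)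
    rw [mul_zero] at h1
    have h2 := ENNReal.tendsto_ofReal h1
    rwa [ENNReal.ofReal_zero] at h2
  refine tendsto_of_tendsto_of_tendsto_of_le_of_le' tendsto_const_nhds hlim
    (Filter.Eventually.of_forall fun _ => zero_le) ?_
  filter_upwards [Filter.eventually_gt_atTop 0] with N hN
  exact hbound N hN

end

end R556.CLU
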