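import Pool.Agent.R556.CLU.Defs

/-! CLU-U: upper bound of the iterates (helper560). -/

open MeasureTheory Set Function
open scoped ENNReal unitInterval

namespace R556.CLU

noncomputable section

open Classical R556.CP

namespace UL

/-- integrals over the unit interval -/
theorem lint_I (f : ℝ → ℝ≥0∞) : ∫⁻ y : I, f y = ∫⁻ y in Icc (0 : ℝ) 1, f y :=
  lintegral_subtype_comap measurableSet_Icc f

theorem lint_seg (x : I) (b : ℝ) (hxb : (x : ℝ) ≤ b) (hb : b ≤ 1) (F : ℝ → ℝ) (hF : Continuous F)
    (h0 : ∀ y, (x : ℝ) ≤ y → y ≤ b → 0 ≤ F y) :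
    ∫⁻ y : I, (if x < y ∧ (y : ℝ) ≤ b then ENNReal.ofReal (F y) else 0) =
      ENNReal.ofReal (∫ y in (x : ℝ)..b, F y) := by
  have h1 : ∫⁻ y : I, (if x < y ∧ (y : ℝ) ≤ b then ENNReal.ofReal (F y) else 0) =
      ∫⁻ y in Icc (0 : ℝ) 1, (Ioc (x : ℝ) b).indicator (fun y => ENNReal.ofReal (F y)) y := by
    rw [← lint_I]
    refine lintegral_congr fun y => ?_
    rw [Set.indicator_apply]
    rfl
  have h2 : Ioc (x : ℝ) b ∩ Icc 0 1 = Ioc (x : ℝ) b := by
    apply Set.inter_eq_left.2
    intro y hy
    exact ⟨x.2.1.trans hy.1.le, hy.2.trans hb⟩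
  rw [h1, lintegral_indicator measurableSet_Ioc, Measure.restrict_restrict measurableSet_Ioc, h2,
    intervalIntegral.integral_of_le hxb, ofReal_integral_eq_lintegral_ofReal]
  · exact (hF.integrableOn_Icc (a := (x : ℝ)) (b := b)).mono_set Ioc_subset_Icc_self
  · rw [Filter.EventuallyLE, ae_restrict_iff' measurableSet_Ioc]
    exact Filter.Eventually.of_forall fun y hy => h0 y hy.1.le hy.2

theorem G_cont (hG : StmG) (p q s : ℕ) : Continuous (G p q s) :=
  continuous_iff_continuousAt.2 fun x => ((hG p q s).2.1 x).continuousAt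

theorem G_mono (hG : StmG) (p q s : ℕ) {x y : ℝ} (hx : 0 ≤ x) (hxy : x ≤ y) (hy : y ≤ 1) :
    0 ≤ G p q s y - G p q s x :=
  sub_nonneg.2 ((hG p q s).2.2.2.1.monotoneOn ⟨hx, hxy.trans hy⟩ ⟨hx.trans hxy, hy⟩ hxy)

theorem Qn_succ (p q s k : ℕ) (h : I → ℝ≥0∞) (x : I) :
    Qn p q s (k + 1) h x = ∫⁻ y : I, ker p q s x y * Qn p q s k h y := by
  unfold Qn
  rw [Function.iterate_succ_apply']
  rfl

/-- the integral in the induction -/
theorem step_int (hB : StmB) (p q s k : ℕ) (x b c : ℝ) :
    (∫ y in x..b, (c * (w p q s y * (G p q s y - G p q s x) ^ q *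
      (G p q s b - G p q s y) ^ ((q + 1) * k)))) =
    c * ((G p q s b - G p q s x) ^ ((q + 1) * (k + 1)) *
      (q.factorial * ((q + 1) * k).factorial / ((q + 1) * (k + 1)).factorial)) := by
  rw [intervalIntegral.integral_const_mul, hB p q s q ((q + 1) * k) x b]
  have : q + (q + 1) * k + 1 = (q + 1) * (k + 1) := by ring
  rw [this]

end UL

open UL in
theorem stmU (hK : StmK) (hG : StmG) (hB : StmB) : StmU := by
  intro p q s k
  induction k with
  | zero =>
    intro x
    simp [Qn]
  | succ k ih =>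
    intro x
    rw [Qn_succ]
    have hw := (hG p q s).2.2.1
    have hx0 := x.2.1
    have hx1 := x.2.2
    set c : ℝ := (q.factorial : ℝ) ^ k / ((q + 1) * k).factorial with hc
    have hc0 : 0 ≤ c := by positivity
    set F : ℝ → ℝ := fun y => c * (w p q s y * (G p q s y - G p q s x) ^ q *
      (G p q s 1 - G p q s y) ^ ((q + 1) * k)) with hF
    have hFc : Continuous F := by
      have h1 := (hG p q s).1
      have h2 := G_cont hG p q s
      rw [hF]
      exact continuous_const.mul ((h1.mul ((h2.sub continuous_const).pow _)).mul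
        ((continuous_const.sub h2).pow _))
    have hF0 : ∀ y, (x : ℝ) ≤ y → y ≤ 1 → 0 ≤ F y := by
      intro y h1 h2
      have a1 := G_mono hG p q s hx0 h1 h2
      have a2 := G_mono hG p q s (hx0.trans h1) h2 le_rfl
      have a3 := (hw y (hx0.trans h1) h2).1
      rw [hF]
      positivity
    calc ∫⁻ y : I, ker p q s x y * Qn p q s k (fun _ => 1) y
        ≤ ∫⁻ y : I, (if x < y ∧ (y : ℝ) ≤ 1 then ENNReal.ofReal (F y) else 0) := by
          refine lintegral_mono fun y => ?_
          dsimp only
          unfold ker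
          by_cases hxy : x < y
          · have hxy' : (x : ℝ) < y := hxy
            rw [if_pos hxy, if_pos ⟨hxy, y.2.2⟩]
            have h1 := hK.1 p q s x y hx0 hxy'.le y.2.2
            have a1 := G_mono hG p q s hx0 hxy'.le y.2.2
            have a3 := (hw y y.2.1 y.2.2).1
            refine (mul_le_mul' (ENNReal.ofReal_le_ofReal h1) (ih y)).trans ?_
            rw [← ENNReal.ofReal_mul (by positivity)]
            apply ENNReal.ofReal_le_ofReal
            apply le_of_eq
            rw [hF, hc]
            ring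
          · rw [if_neg hxy, if_neg (fun h => hxy h.1), zero_mul]
      _ = ENNReal.ofReal (∫ y in (x : ℝ)..1, F y) := lint_seg x 1 hx1 le_rfl F hFc hF0
      _ ≤ _ := by
          apply ENNReal.ofReal_le_ofReal
          apply le_of_eq
          rw [hF, step_int hB, hc]
          have := Nat.factorial_ne_zero ((q + 1) * k)
          field_simp
          ring

end

end R556.CLU
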