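import Pool.Agent.R556.CLU.Defs

/-! CLU-V: iterates applied to a general function -/

open MeasureTheory Set Function
open scoped ENNReal unitInterval

namespace R556.CLU

noncomputable section

open Classical in
lemma v_lint (x y : I) (hxy : x ≤ y) (g : ℝ → ℝ) (hg : Continuous g)
    (hg0 : ∀ z, (x : ℝ) ≤ z → z ≤ y → 0 ≤ g z) :
    ∫⁻ z : I, (if x < z ∧ z < y then ENNReal.ofReal (g z) else 0) =
      ENNReal.ofReal (∫ z in (x : ℝ)..y, g z) := by
  have h1 : ∫⁻ z : I, (if x < z ∧ z < y then ENNReal.ofReal (g z) else 0) =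
      ∫⁻ z in Icc (0 : ℝ) 1, (Ioo (x : ℝ) y).indicator (fun z => ENNReal.ofReal (g z)) z := by
    rw [← lintegral_subtype_comap measurableSet_Icc]
    apply lintegral_congr
    intro z
    simp only [Set.indicator_apply, Set.mem_Ioo]
    rfl
  have hle : (x : ℝ) ≤ y := hxy
  rw [h1, setLIntegral_indicator measurableSet_Ioo]
  have h2 : Ioo (x : ℝ) y ∩ Icc 0 1 = Ioo (x : ℝ) y := by
    apply Set.inter_eq_left.mpr
    intro z hz
    exact ⟨le_trans x.2.1 hz.1.le, le_trans hz.2.le y.2.2⟩
  rw [h2, intervalIntegral.integral_of_le hle, integral_Ioc_eq_integral_Ioo,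
    ofReal_integral_eq_lintegral_ofReal]
  · exact (hg.integrableOn_Icc).mono_set Ioo_subset_Icc_self
  · rw [Filter.EventuallyLE, ae_restrict_iff' measurableSet_Ioo]
    filter_upwards with z hz
    exact hg0 z hz.1.le hz.2.le

lemma v_contG {p q s : ℕ} (hG : StmG) : Continuous (G p q s) := by
  obtain ⟨-, h2, -⟩ := hG p q s
  exact continuous_iff_continuousAt.mpr (fun x => (h2 x).continuousAt)

lemma v_Gmono {p q s : ℕ} (hG : StmG) {x y : ℝ} (hx : 0 ≤ x) (hxy : x ≤ y) (hy : y ≤ 1) :
    G p q s x ≤ G p q s y := by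
  obtain ⟨-, -, -, h4, -⟩ := hG p q s
  exact h4.monotoneOn ⟨hx, by linarith⟩ ⟨by linarith, hy⟩ hxy

lemma v_meas_ker (p q s : ℕ) : Measurable (fun z : I × I => ker p q s z.1 z.2) := by
  unfold ker
  refine Measurable.ite (measurableSet_lt measurable_fst measurable_snd) ?_ measurable_const
  apply Measurable.ennreal_ofReal
  apply Continuous.measurable
  fun_prop

lemma v_ker_le (hK : StmK) (p q s : ℕ) (x y : I) : ker p q s x y ≤
    (if x < y then ENNReal.ofReal (w p q s y * (G p q s y - G p q s x) ^ q) else 0) := by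
  unfold ker
  split_ifs with h
  · exact ENNReal.ofReal_le_ofReal (hK.1 p q s x y x.2.1 h.le y.2.2)
  · exact le_rfl

open Classical in
/-- the bound on the right-hand side -/
def bv (p q s i : ℕ) (x y : I) : ℝ≥0∞ :=
  if x < y then ENNReal.ofReal ((q.factorial : ℝ) ^ (i + 1) * (w p q s y *
      ((G p q s y - G p q s x) ^ ((q + 1) * (i + 1) - 1) / ((q + 1) * (i + 1) - 1).factorial)))
      else 0

lemma v_meas_bv (hG : StmG) (p q s i : ℕ) : Measurable (fun z : I × I => bv p q s i z.1 z.2) := by
  unfold bv
  refine Measurable.ite (measurableSet_lt measurable_fst measurable_snd) ?_ measurable_const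
  apply Measurable.ennreal_ofReal
  apply Continuous.measurable
  have h1 := v_contG (p := p) (q := q) (s := s) hG
  have h2 := (hG p q s).1
  fun_prop

lemma v_step (hK : StmK) (hG : StmG) (hB : StmB) (p q s i : ℕ) (x y : I) :
    ∫⁻ z : I, ker p q s x z * bv p q s i z y ≤ bv p q s (i + 1) x y := by
  by_cases hxy : x < y
  swap
  · have h0 : ∀ z : I, ker p q s x z * bv p q s i z y = 0 := by
      intro z
      unfold ker bv
      by_cases h1 : x < z
      · by_cases h2 : z < y
        · exact absurd (h1.trans h2) hxy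
        · simp [h2]
      · simp [h1]
    simp [h0]
  obtain ⟨M, hM⟩ : ∃ M, M = (q + 1) * (i + 1) - 1 := ⟨_, rfl⟩
  have hM2 : (q + 1) * (i + 1 + 1) - 1 = q + M + 1 := by
    have h1 : 0 < (q + 1) * (i + 1) := by positivity
    have h2 : (q + 1) * (i + 1 + 1) = (q + 1) * (i + 1) + (q + 1) := by ring
    omega
  obtain ⟨A, hA⟩ : ∃ A : ℝ, A = (q.factorial : ℝ) ^ (i + 1) * w p q s y / M.factorial := ⟨_, rfl⟩
  have hwy : 0 ≤ w p q s y := ((hG p q s).2.2.1 y y.2.1 y.2.2).1
  have hA0 : 0 ≤ A := by rw [hA]; positivity
  obtain ⟨g, hg⟩ : ∃ g : ℝ → ℝ, g = fun z => w p q s z * (G p q s z - G p q s x) ^ q *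
    (G p q s y - G p q s z) ^ M := ⟨_, rfl⟩
  have hgc : Continuous g := by
    have h1 := v_contG (p := p) (q := q) (s := s) hG
    have h2 := (hG p q s).1
    rw [hg]
    fun_prop
  have hg0 : ∀ z, (x : ℝ) ≤ z → z ≤ y → 0 ≤ g z := by
    intro z hz1 hz2
    have hz0 : 0 ≤ z := le_trans x.2.1 hz1
    have hz3 : z ≤ 1 := le_trans hz2 y.2.2
    rw [hg]
    have h1 := v_Gmono (p := p) (q := q) (s := s) hG x.2.1 hz1 hz3
    have h2 := v_Gmono (p := p) (q := q) (s := s) hG hz0 hz2 y.2.2
    have h3 := ((hG p q s).2.2.1 z hz0 hz3).1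
    exact mul_nonneg (mul_nonneg h3 (pow_nonneg (by linarith) _)) (pow_nonneg (by linarith) _)
  have hpt : ∀ z : I, ker p q s x z * bv p q s i z y ≤
      ENNReal.ofReal A * (if x < z ∧ z < y then ENNReal.ofReal (g z) else 0) := by
    intro z
    by_cases h1 : x < z
    · by_cases h2 : z < y
      · have h3 := v_ker_le hK p q s x z
        rw [if_pos h1] at h3
        unfold bv
        rw [if_pos h2, if_pos ⟨h1, h2⟩, ← hM]
        refine le_trans (mul_le_mul_left h3 _) ?_
        have hz1 : (x : ℝ) ≤ z := h1.le
        have hz2 : (z : ℝ) ≤ y := h2.le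
        have h5 := v_Gmono (p := p) (q := q) (s := s) hG x.2.1 hz1 z.2.2
        have h6 := v_Gmono (p := p) (q := q) (s := s) hG z.2.1 hz2 y.2.2
        have h7 := ((hG p q s).2.2.1 z z.2.1 z.2.2).1
        rw [← ENNReal.ofReal_mul (mul_nonneg h7 (pow_nonneg (by linarith) _)),
          ← ENNReal.ofReal_mul hA0]
        apply ENNReal.ofReal_le_ofReal
        rw [hA, hg]
        apply le_of_eq
        simp only
        field_simp
      · unfold bv
        rw [if_neg h2]
        simp
    · unfold ker
      rw [if_neg h1]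
      simp
  refine le_trans (lintegral_mono hpt) ?_
  have hmeas : Measurable (fun z : I => if x < z ∧ z < y then ENNReal.ofReal (g z) else 0) := by
    refine Measurable.ite ?_ ?_ measurable_const
    · exact (measurableSet_Ioi (a := x)).inter (measurableSet_Iio (a := y))
    · apply Measurable.ennreal_ofReal
      exact (hgc.comp continuous_subtype_val).measurable
  rw [lintegral_const_mul _ hmeas]
  have h8 := v_lint x y hxy.le g hgc hg0
  have h9 : ∫⁻ z : I, (if x < z ∧ z < y then ENNReal.ofReal (g z) else 0) =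
      ENNReal.ofReal (∫ z in (x : ℝ)..y, g z) := by
    rw [← h8]
  rw [h9, ← ENNReal.ofReal_mul hA0]
  unfold bv
  rw [if_pos hxy, hM2]
  apply ENNReal.ofReal_le_ofReal
  have h10 := hB p q s q M x y
  rw [hg, h10, hA]
  apply le_of_eq
  have hf1 : (M.factorial : ℝ) ≠ 0 := by positivity
  have hf2 : ((q + M + 1).factorial : ℝ) ≠ 0 := by positivity
  field_simp
  ring

theorem stmV (hK : StmK) (hG : StmG) (hB : StmB) : StmV := by
  intro p q s i h hh
  induction i with
  | zero =>
    intro x
    show Q p q s h x ≤ _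
    unfold Q
    apply lintegral_mono
    intro y
    apply mul_le_mul_left
    refine le_trans (v_ker_le hK p q s x y) ?_
    by_cases hxy : x < y
    · rw [if_pos hxy, if_pos hxy]
      apply ENNReal.ofReal_le_ofReal
      have e1 : (q + 1) * (0 + 1) - 1 = q := by omega
      rw [e1]
      apply le_of_eq
      have hf1 : (q.factorial : ℝ) ≠ 0 := by positivity
      field_simp
      ring
    · rw [if_neg hxy, if_neg hxy]
  | succ i ih =>
    intro x
    show ((Q p q s)^[i + 1 + 1] h) x ≤ _
    rw [Function.iterate_succ_apply']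
    unfold Q
    have h1 : ∀ z : I, ((Q p q s)^[i + 1] h) z ≤ ∫⁻ y : I, bv p q s i z y * h y := by
      intro z
      exact ih z
    calc ∫⁻ z : I, ker p q s x z * ((Q p q s)^[i + 1] h) z
        ≤ ∫⁻ z : I, ker p q s x z * ∫⁻ y : I, bv p q s i z y * h y := by
          apply lintegral_mono
          intro z
          exact mul_le_mul_right (h1 z) _
      _ = ∫⁻ z : I, ∫⁻ y : I, ker p q s x z * (bv p q s i z y * h y) := by
          apply lintegral_congr
          intro z
          rw [lintegral_const_mul]
          exact ((v_meas_bv hG p q s i).comp (measurable_const.prodMk measurable_id)).mul hh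
      _ = ∫⁻ y : I, ∫⁻ z : I, ker p q s x z * (bv p q s i z y * h y) := by
          apply lintegral_lintegral_swap
          apply Measurable.aemeasurable
          have m1 : Measurable (fun zy : I × I => ker p q s x zy.1) :=
            (v_meas_ker p q s).comp (measurable_const.prodMk measurable_fst)
          exact m1.mul ((v_meas_bv hG p q s i).mul (hh.comp measurable_snd))
      _ = ∫⁻ y : I, (∫⁻ z : I, ker p q s x z * bv p q s i z y) * h y := by
          apply lintegral_congr
          intro y
          rw [← lintegral_mul_const]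
          · apply lintegral_congr
            intro z
            ring
          · have m1 : Measurable (fun z : I => ker p q s x z) :=
              (v_meas_ker p q s).comp (measurable_const.prodMk measurable_id)
            exact m1.mul ((v_meas_bv hG p q s i).comp (measurable_id.prodMk measurable_const))
      _ ≤ ∫⁻ y : I, bv p q s (i + 1) x y * h y := by
          apply lintegral_mono
          intro y
          exact mul_le_mul_left (v_step hK hG hB p q s i x y) _
      _ = _ := rfl

end

end R556.CLU
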